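import Pool.Agent.Helper51.HI.Main3

set_option autoImplicit false

/-!
Sections of the line bundles `O(k P)` on a plane curve, `P` a smooth rational point.

`f` is monic in `Y` (outer variable), of degree `n + 1`; `X` (inner variable) has weight `1`, `Y` has
weight `A`. Over the power series ring `f = (Y - y) g`; `y` is the branch through `P = (0, 0)` and
`g` is the residual factor. `InW n A g i h` says that `h / X ^ i` has its only pole at `P`, of order
at most `i`.
-/

namespace Pool.Agent.Helper51.HN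

open Polynomial

variable {K : Type*} [Field K]

/-- polynomials as power series -/
noncomputable abbrev ps {K : Type*} [Field K] : K[X] →+* PowerSeries K :=
  Polynomial.coeToPowerSeries.ringHom

/-- weighted degree at most `i` -/
structure Wt (n A i : ℕ) (h : K[X][X]) : Prop where
  deg : h.natDegree ≤ n
  coeff : ∀ j, h.coeff j ≠ 0 → (h.coeff j).natDegree + j * A ≤ i

/-- the curve -/
structure Crv (f : K[X][X]) (n A : ℕ) (y : PowerSeries K) (g : (PowerSeries K)[X]) : Prop where
  irr : Irreducible f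
  monic : f.Monic
  deg : f.natDegree = n + 1
  wt : ∀ j, f.coeff j ≠ 0 → (f.coeff j).natDegree + j * A ≤ (n + 1) * A
  hA : 1 ≤ A
  y0 : PowerSeries.constantCoeff y = 0
  gmonic : g.Monic
  gdeg : g.natDegree = n
  fac : f.map ps = (X - C y) * g
  g0 : PowerSeries.constantCoeff (g.coeff 0) ≠ 0

/-- residual order at least `i` -/
def Rs (g : (PowerSeries K)[X]) (i : ℕ) (h : K[X][X]) : Prop :=
  ∃ r s : (PowerSeries K)[X], h.map ps = C (PowerSeries.X ^ i) * r + g * s

/-- sections -/
def InW (n A : ℕ) (g : (PowerSeries K)[X]) (i : ℕ) (h : K[X][X]) : Prop :=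
  Wt n A i h ∧ Rs g i h

/-- the value at the origin -/
noncomputable def ev (h : K[X][X]) : K := (h.coeff 0).coeff 0

/-- values at the points of a field extension -/
noncomputable def bev {E : Type*} [Field E] [Algebra K E] (x y : E) (h : K[X][X]) : E :=
  h.eval₂ ((aeval x : K[X] →ₐ[K] E) : K[X] →+* E) y

theorem Wt.zero (n A i : ℕ) : Wt n A i (0 : K[X][X]) :=
  ⟨by simp, fun j hj => absurd (coeff_zero j) hj⟩

theorem Wt.add {n A i : ℕ} {h h' : K[X][X]} (H : Wt n A i h) (H' : Wt n A i h') :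
    Wt n A i (h + h') := by
  refine ⟨(natDegree_add_le _ _).trans (max_le H.deg H'.deg), fun j hj => ?_⟩
  rw [coeff_add] at hj ⊢
  by_cases h1 : h.coeff j = 0
  · rw [h1, zero_add] at hj ⊢
    exact H'.coeff j hj
  by_cases h2 : h'.coeff j = 0
  · rw [h2, add_zero]
    exact H.coeff j h1
  have h3 := H.coeff j h1
  have h4 := H'.coeff j h2
  have h5 := natDegree_add_le (h.coeff j) (h'.coeff j)
  rcases max_cases (h.coeff j).natDegree (h'.coeff j).natDegree with h6 | h6 <;> omega

theorem Wt.mono {n A i i' : ℕ} {h : K[X][X]} (H : Wt n A i h) (hi : i ≤ i') : Wt n A i' h :=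
  ⟨H.deg, fun j hj => (H.coeff j hj).trans hi⟩

theorem Wt.smul {n A i m : ℕ} {h : K[X][X]} (H : Wt n A i h) (a : K[X]) (ha : a.natDegree ≤ m) :
    Wt n A (i + m) (C a * h) := by
  refine ⟨(natDegree_C_mul_le _ _).trans H.deg, fun j hj => ?_⟩
  rw [coeff_C_mul] at hj ⊢
  have h1 := H.coeff j (fun h0 => hj (by rw [h0, mul_zero]))
  have h2 : (a * h.coeff j).natDegree ≤ a.natDegree + (h.coeff j).natDegree := natDegree_mul_le
  omega

theorem Rs.zero (g : (PowerSeries K)[X]) (i : ℕ) : Rs g i (0 : K[X][X]) :=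
  ⟨0, 0, by simp⟩

theorem Rs.add {g : (PowerSeries K)[X]} {i : ℕ} {h h' : K[X][X]} (H : Rs g i h) (H' : Rs g i h') :
    Rs g i (h + h') := by
  obtain ⟨r, s, e⟩ := H
  obtain ⟨r', s', e'⟩ := H'
  exact ⟨r + r', s + s', by rw [Polynomial.map_add, e, e']; ring⟩

theorem Rs.smul {g : (PowerSeries K)[X]} {i : ℕ} {h : K[X][X]} (H : Rs g i h) (a : K[X]) (m : ℕ)
    (ha : X ^ m ∣ a) : Rs g (i + m) (C a * h) := by
  obtain ⟨r, s, e⟩ := H
  obtain ⟨b, rfl⟩ := ha
  refine ⟨C (ps b) * r, C (ps (X ^ m * b)) * s, ?_⟩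
  have h1 : ps (X ^ m * b : K[X]) = PowerSeries.X ^ m * ps b := by
    rw [map_mul, map_pow]
    congr 2
    exact Polynomial.coe_X
  rw [Polynomial.map_mul, map_C, e, h1, pow_add, C_mul, C_mul]
  ring

/-- the space of sections -/
def Wsub (n A : ℕ) (g : (PowerSeries K)[X]) (i : ℕ) : Submodule K K[X][X] where
  carrier := {h | InW n A g i h}
  add_mem' := fun H H' => ⟨H.1.add H'.1, H.2.add H'.2⟩
  zero_mem' := ⟨Wt.zero n A i, Rs.zero g i⟩
  smul_mem' := fun c h H => by
    have h1 : c • h = C (C c) * h := by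
      ext i j
      rw [coeff_C_mul, coeff_C_mul, coeff_smul, coeff_smul, smul_eq_mul]
    show InW n A g i (c • h)
    rw [h1]
    exact ⟨by simpa using H.1.smul (C c) (m := 0) (by simp), by simpa using H.2.smul (C c) 0 (by simp)⟩

theorem mem_Wsub {n A : ℕ} {g : (PowerSeries K)[X]} {i : ℕ} {h : K[X][X]} :
    h ∈ Wsub n A g i ↔ InW n A g i h := Iff.rfl

end Pool.Agent.Helper51.HN
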