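import Pool.Agent.Helper51.HN.Defs

set_option autoImplicit false

/-!
HN-P20: degrees of totally split polynomials.

Proof. Let `q` be irreducible separable and split in every `F i`. All its roots in `Ω` lie in `⨅ F i`
(compare `exists_root_of_split` in `HI/Main3.lean`). Let `M = adjoin K (q.rootSet Ω)`: finite over `K`,
Galois (`q` separable and splits in `M`; e.g. `HI.galois_adjoin` in `HI/Esc.lean`), contained in `⨅ F i`. So
`finrank K M = p ^ j`. A root `a` of `q` lies in `M` and `q.natDegree = finrank K K⟮a⟯ ∣ finrank K M`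
(or `minpoly.degree_dvd`). Divisors of `p ^ j` are powers of `p`. (`Ω` algebraically closed, so `q` has a
root.)
-/

namespace Pool.Agent.Helper51.HN

open Polynomial IntermediateField Module

variable {K : Type*} [Field K] {Ω : Type*} [Field Ω] [Algebra K Ω]

theorem pow_of_galois [IsAlgClosed Ω] [Algebra.IsAlgebraic K Ω] {ι : Type*}
    (F : ι → IntermediateField K Ω) (p : ℕ) (hp : p.Prime)
    (hgal : ∀ M : IntermediateField K Ω, FiniteDimensional K M → IsGalois K M → M ≤ ⨅ i, F i →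
      ∃ j, finrank K M = p ^ j)
    (q : K[X]) (hq : Irreducible q) (hsep : q.Separable)
    (hsplit : ∀ i, (q.map (algebraMap K (F i))).Splits) : ∃ j, q.natDegree = p ^ j := by
  have hqF : ∀ a ∈ q.rootSet Ω, a ∈ (⨅ i, F i : IntermediateField K Ω) := by
    intro a ha
    rw [← SetLike.mem_coe, IntermediateField.coe_iInf, Set.mem_iInter]
    intro i
    have h3 : a ∈ q.rootSet Ω := ha
    rw [← (hsplit i).image_rootSet (F i).val] at h3
    obtain ⟨b, -, rfl⟩ := h3
    exact b.2
  obtain ⟨h1, h2, -⟩ := HI.galois_adjoin (Ω := Ω) q hsep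
  obtain ⟨j, hj⟩ := hgal _ h1 h2 (adjoin_le_iff.2 hqF)
  obtain ⟨a, ha0⟩ : ∃ a : Ω, aeval a q = 0 := IsAlgClosed.exists_aeval_eq_zero Ω q (by
    rw [degree_eq_natDegree hq.ne_zero]
    exact_mod_cast hq.natDegree_pos.ne')
  have haM : a ∈ adjoin K (q.rootSet Ω) :=
    subset_adjoin K _ ((mem_rootSet).2 ⟨hq.ne_zero, ha0⟩)
  have h3 : (minpoly K a).natDegree = q.natDegree := by
    rw [← minpoly.eq_of_irreducible hq ha0, natDegree_mul_C]
    exact inv_ne_zero (leadingCoeff_ne_zero.2 hq.ne_zero)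
  have h4 : minpoly K a = minpoly K (⟨a, haM⟩ : adjoin K (q.rootSet Ω)) :=
    minpoly.algebraMap_eq (A := K) (B := adjoin K (q.rootSet Ω)) (B' := Ω)
      (algebraMap (adjoin K (q.rootSet Ω)) Ω).injective ⟨a, haM⟩
  have h5 : q.natDegree ∣ p ^ j := by
    rw [← h3, h4, ← hj]
    exact minpoly.degree_dvd (IsIntegral.of_finite K _)
  obtain ⟨i, -, hi⟩ := (Nat.dvd_prime_pow hp).1 h5
  exact ⟨i, hi⟩

end Pool.Agent.Helper51.HN
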