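import Pool.Agent.Helper51.HN.P19
import Pool.Agent.Helper51.HN.P20
import Pool.Agent.Helper51.HI.Main

set_option autoImplicit false

/-!
Infinitely many rational points over nonreal fields: the general statement.
-/

namespace Pool.Agent.Helper51.HN

open Polynomial Filter IntermediateField Module Pool.Agent.Helper51.HI

variable {K : Type*} [Field K] {Ω : Type*} [Field Ω] [Algebra K Ω]

theorem infinite_nonreal [IsAlgClosed Ω] [Algebra.IsAlgebraic K Ω] {ι : Type*} [Finite ι]
    [Nonempty ι] (hK : IsSumSq (-1 : K)) (F : ι → IntermediateField K Ω)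
    (hF : ∀ i, RH (F i)) (p : ℕ) (hp : p.Prime)
    (hgal : ∀ M : IntermediateField K Ω, FiniteDimensional K M → IsGalois K M → M ≤ ⨅ i, F i →
      ∃ j, finrank K M = p ^ j)
    (f : K[X][X]) (a b : K) (h0 : f.evalEval a b = 0) (h1 : (derivative f).evalEval a b ≠ 0) :
    {x : K | ∃ y : K, f.evalEval x y = 0}.Infinite := by
  cases nonempty_fintype ι
  obtain ⟨ℱ, hne, hcof, hpers⟩ := exists_filter (fun i => F i) (fun i => (hF i).th (K := K))
  have hinf : Infinite K := by
    have h2 : (cofinite : Filter K).NeBot := hne.mono hcof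
    by_contra h
    rw [not_infinite_iff_finite] at h
    exact h2.ne cofinite_eq_bot
  refine infinite_points (data_of_monic fun f n hirr hm hf hn h0 h1 => ?_) f a b h0 h1
  exact infinite_irred_split ℱ hcof F hpers p hp
    (fun q hq hsep hs => pow_of_galois F p hp hgal q hq hsep hs)
    (fun J => exists_gap_nonreal hK ℱ hcof (fun i => F i) hpers J p hp)
    f n hirr hm hf h0 h1

end Pool.Agent.Helper51.HN
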