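import Pool.Agent.Helper51.HN.Defs

set_option autoImplicit false

/-!
HN-P01: normal form of the curve.

Proof. Let `A = 1 + max_j natDegree (f.coeff j)`. For `j ≤ n`, `natDegree (f.coeff j) + j * A ≤
A + n A`; for `j = n + 1` the coefficient is `1`. The branch `y`: by Hensel in `K[[X]]` (either
Mathlib's `HenselianLocalRing`/`IsAdicComplete` for power series, or directly: by
`Pool.Agent.Helper51.HI.exists_branch` there is for every `Q` a polynomial `p_Q` with `p_Q(0) = 0`
and `X ^ Q ∣ f(p_Q)`; two such are congruent modulo `X ^ Q` since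
`f(p) - f(p') = (p - p') * unit`; take the limit, i.e. `coeff m y = coeff m p_(m+1)`). Then
`f.map ps` has the root `y`, `g = (f.map ps) /ₘ (X - C y)`, and modulo `X` one gets
`f(0, Y) = Y g(0, Y)`, so `g(0, 0) = (f.coeff 1).coeff 0 ≠ 0`.
-/

namespace Pool.Agent.Helper51.HN

open Polynomial

variable {K : Type*} [Field K]

theorem crv_exists (f : K[X][X]) (n : ℕ) (hirr : Irreducible f) (hm : f.Monic)
    (hf : f.natDegree = n + 1) (h0 : (f.coeff 0).coeff 0 = 0) (h1 : (f.coeff 1).coeff 0 ≠ 0) :
    ∃ (A : ℕ) (y : PowerSeries K) (g : (PowerSeries K)[X]), Crv f n A y g := by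
  have hcc : ∀ q : K[X], PowerSeries.constantCoeff (ps q) = q.coeff 0 := by
    intro q
    rw [← PowerSeries.coeff_zero_eq_constantCoeff_apply]
    exact Polynomial.coeff_coe q 0
  have hFm : (f.map ps).Monic := hm.map _
  have hFd : (f.map ps).natDegree = n + 1 := by
    rw [hm.natDegree_map, hf]
  obtain ⟨y, hy, hy0⟩ := HenselianRing.is_henselian (I := Ideal.span {(PowerSeries.X : PowerSeries K)})
    (f.map ps) hFm 0
    (by
      rw [Ideal.mem_span_singleton, PowerSeries.X_dvd_iff, ← coeff_zero_eq_eval_zero, coeff_map,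
        hcc, h0])
    (by
      apply IsUnit.map
      rw [← coeff_zero_eq_eval_zero, coeff_derivative, coeff_map, PowerSeries.isUnit_iff_constantCoeff]
      rw [map_mul, hcc]
      simpa using h1)
  rw [sub_zero, Ideal.mem_span_singleton, PowerSeries.X_dvd_iff] at hy0
  have hfac : (X - C y) * (f.map ps /ₘ (X - C y)) = f.map ps := mul_divByMonic_eq_iff_isRoot.2 hy
  refine ⟨1 + (Finset.range (n + 2)).sup (fun j => (f.coeff j).natDegree), y,
    f.map ps /ₘ (X - C y), hirr, hm, hf, ?_, by omega, hy0, ?_, ?_, hfac.symm, ?_⟩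
  · intro j hj
    have hjn : j ≤ n + 1 := by
      rw [← hf]
      exact le_natDegree_of_ne_zero hj
    rcases Nat.lt_or_ge j (n + 1) with h2 | h2
    · have h3 : (f.coeff j).natDegree ≤
          (Finset.range (n + 2)).sup (fun j => (f.coeff j).natDegree) :=
        Finset.le_sup (f := fun j => (f.coeff j).natDegree) (Finset.mem_range.2 (by omega))
      have h4 : j * (1 + (Finset.range (n + 2)).sup (fun j => (f.coeff j).natDegree)) ≤
          n * (1 + (Finset.range (n + 2)).sup (fun j => (f.coeff j).natDegree)) :=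
        Nat.mul_le_mul_right _ (by omega)
      rw [Nat.succ_mul]
      omega
    · have h3 : j = n + 1 := by omega
      subst h3
      have h4 : f.coeff (n + 1) = 1 := by
        have := hm.coeff_natDegree
        rwa [hf] at this
      rw [h4, natDegree_one, zero_add]
  · exact (monic_X_sub_C y).of_mul_monic_left (by rw [hfac]; exact hFm)
  · rw [natDegree_divByMonic _ (monic_X_sub_C y), hFd, natDegree_X_sub_C]
    rfl
  · have h2 := congrArg (fun q => (q.map (PowerSeries.constantCoeff (R := K))).coeff 1) hfac
    simp only [Polynomial.map_mul, Polynomial.map_sub, map_X, map_C, hy0, map_zero, sub_zero] at h2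
    rw [coeff_X_mul, coeff_map, coeff_map, coeff_map, hcc] at h2
    rw [h2]
    exact h1

end Pool.Agent.Helper51.HN
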