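import Pool.Agent.Helper51.HN.Defs

set_option autoImplicit false

/-!
HN-P02: reduction to curves monic in `Y`.

Proof. Let `f` be irreducible of degree `n + 1 ≥ 2` in `Y` with `f(0,0) = 0`, `f_Y(0,0) ≠ 0`. For
`e ≥ 2` larger than `n + 1` put `f₁(X, Y) = f(X + Y ^ e, Y)`; its leading coefficient in `Y` is a
nonzero constant (the monomials `X^i Y^j` of `f` give `Y`-degrees `e i + j`, all different since
`j < e`), `f₁(0,0) = 0` and `∂_Y f₁ (0,0) = f_Y(0,0) ≠ 0` as `e ≥ 2`. Take an irreducible factor `g₁`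
of `f₁` through the origin with `∂_Y g₁ (0,0) ≠ 0` (`HI.exists_factor`); its leading coefficient divides
a constant, so after multiplying by a constant `g₁` is monic. If `g₁` has degree `1` in `Y` use
`HI.infinite_linear`, otherwise `hD`: infinitely many `x` with a `y` such that `g₁(x, y) = 0`, so
`f(x + y^e, y) = 0`. If only finitely many values `x + y^e` occurred, one of them, `x₀`, would occur
for infinitely many `y` (the pair `(x + y^e, y)` determines `x`), so `f(x₀, Y) = 0`, i.e.
`X - x₀` divides the irreducible `f` of positive degree in `Y`: impossible.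
-/

namespace Pool.Agent.Helper51.HN

open Polynomial Pool.Agent.Helper51.HI

variable {K : Type*} [Field K]

/-- substitution `X -> X + Y ^ e` on the inner variable -/
noncomputable def p02_iota (K : Type*) [Field K] (e : ℕ) : K[X] →+* K[X][X] :=
  eval₂RingHom ((C : K[X] →+* K[X][X]).comp C) (C X + X ^ e)

/-- substitution `X -> X + Y ^ e` -/
noncomputable def p02_phi (K : Type*) [Field K] (e : ℕ) : K[X][X] →+* K[X][X] :=
  eval₂RingHom (p02_iota K e) X

theorem p02_phi_eval (e : ℕ) (x y : K) (f : K[X][X]) :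
    ((p02_phi K e f).eval (C y)).eval x = (f.eval (C y)).eval (x + y ^ e) := by
  have h : ((evalRingHom x).comp (evalRingHom (C y))).comp (p02_phi K e) =
      (evalRingHom (x + y ^ e)).comp (evalRingHom (C y : K[X])) := by
    apply Polynomial.ringHom_ext
    · intro a
      have h2 : (((evalRingHom x).comp (evalRingHom (C y))).comp (p02_phi K e)).comp C =
          ((evalRingHom (x + y ^ e)).comp (evalRingHom (C y : K[X]))).comp C := by
        apply Polynomial.ringHom_ext
        · intro b
          simp [p02_phi, p02_iota]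
        · simp [p02_phi, p02_iota]
      exact congrArg (fun F : K[X] →+* K => F a) h2
    · simp [p02_phi]
  exact congrArg (fun F : K[X][X] →+* K => F f) h

theorem p02_coeff_zero (p : K[X][X]) : (p.coeff 0).coeff 0 = (p.eval (C 0)).eval 0 := by
  rw [C_0, coeff_zero_eq_eval_zero, coeff_zero_eq_eval_zero]

theorem p02_sum (e : ℕ) (f : K[X][X]) :
    p02_phi K e f = ∑ j ∈ f.support, p02_iota K e (f.coeff j) * X ^ j := by
  rw [p02_phi, coe_eval₂RingHom, eval₂_eq_sum, Polynomial.sum_def]

theorem p02_monic (e : ℕ) (he : 1 ≤ e) : (C X + X ^ e : K[X][X]).Monic := by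
  rw [add_comm]
  exact monic_X_pow_add_C _ (by omega)

theorem p02_natDegree_base (e : ℕ) (he : 1 ≤ e) : (C X + X ^ e : K[X][X]).natDegree = e := by
  rw [add_comm]
  exact natDegree_X_pow_add_C

theorem p02_iota_eq (e : ℕ) (a : K[X]) :
    p02_iota K e a = (a.map (C : K →+* K[X])).comp (C X + X ^ e) := by
  rw [p02_iota, coe_eval₂RingHom, comp, eval₂_map]

theorem p02_iota_natDegree (e : ℕ) (he : 1 ≤ e) (a : K[X]) :
    (p02_iota K e a).natDegree = a.natDegree * e := by
  rw [p02_iota_eq, natDegree_comp, p02_natDegree_base e he, natDegree_map_eq_of_injective C_injective]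

theorem p02_iota_lead (e : ℕ) (he : 1 ≤ e) (a : K[X]) :
    (p02_iota K e a).leadingCoeff = C a.leadingCoeff := by
  rw [p02_iota_eq, leadingCoeff_comp (by rw [p02_natDegree_base e he]; omega),
    (p02_monic e he).leadingCoeff, one_pow, mul_one, leadingCoeff_map_of_injective C_injective]

theorem p02_lead (e : ℕ) (f : K[X][X]) (hf : f ≠ 0) (he : f.natDegree < e) :
    ∃ c : K, c ≠ 0 ∧ (p02_phi K e f).leadingCoeff = C c := by
  have he1 : 1 ≤ e := by omega
  obtain ⟨j0, hj0, hmax⟩ := Finset.exists_max_image f.support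
    (fun j => (f.coeff j).natDegree * e + j) (nonempty_support_iff.2 hf)
  have ha0 : f.coeff j0 ≠ 0 := mem_support_iff.1 hj0
  set N := (f.coeff j0).natDegree * e + j0 with hN
  have hterm : ∀ j ∈ f.support,
      (p02_iota K e (f.coeff j) * X ^ j).natDegree = (f.coeff j).natDegree * e + j := by
    intro j hj
    have hne : p02_iota K e (f.coeff j) ≠ 0 := by
      intro h0
      have := p02_iota_lead e he1 (f.coeff j)
      rw [h0, leadingCoeff_zero] at this
      have h1 := (C_eq_zero.1 this.symm)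
      exact (mem_support_iff.1 hj) (leadingCoeff_eq_zero.1 h1)
    rw [natDegree_mul_X_pow j hne, p02_iota_natDegree e he1]
  have hle : (p02_phi K e f).natDegree ≤ N := by
    rw [p02_sum]
    refine natDegree_sum_le_of_forall_le _ _ fun j hj => ?_
    rw [hterm j hj]
    exact hmax j hj
  have hcoeff : (p02_phi K e f).coeff N = C (f.coeff j0).leadingCoeff := by
    rw [p02_sum, finset_sum_coeff, Finset.sum_eq_single_of_mem j0 hj0]
    · rw [hN, coeff_mul_X_pow, ← p02_iota_natDegree e he1 (f.coeff j0), coeff_natDegree,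
        p02_iota_lead e he1]
    · intro j hj hne
      apply coeff_eq_zero_of_natDegree_lt
      rw [hterm j hj]
      refine lt_of_le_of_ne (hmax j hj) ?_
      intro h
      apply hne
      have h1 : j < e := lt_of_le_of_lt (le_natDegree_of_mem_supp _ hj) he
      have h2 : j0 < e := lt_of_le_of_lt (le_natDegree_of_mem_supp _ hj0) he
      have h3 : ((f.coeff j).natDegree * e + j) % e = (((f.coeff j0).natDegree * e + j0)) % e := by
        rw [h]
      rw [Nat.mul_add_mod', Nat.mul_add_mod', Nat.mod_eq_of_lt h1, Nat.mod_eq_of_lt h2] at h3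
      exact h3
  have hc : (f.coeff j0).leadingCoeff ≠ 0 := leadingCoeff_ne_zero.2 ha0
  refine ⟨(f.coeff j0).leadingCoeff, hc, ?_⟩
  have hdeg : (p02_phi K e f).natDegree = N := by
    refine le_antisymm hle (le_natDegree_of_ne_zero ?_)
    rw [hcoeff]
    exact C_ne_zero.2 hc
  rw [leadingCoeff, hdeg, hcoeff]

theorem p02_coeff_one (e : ℕ) (he : 2 ≤ e) (f : K[X][X]) :
    ((p02_phi K e f).coeff 1).coeff 0 = (f.coeff 1).coeff 0 := by
  have h1 : ∀ p : K[X][X], (p.coeff 1).coeff 0 = (p.map (evalRingHom 0)).coeff 1 := by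
    intro p
    rw [coeff_map, coe_evalRingHom, coeff_zero_eq_eval_zero]
  rw [h1]
  have h2 : (mapRingHom (evalRingHom (0 : K))).comp (p02_phi K e) =
      eval₂RingHom ((expand K e : K[X] →ₐ[K] K[X]) : K[X] →+* K[X]) (X : K[X]) := by
    apply Polynomial.ringHom_ext
    · intro a
      have h3 : ((mapRingHom (evalRingHom (0 : K))).comp (p02_phi K e)).comp C =
          (eval₂RingHom ((expand K e : K[X] →ₐ[K] K[X]) : K[X] →+* K[X]) (X : K[X])).comp C := by
        apply Polynomial.ringHom_ext
        · intro b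
          simp [p02_phi, p02_iota]
        · simp [p02_phi, p02_iota]
      exact congrArg (fun F : K[X] →+* K[X] => F a) h3
    · simp [p02_phi]
  have h4 : (p02_phi K e f).map (evalRingHom 0) =
      f.eval₂ ((expand K e : K[X] →ₐ[K] K[X]) : K[X] →+* K[X]) (X : K[X]) :=
    congrArg (fun F : K[X][X] →+* K[X] => F f) h2
  rw [h4, eval₂_eq_sum, Polynomial.sum_def, finset_sum_coeff]
  have h5 : ∀ j ∈ f.support,
      (((expand K e : K[X] →ₐ[K] K[X]) : K[X] →+* K[X]) (f.coeff j) * X ^ j).coeff 1 =
        if j = 1 then (f.coeff 1).coeff 0 else 0 := by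
    intro j _
    rw [RingHom.coe_coe, coeff_mul_X_pow']
    rcases Nat.lt_or_ge 1 j with hj | hj
    · rw [if_neg (by omega), if_neg (by omega)]
    · rw [if_pos hj, coeff_expand (by omega)]
      interval_cases j
      · rw [if_neg, if_neg (by omega)]
        intro h
        have := Nat.le_of_dvd (by norm_num) h
        omega
      · simp
  rw [Finset.sum_congr rfl h5, Finset.sum_ite_eq']
  by_cases hm : 1 ∈ f.support
  · rw [if_pos hm]
  · rw [if_neg hm, notMem_support_iff.1 hm, coeff_zero]

theorem p02_map_ne_zero (f : K[X][X]) (hirr : Irreducible f) (hd : 0 < f.natDegree) (x : K) :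
    f.map (evalRingHom x) ≠ 0 := by
  intro h0
  have h1 : C (X - C x) ∣ f := by
    rw [C_dvd_iff_dvd_coeff]
    intro i
    rw [dvd_iff_isRoot, IsRoot]
    have h2 : (f.map (evalRingHom x)).coeff i = 0 := by rw [h0, coeff_zero]
    rwa [coeff_map, coe_evalRingHom] at h2
  obtain ⟨h, hh⟩ := h1
  rcases hirr.isUnit_or_isUnit hh with h3 | h3
  · have h4 : IsUnit (X - C x) := isUnit_C.1 h3
    exact not_isUnit_X_sub_C x h4
  · have h5 : h.natDegree = 0 := natDegree_eq_zero_of_isUnit h3
    rw [hh] at hd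
    have h6 := natDegree_C_mul_le (X - C x) h
    omega

theorem data_of_monic [Infinite K]
    (hD : ∀ (f : K[X][X]) (n : ℕ), Irreducible f → f.Monic → f.natDegree = n + 1 → 1 ≤ n →
      (f.coeff 0).coeff 0 = 0 → (f.coeff 1).coeff 0 ≠ 0 →
      {x : K | ∃ y : K, (f.map (evalRingHom x)).eval y = 0}.Infinite) : Data K := by
  intro f n hirr hdeg hn h0 h1
  set e := n + 2 with he
  have hf0 : f ≠ 0 := hirr.ne_zero
  obtain ⟨c, hc, hlead⟩ := p02_lead e f hf0 (by omega)
  have k0 : ((p02_phi K e f).coeff 0).coeff 0 = 0 := by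
    rw [p02_coeff_zero, p02_phi_eval, zero_pow (by omega), add_zero, ← p02_coeff_zero]
    exact h0
  have k1 : ((p02_phi K e f).coeff 1).coeff 0 ≠ 0 := by
    rw [p02_coeff_one e (by omega)]
    exact h1
  obtain ⟨g, hg, ⟨v, hv⟩, hg0, hg1⟩ := exists_factor (p02_phi K e f) k0 k1
  -- make it monic
  have hlu : IsUnit g.leadingCoeff := by
    have h2 : (p02_phi K e f).leadingCoeff = g.leadingCoeff * v.leadingCoeff := by
      rw [hv, leadingCoeff_mul]
    rw [hlead] at h2
    have h3 : IsUnit (g.leadingCoeff * v.leadingCoeff) := by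
      rw [← h2]
      exact isUnit_C.2 (isUnit_iff_ne_zero.2 hc)
    exact isUnit_of_mul_isUnit_left h3
  obtain ⟨d, hd, hdg⟩ := isUnit_iff.1 hlu
  have hd0 : d ≠ 0 := hd.ne_zero
  set g' : K[X][X] := C (C d⁻¹) * g with hg'
  have hunit : IsUnit (C (C d⁻¹) : K[X][X]) :=
    isUnit_C.2 (isUnit_C.2 (isUnit_iff_ne_zero.2 (inv_ne_zero hd0)))
  have hg'irr : Irreducible g' := (irreducible_isUnit_mul hunit).2 hg
  have hg'monic : g'.Monic := by
    rw [Monic, hg', leadingCoeff_mul, leadingCoeff_C, ← hdg, ← C_mul, inv_mul_cancel₀ hd0, C_1]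
  have hg'0 : (g'.coeff 0).coeff 0 = 0 := by
    rw [hg', coeff_C_mul, coeff_C_mul, hg0, mul_zero]
  have hg'1 : (g'.coeff 1).coeff 0 ≠ 0 := by
    rw [hg', coeff_C_mul, coeff_C_mul]
    exact mul_ne_zero (inv_ne_zero hd0) hg1
  have hg'deg : g'.natDegree ≠ 0 := by
    intro h
    apply hg'1
    have h2 : g'.coeff 1 = 0 := coeff_eq_zero_of_natDegree_lt (by omega)
    rw [h2, coeff_zero]
  have hinf : {x : K | ∃ y : K, (g'.map (evalRingHom x)).eval y = 0}.Infinite := by
    by_cases h : g'.natDegree = 1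
    · exact infinite_linear g' h
    · exact hD g' (g'.natDegree - 1) hg'irr hg'monic (by omega) (by omega) hg'0 hg'1
  -- points of the original curve
  have hpt : ∀ x y : K, (g'.map (evalRingHom x)).eval y = 0 →
      (f.map (evalRingHom (x + y ^ e))).eval y = 0 := by
    intro x y hxy
    rw [eval_map_eq] at hxy ⊢
    rw [← p02_phi_eval, hv, eval_mul, eval_mul]
    have h2 : (g.eval (C y)).eval x = 0 := by
      rw [hg', eval_mul, eval_C, eval_mul, eval_C] at hxy
      exact (mul_eq_zero.1 hxy).resolve_left (inv_ne_zero hd0)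
    rw [h2, zero_mul]
  intro hfin
  apply hinf
  have hfin2 : ({q : K × K | (f.map (evalRingHom q.1)).eval q.2 = 0}).Finite := by
    have h2 : {q : K × K | (f.map (evalRingHom q.1)).eval q.2 = 0} ⊆
        ⋃ x ∈ {x : K | ∃ y : K, (f.map (evalRingHom x)).eval y = 0},
          (fun y : K => (x, y)) '' {y : K | (f.map (evalRingHom x)).IsRoot y} := by
      rintro ⟨x, y⟩ hq
      simp only [Set.mem_iUnion]
      exact ⟨x, ⟨y, hq⟩, y, hq, rfl⟩
    refine Set.Finite.subset ?_ h2
    refine Set.Finite.biUnion hfin fun x _ => ?_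
    exact (finite_setOfPred_isRoot (p02_map_ne_zero f hirr (by omega) x)).image _
  refine (hfin2.image fun q : K × K => q.1 - q.2 ^ e).subset ?_
  rintro x ⟨y, hy⟩
  refine ⟨(x + y ^ e, y), hpt x y hy, ?_⟩
  simp

end Pool.Agent.Helper51.HN
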