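import Pool.Agent.Helper51.HN.Defs

set_option autoImplicit false

/-!
HN-P03: products of sections, reduced modulo `f`.

Proof of `Wt.mul_mod`: first show the statement without degree bound: for polynomials `h`, `h'` with
`h.coeff j ≠ 0 → natDegree + j A ≤ i` (same for `h'`, `i'`), the product satisfies the bound `i + i'`,
and the remainder modulo the monic `f` keeps the bound (induction on the degree: subtract
`C c * X ^ m * f` where `c` is the leading coefficient, `m + n + 1` the degree; this term satisfies the
bound since `natDegree c + (m + n + 1) A ≤ i + i'` and `f` has weight `(n + 1) A`).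
`Rs.mul_mod`: `h h' = f q + r`, and `f.map ps = (X - C y) g` is a multiple of `g`.
`ev`: `ev` is a ring homomorphism (value at the origin) and `ev f = 0` by `fac` and `y0`.
-/

namespace Pool.Agent.Helper51.HN

open Polynomial

variable {K : Type*} [Field K]

/-- weight bound without degree bound -/
def p03_Bd {K : Type*} [Field K] (A i : ℕ) (h : K[X][X]) : Prop :=
  ∀ j, h.coeff j ≠ 0 → (h.coeff j).natDegree + j * A ≤ i

theorem p03_mul {A i i' : ℕ} {h h' : K[X][X]} (H : p03_Bd A i h) (H' : p03_Bd A i' h') :
    p03_Bd A (i + i') (h * h') := by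
  intro j hj
  rw [coeff_mul] at hj ⊢
  have key : ∀ x ∈ Finset.HasAntidiagonal.antidiagonal j, h.coeff x.1 * h'.coeff x.2 ≠ 0 →
      (h.coeff x.1 * h'.coeff x.2).natDegree + j * A ≤ i + i' := by
    intro x hx hne
    have h1 := H x.1 (left_ne_zero_of_mul hne)
    have h2 := H' x.2 (right_ne_zero_of_mul hne)
    have h3 : (h.coeff x.1 * h'.coeff x.2).natDegree
        ≤ (h.coeff x.1).natDegree + (h'.coeff x.2).natDegree := natDegree_mul_le
    have h4 : x.1 + x.2 = j := Finset.HasAntidiagonal.mem_antidiagonal.1 hx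
    rw [← h4, add_mul]
    omega
  obtain ⟨x0, hx0, hne0⟩ := Finset.exists_ne_zero_of_sum_ne_zero hj
  have hj' : j * A ≤ i + i' := le_trans (Nat.le_add_left _ _) (key x0 hx0 hne0)
  have h5 : (∑ x ∈ Finset.HasAntidiagonal.antidiagonal j, h.coeff x.1 * h'.coeff x.2).natDegree
      ≤ i + i' - j * A := by
    refine natDegree_sum_le_of_forall_le _ _ (fun x hx => ?_)
    by_cases hz : h.coeff x.1 * h'.coeff x.2 = 0
    · rw [hz]
      simp
    · have := key x hx hz
      omega
  omega

theorem p03_mod {f : K[X][X]} {n A i : ℕ} (hm : f.Monic) (hf : f.natDegree = n + 1)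
    (hw : ∀ j, f.coeff j ≠ 0 → (f.coeff j).natDegree + j * A ≤ (n + 1) * A) :
    ∀ (N : ℕ) (h : K[X][X]), h.natDegree < N → p03_Bd A i h → p03_Bd A i (h %ₘ f) := by
  intro N
  induction N with
  | zero => intro h hN; omega
  | succ N ih =>
    intro h hN H
    by_cases hd : h.natDegree < f.natDegree
    · rw [(modByMonic_eq_self_iff hm).2 (degree_lt_degree hd)]
      exact H
    · push Not at hd
      have h0 : h ≠ 0 := by
        rintro rfl
        rw [natDegree_zero] at hd
        omega
      set m := h.natDegree - f.natDegree with hmdef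
      set t : K[X][X] := C h.leadingCoeff * X ^ m * f with ht
      have hle : h.natDegree = m + (n + 1) := by omega
      have hsub : (h - t).natDegree < h.natDegree := by
        have h1 : (h - t).degree < h.degree := by
          refine degree_sub_lt_left ?_ h0 ?_
          · rw [ht, degree_mul, degree_C_mul_X_pow _ (leadingCoeff_ne_zero.2 h0),
              degree_eq_natDegree hm.ne_zero, degree_eq_natDegree h0, ← Nat.cast_add, hle, hf]
          · rw [ht, leadingCoeff_mul, leadingCoeff_C_mul_X_pow, hm.leadingCoeff, mul_one]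
        by_cases hz : h - t = 0
        · rw [hz, natDegree_zero]
          omega
        · exact natDegree_lt_natDegree hz h1
      have hmod : h %ₘ f = (h - t) %ₘ f := by
        rw [sub_modByMonic]
        have : t %ₘ f = 0 := by
          rw [ht]
          exact (modByMonic_eq_zero_iff_dvd hm).2 (Dvd.intro_left _ rfl)
        rw [this, sub_zero]
      rw [hmod]
      refine ih _ (by omega) ?_
      have Ht : p03_Bd A i t := by
        intro j hj
        rw [ht, mul_assoc, coeff_C_mul, coeff_X_pow_mul'] at hj ⊢
        by_cases hjm : m ≤ j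
        · rw [if_pos hjm] at hj ⊢
          have h1 := hw (j - m) (right_ne_zero_of_mul hj)
          have h2 := H h.natDegree (leadingCoeff_ne_zero.2 h0)
          have h3 : (h.leadingCoeff * f.coeff (j - m)).natDegree
              ≤ h.leadingCoeff.natDegree + (f.coeff (j - m)).natDegree := natDegree_mul_le
          have h4 : j * A = (j - m) * A + m * A := by
            rw [← add_mul]
            congr 1
            omega
          have h5 : h.natDegree * A = m * A + (n + 1) * A := by rw [hle, add_mul]
          change h.leadingCoeff.natDegree + h.natDegree * A ≤ i at h2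
          omega
        · rw [if_neg hjm, mul_zero] at hj
          exact absurd rfl hj
      intro j hj
      rw [coeff_sub] at hj ⊢
      by_cases e1 : h.coeff j = 0
      · rw [e1, zero_sub] at hj ⊢
        rw [natDegree_neg]
        exact Ht j (neg_ne_zero.1 hj)
      by_cases e2 : t.coeff j = 0
      · rw [e2, sub_zero]
        exact H j e1
      have e3 := H j e1
      have e4 := Ht j e2
      have e5 := natDegree_sub_le (h.coeff j) (t.coeff j)
      rcases max_cases (h.coeff j).natDegree (t.coeff j).natDegree with h6 | h6 <;> omega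

theorem Wt.mul_mod {f : K[X][X]} {n A i i' : ℕ} (hm : f.Monic) (hf : f.natDegree = n + 1)
    (hw : ∀ j, f.coeff j ≠ 0 → (f.coeff j).natDegree + j * A ≤ (n + 1) * A)
    {h h' : K[X][X]} (H : Wt n A i h) (H' : Wt n A i' h') : Wt n A (i + i') ((h * h') %ₘ f) := by
  refine ⟨?_, p03_mod hm hf hw _ _ (Nat.lt_succ_self _) (p03_mul H.coeff H'.coeff)⟩
  have h1 : ((h * h') %ₘ f).natDegree < f.natDegree :=
    natDegree_modByMonic_lt _ hm (fun h1 => by rw [h1, natDegree_one] at hf; omega)
  omega

theorem Rs.mul_mod {f : K[X][X]} {n A : ℕ} {y : PowerSeries K} {g : (PowerSeries K)[X]}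
    (hC : Crv f n A y g) {i i' : ℕ} {h h' : K[X][X]} (H : Rs g i h) (H' : Rs g i' h') :
    Rs g (i + i') ((h * h') %ₘ f) := by
  obtain ⟨r, s, e⟩ := H
  obtain ⟨r', s', e'⟩ := H'
  refine ⟨r * r', C (PowerSeries.X ^ i) * r * s' + s * (h'.map ps)
    - (X - C y) * ((h * h') /ₘ f).map ps, ?_⟩
  have h1 : (h * h') %ₘ f = h * h' - f * ((h * h') /ₘ f) := by
    rw [eq_sub_iff_add_eq]
    exact modByMonic_add_div _ f
  rw [h1, Polynomial.map_sub, Polynomial.map_mul, Polynomial.map_mul, hC.fac, e, pow_add, C_mul]
  have h2 : (C (PowerSeries.X ^ i) * r + g * s) * h'.map ps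
      = C (PowerSeries.X ^ i) * r * (C (PowerSeries.X ^ i') * r' + g * s') + g * s * h'.map ps := by
    rw [← e', add_mul]
  rw [h2]
  ring

theorem ev_mul_mod {f : K[X][X]} {n A : ℕ} {y : PowerSeries K} {g : (PowerSeries K)[X]}
    (hC : Crv f n A y g) (h h' : K[X][X]) : ev ((h * h') %ₘ f) = ev h * ev h' := by
  have h1 : (h * h') %ₘ f = h * h' - f * ((h * h') /ₘ f) := by
    rw [eq_sub_iff_add_eq]
    exact modByMonic_add_div _ f
  have hmul : ∀ p q : K[X][X], ev (p * q) = ev p * ev q := by
    intro p q
    unfold ev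
    rw [mul_coeff_zero, mul_coeff_zero]
  have hf0 : ev f = 0 := by
    have h2 : (f.map ps).coeff 0 = ((X - C y) * g).coeff 0 := by rw [hC.fac]
    rw [coeff_map, mul_coeff_zero] at h2
    have h3 : PowerSeries.constantCoeff (ps (f.coeff 0)) = (f.coeff 0).coeff 0 := by
      simp
    have h4 := congrArg PowerSeries.constantCoeff h2
    rw [h3, map_mul] at h4
    have h5 : PowerSeries.constantCoeff (((X - C y : (PowerSeries K)[X])).coeff 0) = 0 := by
      simp [hC.y0]
    rw [h5, zero_mul] at h4
    exact h4
  rw [h1]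
  have h6 : ev (h * h' - f * ((h * h') /ₘ f)) = ev (h * h') - ev (f * ((h * h') /ₘ f)) := by
    unfold ev
    rw [coeff_sub, coeff_sub]
  rw [h6, hmul, hmul, hf0, zero_mul, sub_zero]

theorem InW.mul_mod {f : K[X][X]} {n A : ℕ} {y : PowerSeries K} {g : (PowerSeries K)[X]}
    (hC : Crv f n A y g) {i i' : ℕ} {h h' : K[X][X]} (H : InW n A g i h) (H' : InW n A g i' h') :
    InW n A g (i + i') ((h * h') %ₘ f) :=
  ⟨H.1.mul_mod hC.monic hC.deg hC.wt H'.1, H.2.mul_mod hC H'.2⟩

end Pool.Agent.Helper51.HN
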