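import Pool.Agent.Helper51.HN.Defs

set_option autoImplicit false

/-!
HN-P05: sections vanishing at `P` are divisible by `X`.

Proof. Reduce `h.map ps = X^(i+1) r + g s` modulo `X` (map by `PowerSeries.constantCoeff`):
`h₀ = g₀ s₀` in `K[Y]` with `h₀ = h(0, Y)` of degree `≤ n`, `g₀` monic of degree `n`, so `s₀` is a
constant; `ev h = 0` gives `g₀(0) s₀ = 0`, hence `s₀ = 0` and `h₀ = 0`: all coefficients of `h` are
divisible by `X`, `h = C X * h'`. The weight of `h'` is `≤ i`. For `Rs`: `s` has all coefficients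
divisible by `X` (`s₀ = 0` as polynomial: from `h₀ = 0 = g₀ s₀`), `s = C X * s'`, cancel `X` in
`C X * h'.map ps = C X * (C X^i * r + g * s')`.
-/

namespace Pool.Agent.Helper51.HN

open Polynomial

variable {K : Type*} [Field K]

theorem p05_cc (a : K[X]) : PowerSeries.constantCoeff (ps a) = a.coeff 0 := by
  show PowerSeries.constantCoeff (a : PowerSeries K) = a.coeff 0
  rw [← PowerSeries.coeff_zero_eq_constantCoeff_apply, Polynomial.coeff_coe]

theorem p05_X : ps (X : K[X]) = PowerSeries.X := Polynomial.coe_X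

theorem InW.div_X {f : K[X][X]} {n A : ℕ} {y : PowerSeries K} {g : (PowerSeries K)[X]}
    (hC : Crv f n A y g) {i : ℕ} {h : K[X][X]} (H : InW n A g (i + 1) h) (h0 : ev h = 0) :
    ∃ h' : K[X][X], InW n A g i h' ∧ h = C X * h' := by
  obtain ⟨hW, r, s, e⟩ := H
  let φ : PowerSeries K →+* K := PowerSeries.constantCoeff
  have e1 : (h.map ps).map φ = g.map φ * s.map φ := by
    rw [e, Polynomial.map_add, Polynomial.map_mul, Polynomial.map_mul, Polynomial.map_C]
    have : φ (PowerSeries.X ^ (i + 1)) = 0 := by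
      show PowerSeries.constantCoeff (PowerSeries.X ^ (i + 1)) = 0
      rw [map_pow, PowerSeries.constantCoeff_X, zero_pow (Nat.succ_ne_zero i)]
    rw [this, C_0, zero_mul, zero_add]
  have hg0 : (g.map φ).Monic := hC.gmonic.map φ
  have hgd : (g.map φ).natDegree = n := by
    rw [hC.gmonic.natDegree_map, hC.gdeg]
  have hs0 : s.map φ = 0 := by
    by_contra hne
    have h1 : (g.map φ * s.map φ).natDegree = n + (s.map φ).natDegree := by
      rw [hg0.natDegree_mul' hne, hgd]
    have h2 : ((h.map ps).map φ).natDegree ≤ n :=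
      (natDegree_map_le).trans ((natDegree_map_le).trans hW.deg)
    rw [e1, h1] at h2
    have h3 : (s.map φ).natDegree = 0 := by omega
    obtain ⟨a, ha⟩ := natDegree_eq_zero.1 h3
    have h4 : ((h.map ps).map φ).coeff 0 = 0 := by
      rw [coeff_map, coeff_map]
      show PowerSeries.constantCoeff (ps (h.coeff 0)) = 0
      rw [p05_cc]
      exact h0
    rw [e1, mul_coeff_zero, ← ha, coeff_C_zero, coeff_map] at h4
    rcases mul_eq_zero.1 h4 with h5 | h5
    · exact hC.g0 h5
    · apply hne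
      rw [← ha, h5, C_0]
  rw [hs0, mul_zero] at e1
  have hdvd : C X ∣ h := by
    rw [C_dvd_iff_dvd_coeff]
    intro j
    rw [X_dvd_iff, ← p05_cc]
    have h1 : ((h.map ps).map φ).coeff j = 0 := by rw [e1, coeff_zero]
    rw [coeff_map, coeff_map] at h1
    exact h1
  have hsd : C (PowerSeries.X : PowerSeries K) ∣ s := by
    rw [C_dvd_iff_dvd_coeff]
    intro j
    rw [PowerSeries.X_dvd_iff]
    have h1 : (s.map φ).coeff j = 0 := by rw [hs0, coeff_zero]
    rw [coeff_map] at h1
    exact h1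
  obtain ⟨h', rfl⟩ := hdvd
  obtain ⟨s', rfl⟩ := hsd
  have hX : (X : K[X]) ≠ 0 := X_ne_zero
  refine ⟨h', ⟨⟨?_, ?_⟩, ⟨r, s', ?_⟩⟩, rfl⟩
  · have h1 := hW.deg
    rwa [natDegree_C_mul hX] at h1
  · intro j hj
    have h1 := hW.coeff j (by
      rw [coeff_C_mul]
      exact mul_ne_zero hX hj)
    rw [coeff_C_mul, natDegree_mul hX hj, natDegree_X] at h1
    omega
  · rw [Polynomial.map_mul, Polynomial.map_C, p05_X] at e
    have hC0 : C (PowerSeries.X : PowerSeries K) ≠ 0 := by
      rw [Ne, C_eq_zero]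
      exact PowerSeries.X_ne_zero
    apply mul_left_cancel₀ hC0
    rw [e, pow_succ, C_mul]
    ring

end Pool.Agent.Helper51.HN
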