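import Pool.Agent.Helper51.HN.Defs

set_option autoImplicit false

/-!
HN-P06: dimension of the space of sections with linear conditions.

Proof. The space of `h` with `Wt n A i h` is finite dimensional (it embeds in
`Fin (n + 1) → degreeLT K (i + 1)`), of dimension `≥ ∑_{j ≤ n} (i + 1 - j A)` (natural subtraction;
the image of the injective map `Π j : Fin (n + 1), degreeLT K (i + 1 - j * A) → K[X][X]`,
`(c_j) ↦ ∑ C c_j * X ^ j`, lies in it). `Rs g i h` is implied by the `n * i` linear conditions
`PowerSeries.coeff m (((h.map ps) %ₘ g).coeff j) = 0`, `m < i`, `j < n` (then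
`h.map ps = (rem) + g * (quot)` with all coefficients of the remainder divisible by `X ^ i`). Hence
`∑_{j ≤ n} (i + 1 - j A) ≤ finrank (W_i ⊓ ker φ) + n i + finrank E` and
`∑_{j ≤ n} (i + 1 - j A) + A n (n + 1) ≥ (n + 1) (i + 1)`.
-/

namespace Pool.Agent.Helper51.HN

open Polynomial Module

variable {K : Type*} [Field K]

/-- rank nullity on a submodule -/
theorem p06_rank {V F : Type*} [AddCommGroup V] [Module K V] [AddCommGroup F] [Module K F]
    [FiniteDimensional K F] (W : Submodule K V) [FiniteDimensional K W] (θ : V →ₗ[K] F) :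
    finrank K W ≤ finrank K ↥(W ⊓ LinearMap.ker θ) + finrank K F := by
  have h1 := LinearMap.finrank_range_add_finrank_ker (θ.domRestrict W)
  have h2 : finrank K (LinearMap.range (θ.domRestrict W)) ≤ finrank K F := Submodule.finrank_le _
  have h3 : finrank K (LinearMap.ker (θ.domRestrict W)) = finrank K ↥(W ⊓ LinearMap.ker θ) := by
    rw [← Submodule.map_comap_subtype, Submodule.finrank_map_subtype_eq]
    rfl
  omega

/-- the linear map `(c_j) ↦ ∑ C c_j * X ^ j` -/
noncomputable def p06L (K : Type*) [Field K] (n : ℕ) (d : Fin (n + 1) → ℕ) :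
    ((j : Fin (n + 1)) → degreeLT K (d j)) →ₗ[K] K[X][X] where
  toFun c := ∑ j : Fin (n + 1), monomial (j : ℕ) (c j : K[X])
  map_add' c c' := by
    simp only [Pi.add_apply, Submodule.coe_add, map_add, Finset.sum_add_distrib]
  map_smul' a c := by
    simp only [Pi.smul_apply, Submodule.coe_smul, RingHom.id_apply, Finset.smul_sum]
    refine Finset.sum_congr rfl fun j _ => ?_
    rw [smul_monomial]

theorem p06L_coeff (n : ℕ) (d : Fin (n + 1) → ℕ) (c : (j : Fin (n + 1)) → degreeLT K (d j))
    (j : Fin (n + 1)) : (p06L K n d c).coeff (j : ℕ) = (c j : K[X]) := by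
  show (∑ k : Fin (n + 1), monomial (k : ℕ) (c k : K[X])).coeff (j : ℕ) = _
  rw [finsetSum_coeff, Finset.sum_eq_single j]
  · rw [coeff_monomial, if_pos rfl]
  · intro b _ hb
    rw [coeff_monomial, if_neg (fun h => hb (Fin.ext h))]
  · intro h
    exact absurd (Finset.mem_univ j) h

theorem p06L_inj (n : ℕ) (d : Fin (n + 1) → ℕ) : Function.Injective (p06L K n d) := by
  intro c c' h
  funext j
  apply Subtype.ext
  rw [← p06L_coeff, ← p06L_coeff, h]

theorem p06L_finrank (n : ℕ) (d : Fin (n + 1) → ℕ) :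
    finrank K (LinearMap.range (p06L K n d)) = ∑ j, d j := by
  rw [LinearMap.finrank_range_of_inj (p06L_inj n d), finrank_pi_fintype]
  refine Finset.sum_congr rfl fun j _ => ?_
  rw [(degreeLTEquiv K (d j)).finrank_eq, finrank_fin_fun]

theorem p06_mem_range {n A i : ℕ} {h : K[X][X]} :
    h ∈ LinearMap.range (p06L K n fun j => i + 1 - (j : ℕ) * A) ↔ Wt n A i h := by
  constructor
  · rintro ⟨c, rfl⟩
    refine ⟨?_, fun j hj => ?_⟩
    · show (∑ k : Fin (n + 1), monomial (k : ℕ) (c k : K[X])).natDegree ≤ n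
      refine natDegree_sum_le_of_forall_le _ _ fun j _ => ?_
      exact (natDegree_monomial_le _).trans (Nat.lt_succ_iff.mp j.2)
    · have hjn : j < n + 1 := by
        by_contra hcon
        apply hj
        show (∑ k : Fin (n + 1), monomial (k : ℕ) (c k : K[X])).coeff j = 0
        rw [finsetSum_coeff]
        refine Finset.sum_eq_zero fun k _ => ?_
        rw [coeff_monomial, if_neg]
        have := k.2
        omega
      have h1 := p06L_coeff n _ c ⟨j, hjn⟩
      simp only at h1
      rw [h1] at hj ⊢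
      have h2 := (c ⟨j, hjn⟩).2
      rw [mem_degreeLT] at h2
      have h3 := (natDegree_lt_iff_degree_lt hj).mpr h2
      simp only at h3
      omega
  · intro H
    refine ⟨fun j => ⟨h.coeff j, ?_⟩, ?_⟩
    · rw [mem_degreeLT]
      by_cases h0 : h.coeff (j : ℕ) = 0
      · rw [h0, degree_zero]
        exact WithBot.bot_lt_coe _
      · rw [← natDegree_lt_iff_degree_lt h0]
        have := H.coeff _ h0
        omega
    · show (∑ k : Fin (n + 1), monomial (k : ℕ) (h.coeff (k : ℕ))) = h
      rw [Fin.sum_univ_eq_sum_range (fun k => monomial k (h.coeff k)) (n + 1)]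
      exact (as_sum_range' h (n + 1) (Nat.lt_succ_iff.mpr H.deg)).symm

/-- the conditions -/
noncomputable def p06psi (n i : ℕ) (g : (PowerSeries K)[X]) :
    K[X][X] →ₗ[K] (Fin n × Fin i → K) where
  toFun h := fun p => PowerSeries.coeff (p.2 : ℕ) (((h.map ps) %ₘ g).coeff (p.1 : ℕ))
  map_add' h h' := by
    funext p
    rw [Polynomial.map_add, add_modByMonic, coeff_add, map_add]
    rfl
  map_smul' a h := by
    funext p
    have h1 : (a • h).map ps = (PowerSeries.C a : PowerSeries K) • h.map ps := by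
      ext j m
      rw [coeff_map, coeff_smul, coeff_smul, coeff_map, smul_eq_mul]
      show PowerSeries.coeff m ((a • h.coeff j : K[X]) : PowerSeries K) = _
      rw [Polynomial.coeff_coe, Polynomial.coeff_smul, PowerSeries.coeff_C_mul, smul_eq_mul]
      show _ = a * PowerSeries.coeff m ((h.coeff j : K[X]) : PowerSeries K)
      rw [Polynomial.coeff_coe]
    rw [h1, smul_modByMonic, coeff_smul, smul_eq_mul, PowerSeries.coeff_C_mul]
    rfl

theorem p06_Rs {n i : ℕ} {g : (PowerSeries K)[X]} (hg : g.Monic) (hd : g.natDegree = n)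
    {h : K[X][X]} (hh : p06psi n i g h = 0) : Rs g i h := by
  have h1 : C ((PowerSeries.X : PowerSeries K) ^ i) ∣ (h.map ps) %ₘ g := by
    rw [C_dvd_iff_dvd_coeff]
    intro j
    by_cases hj : j < n
    · rw [PowerSeries.X_pow_dvd_iff]
      intro m hm
      have := congrFun hh (⟨j, hj⟩, ⟨m, hm⟩)
      exact this
    · have h2 : ((h.map ps) %ₘ g).coeff j = 0 := by
        by_cases hn : g = 1
        · rw [hn, modByMonic_one, coeff_zero]
        · apply coeff_eq_zero_of_natDegree_lt
          have := natDegree_modByMonic_lt (h.map ps) hg hn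
          omega
      rw [h2]
      exact dvd_zero _
  obtain ⟨r, hr⟩ := h1
  refine ⟨r, (h.map ps) /ₘ g, ?_⟩
  rw [← hr]
  exact (modByMonic_add_div (h.map ps) g).symm

theorem finrank_section {f : K[X][X]} {n A : ℕ} {y : PowerSeries K} {g : (PowerSeries K)[X]}
    (hC : Crv f n A y g) (i : ℕ) {E : Type*} [AddCommGroup E] [Module K E] [FiniteDimensional K E]
    (φ : K[X][X] →ₗ[K] E) :
    FiniteDimensional K (Wsub n A g i) ∧
      i + 1 ≤ finrank K ↥(Wsub n A g i ⊓ LinearMap.ker φ) + A * n * (n + 1) + finrank K E := by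
  set V : Submodule K K[X][X] := LinearMap.range (p06L K n fun j => i + 1 - (j : ℕ) * A) with hV
  have hVfin : FiniteDimensional K V := inferInstance
  have hWV : Wsub n A g i ≤ V := fun h hh => p06_mem_range.mpr hh.1
  have hWfin : FiniteDimensional K (Wsub n A g i) := Submodule.finiteDimensional_of_le hWV
  refine ⟨hWfin, ?_⟩
  have h1 := p06_rank V ((p06psi n i g).prod φ)
  have h2 : V ⊓ LinearMap.ker ((p06psi n i g).prod φ) ≤ Wsub n A g i ⊓ LinearMap.ker φ := by
    intro h hh
    obtain ⟨hh1, hh2⟩ := hh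
    have h3 : ((p06psi n i g).prod φ) h = 0 := hh2
    rw [LinearMap.prod_apply] at h3
    have h4 : p06psi n i g h = 0 := congrArg Prod.fst h3
    have h5 : φ h = 0 := congrArg Prod.snd h3
    exact ⟨⟨p06_mem_range.mp hh1, p06_Rs hC.gmonic hC.gdeg h4⟩, h5⟩
  have hWφ : FiniteDimensional K ↥(Wsub n A g i ⊓ LinearMap.ker φ) :=
    Submodule.finiteDimensional_of_le inf_le_left
  have h3 : finrank K ↥(V ⊓ LinearMap.ker ((p06psi n i g).prod φ)) ≤
      finrank K ↥(Wsub n A g i ⊓ LinearMap.ker φ) := Submodule.finrank_mono h2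
  have h4 : finrank K ((Fin n × Fin i → K) × E) = n * i + finrank K E := by
    rw [finrank_prod, finrank_fintype_fun_eq_card, Fintype.card_prod, Fintype.card_fin,
      Fintype.card_fin]
  have h5 : finrank K V = ∑ j : Fin (n + 1), (i + 1 - (j : ℕ) * A) := p06L_finrank n _
  have h6 : (n + 1) * (i + 1) ≤ (∑ j : Fin (n + 1), (i + 1 - (j : ℕ) * A)) + (n + 1) * (n * A) := by
    have h7 : ∑ _j : Fin (n + 1), (i + 1) ≤
        ∑ j : Fin (n + 1), ((i + 1 - (j : ℕ) * A) + n * A) := by
      refine Finset.sum_le_sum fun j _ => ?_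
      have : (j : ℕ) * A ≤ n * A := Nat.mul_le_mul_right _ (Nat.lt_succ_iff.mp j.2)
      omega
    have h70 : ∑ j : Fin (n + 1), ((i + 1 - (j : ℕ) * A) + n * A) =
        (∑ j : Fin (n + 1), (i + 1 - (j : ℕ) * A)) + (n + 1) * (n * A) := by
      rw [Finset.sum_add_distrib, Finset.sum_const, Finset.card_univ, Fintype.card_fin,
        smul_eq_mul]
    have h71 : ∑ _j : Fin (n + 1), (i + 1) = (n + 1) * (i + 1) := by
      rw [Finset.sum_const, Finset.card_univ, Fintype.card_fin, smul_eq_mul]
    rw [h70, h71] at h7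
    exact h7
  rw [h4, h5] at h1
  have h8 : (n + 1) * (n * A) = A * n * (n + 1) := by ring
  have h9 : (n + 1) * (i + 1) = n * i + n + i + 1 := by ring
  rw [h8, h9] at h6
  omega

end Pool.Agent.Helper51.HN
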