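import Pool.Agent.Helper51.HN.P05
import Pool.Agent.Helper51.HN.P06

set_option autoImplicit false

/-!
HN-P07: finitely many gaps.

Proof. Call `i` a gap if `ev h = 0` for all `h` with `InW n A g i h`. By `InW.div_X` the kernel of `ev` on
`W_(i+1)` is `X * W_i`, so `finrank W_(i+1) ≤ finrank W_i + 1`, and `≤ finrank W_i` if `i + 1` is a gap;
`finrank W_0 ≤ 1` (weight `≤ 0` and `A ≥ 1`: only constants). So
`finrank W_i + #{gaps ≤ i, ≥ 1} ≤ i + 1`, and with `finrank_section` (`E = PUnit` or `φ = 0` into a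
zero-dimensional space) the number of gaps `≤ i` is at most `A n (n + 1)` for every `i`: the set of gaps
is finite. For a non-gap scale `h` to get `ev h = 1`.

Second statement: for a linear map `φ : K[X][X] →ₗ[K] E` such that `φ (C X * h') = 0 → φ h' = 0`
(e.g. values at points with `X ≠ 0`) there is `j ≤ finrank E + A n (n + 1)` and `h` in `W_j ⊓ ker φ` with
`ev h ≠ 0`: otherwise, by `div_X`, `W_j ⊓ ker φ ≅ W_(j-1) ⊓ ker φ ≅ ... ≅ W_0 ⊓ ker φ`; and if also
`ev = 0` on `W_0 ⊓ ker φ` this space is `0` (constants), so `W_j ⊓ ker φ = 0` for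
`j = finrank E + A n (n + 1)`, contradicting `finrank_section`.
-/

namespace Pool.Agent.Helper51.HN

open Polynomial Module

variable {K : Type*} [Field K]

/-- the value at the origin as a linear map -/
noncomputable def p07_evL : K[X][X] →ₗ[K] K where
  toFun := ev
  map_add' := fun h h' => by simp [ev]
  map_smul' := fun c h => by simp [ev]

theorem p07_evL_apply (h : K[X][X]) : p07_evL h = ev h := rfl

/-- multiplication by `X` -/
noncomputable def p07_mu : K[X][X] →ₗ[K] K[X][X] := LinearMap.mulLeft K (C X)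

theorem p07_mu_apply (h : K[X][X]) : p07_mu h = C X * h := rfl

theorem p07_finrank_functional {V : Type*} [AddCommGroup V] [Module K V] (W : Submodule K V)
    [FiniteDimensional K W] (l : V →ₗ[K] K) :
    finrank K W ≤ finrank K ↥(W ⊓ LinearMap.ker l) + 1 := by
  have h1 := LinearMap.finrank_range_add_finrank_ker (l.domRestrict W)
  have h2 : finrank K (LinearMap.range (l.domRestrict W)) ≤ 1 := by
    have := Submodule.finrank_le (LinearMap.range (l.domRestrict W))
    rwa [finrank_self] at this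
  have h3 : finrank K (LinearMap.ker (l.domRestrict W)) = finrank K ↥(W ⊓ LinearMap.ker l) := by
    have h4 : Submodule.map W.subtype (LinearMap.ker (l.domRestrict W)) =
        W ⊓ LinearMap.ker l := by
      ext v
      constructor
      · rintro ⟨w, hw, rfl⟩
        exact ⟨w.2, hw⟩
      · rintro ⟨hv, hl⟩
        exact ⟨⟨v, hv⟩, hl, rfl⟩
    rw [← h4, Submodule.finrank_map_subtype_eq]
  omega

theorem p07_smul_mem {n A : ℕ} {g : (PowerSeries K)[X]} {i : ℕ} {h : K[X][X]} (H : InW n A g i h)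
    (c : K) : InW n A g i (c • h) := (Wsub n A g i).smul_mem c H

theorem p07_ev_smul (c : K) (h : K[X][X]) : ev (c • h) = c * ev h := by
  have := (p07_evL (K := K)).map_smul c h
  rwa [p07_evL_apply, p07_evL_apply, smul_eq_mul] at this

theorem exists_nongap {f : K[X][X]} {n A : ℕ} {y : PowerSeries K} {g : (PowerSeries K)[X]}
    (hC : Crv f n A y g) : ∃ J : ℕ, ∀ i, J < i → ∃ h, InW n A g i h ∧ ev h = 1 := by
  classical
  have hfin : ∀ i, FiniteDimensional K (Wsub n A g i) := fun i =>
    (finrank_section hC i (0 : K[X][X] →ₗ[K] PUnit)).1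
  have hsec : ∀ i, i + 1 ≤ finrank K (Wsub n A g i) + A * n * (n + 1) := by
    intro i
    have h := (finrank_section hC i (0 : K[X][X] →ₗ[K] PUnit)).2
    rw [LinearMap.ker_zero, inf_top_eq, finrank_zero_of_subsingleton (M := PUnit)] at h
    exact h
  have hker : ∀ i, Wsub n A g (i + 1) ⊓ LinearMap.ker p07_evL ≤
      (Wsub n A g i).map p07_mu := by
    rintro i h ⟨hW, h0⟩
    obtain ⟨h', hW', rfl⟩ := InW.div_X hC hW h0
    exact ⟨h', hW', rfl⟩
  have hk2 : ∀ i, finrank K ↥(Wsub n A g (i + 1) ⊓ LinearMap.ker (p07_evL (K := K))) ≤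
      finrank K (Wsub n A g i) := by
    intro i
    have := hfin i
    exact (Submodule.finrank_mono (hker i)).trans (Submodule.finrank_map_le _ _)
  have hstep : ∀ i, finrank K (Wsub n A g (i + 1)) ≤ finrank K (Wsub n A g i) + 1 := by
    intro i
    have := hfin (i + 1)
    exact (p07_finrank_functional (Wsub n A g (i + 1)) p07_evL).trans
      (Nat.add_le_add_right (hk2 i) 1)
  have hgap : ∀ i, (∀ h, InW n A g (i + 1) h → ev h = 0) →
      finrank K (Wsub n A g (i + 1)) ≤ finrank K (Wsub n A g i) := by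
    intro i hi
    have h1 : Wsub n A g (i + 1) ⊓ LinearMap.ker (p07_evL (K := K)) = Wsub n A g (i + 1) := by
      rw [inf_eq_left]
      intro h hh
      exact hi h hh
    have h2 := hk2 i
    rwa [h1] at h2
  let s : ℕ → ℕ := fun i => finrank K (Wsub n A g i) + A * n * (n + 1) - (i + 1)
  have hs1 : ∀ i, s (i + 1) ≤ s i := by
    intro i
    have h1 := hstep i
    have h2 := hsec i
    have h3 := hsec (i + 1)
    show finrank K (Wsub n A g (i + 1)) + A * n * (n + 1) - (i + 1 + 1) ≤
      finrank K (Wsub n A g i) + A * n * (n + 1) - (i + 1)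
    omega
  have hs2 : ∀ i, (∀ h, InW n A g (i + 1) h → ev h = 0) → s (i + 1) < s i := by
    intro i hi
    have h1 := hgap i hi
    have h3 := hsec (i + 1)
    show finrank K (Wsub n A g (i + 1)) + A * n * (n + 1) - (i + 1 + 1) <
      finrank K (Wsub n A g i) + A * n * (n + 1) - (i + 1)
    omega
  have hanti : Antitone s := antitone_nat_of_succ_le hs1
  obtain ⟨J, hJ⟩ : ∃ J, ∀ i, s J ≤ s i := by
    obtain ⟨m, ⟨J, rfl⟩, hm⟩ := WellFounded.has_min (wellFounded_lt (α := ℕ)) (Set.range s)
      ⟨s 0, 0, rfl⟩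
    exact ⟨J, fun i => not_lt.1 (hm (s i) ⟨i, rfl⟩)⟩
  refine ⟨J, fun i hi => ?_⟩
  obtain ⟨m, rfl⟩ : ∃ m, i = m + 1 := ⟨i - 1, by omega⟩
  by_contra hcon
  have hz : ∀ h, InW n A g (m + 1) h → ev h = 0 := by
    intro h hh
    by_contra hne
    refine hcon ⟨(ev h)⁻¹ • h, p07_smul_mem hh _, ?_⟩
    rw [p07_ev_smul, inv_mul_cancel₀ hne]
  have h1 := hs2 m hz
  have h2 := hJ (m + 1)
  have h3 := hanti (show J ≤ m by omega)
  omega

theorem p07_W0 {n A : ℕ} {g : (PowerSeries K)[X]} (hA : 1 ≤ A) {h : K[X][X]}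
    (H : InW n A g 0 h) (h0 : ev h = 0) : h = 0 := by
  ext1 j
  rw [coeff_zero]
  by_contra hne
  have h1 := H.1.coeff j hne
  have h2 : (h.coeff j).natDegree = 0 := by omega
  have h3 : j * A = 0 := by omega
  have h4 : j = 0 := by
    rcases Nat.mul_eq_zero.1 h3 with h5 | h5
    · exact h5
    · omega
  subst h4
  obtain ⟨a, ha⟩ := natDegree_eq_zero.1 h2
  apply hne
  have h5 : ev h = a := by
    show (h.coeff 0).coeff 0 = a
    rw [← ha, coeff_C_zero]
  rw [← ha, ← h5, h0, C_0]

theorem exists_nongap_ker {f : K[X][X]} {n A : ℕ} {y : PowerSeries K} {g : (PowerSeries K)[X]}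
    (hC : Crv f n A y g) {E : Type*} [AddCommGroup E] [Module K E] [FiniteDimensional K E]
    (φ : K[X][X] →ₗ[K] E) (hφ : ∀ h, φ (C X * h) = 0 → φ h = 0) :
    ∃ j ≤ finrank K E + A * n * (n + 1), ∃ h, InW n A g j h ∧ φ h = 0 ∧ ev h = 1 := by
  by_contra hcon
  have hz : ∀ j ≤ finrank K E + A * n * (n + 1), ∀ h, InW n A g j h → φ h = 0 → ev h = 0 := by
    intro j hj h hh hp
    by_contra hne
    refine hcon ⟨j, hj, (ev h)⁻¹ • h, p07_smul_mem hh _, ?_, ?_⟩
    · rw [map_smul, hp, smul_zero]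
    · rw [p07_ev_smul, inv_mul_cancel₀ hne]
  have hfin : ∀ i, FiniteDimensional K (Wsub n A g i) := fun i => (finrank_section hC i φ).1
  have hle : ∀ j, j ≤ finrank K E + A * n * (n + 1) →
      finrank K ↥(Wsub n A g j ⊓ LinearMap.ker φ) = 0 := by
    intro j
    induction j with
    | zero =>
      intro hj
      have h1 : Wsub n A g 0 ⊓ LinearMap.ker φ = ⊥ := by
        rw [eq_bot_iff]
        rintro h ⟨hW, hp⟩
        exact p07_W0 hC.hA hW (hz 0 hj h hW hp)
      rw [h1]
      exact finrank_bot K _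
    | succ j ih =>
      intro hj
      have ih' := ih (by omega)
      have := hfin j
      have : FiniteDimensional K ↥(Wsub n A g j ⊓ LinearMap.ker φ) :=
        Submodule.finiteDimensional_inf_left _ _
      have h1 : Wsub n A g (j + 1) ⊓ LinearMap.ker φ ≤
          (Wsub n A g j ⊓ LinearMap.ker φ).map p07_mu := by
        rintro h ⟨hW, hp⟩
        obtain ⟨h', hW', rfl⟩ := InW.div_X hC hW (hz (j + 1) hj h hW hp)
        exact ⟨h', ⟨hW', hφ h' hp⟩, rfl⟩
      have h2 := (Submodule.finrank_mono h1).trans (Submodule.finrank_map_le _ _)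
      omega
  have h1 := (finrank_section hC (finrank K E + A * n * (n + 1)) φ).2
  rw [hle _ le_rfl] at h1
  omega

end Pool.Agent.Helper51.HN
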