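import Pool.Agent.Helper51.HN.Defs

set_option autoImplicit false

/-!
HN-P08: the weighted degree of the norm.

Proof. Sylvester matrix (see `HI.natDegree_resultant_le` in `HI/Sylv.lean` for the unweighted version and
the shape of the entries of `Polynomial.sylvester`). In each nonzero term of the Leibniz expansion the
entry in row `m` and the column of `X^s f` is `f.coeff (m - s)`, of degree `≤ (n + 1 + s) A - m A`, and in
the column of `X^t h` it is `h.coeff (m - t)`, of degree `≤ i + t A - m A`. Adding over all columns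
(`0 ≤ s < n`, `0 ≤ t < n + 1`) and rows (`0 ≤ m < 2 n + 1`) the terms with `A` cancel and the sum is
`(n + 1) i`. (General lemma: if `M m c ≠ 0 → natDegree (M m c) + w m ≤ u c` then
`det M ≠ 0 → natDegree (det M) + ∑ w ≤ ∑ u`.)
-/

namespace Pool.Agent.Helper51.HN

open Polynomial

variable {K : Type*} [Field K]

theorem p08_det {ι : Type*} [Fintype ι] [DecidableEq ι] (M : Matrix ι ι K[X]) (w u : ι → ℕ)
    (D : ℕ) (hM : ∀ a b, M a b ≠ 0 → (M a b).natDegree + w a ≤ u b)
    (hD : ∑ b, u b ≤ D + ∑ a, w a) : M.det.natDegree ≤ D := by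
  rw [Matrix.det_apply']
  refine natDegree_sum_le_of_forall_le _ _ fun σ _ => ?_
  by_cases h0 : ∏ b, M (σ b) b = 0
  · rw [h0, mul_zero, natDegree_zero]
    exact Nat.zero_le _
  refine (natDegree_mul_le).trans ?_
  have h1 : ((Equiv.Perm.sign σ : ℤ) : K[X]).natDegree = 0 := natDegree_intCast _
  rw [h1, zero_add]
  have h2 : (∏ b, M (σ b) b).natDegree ≤ ∑ b, (M (σ b) b).natDegree := natDegree_prod_le _ _
  have h3 : ∑ b, ((M (σ b) b).natDegree + w (σ b)) ≤ ∑ b, u b :=
    Finset.sum_le_sum fun b _ => hM _ _ (Finset.prod_ne_zero_iff.1 h0 b (Finset.mem_univ b))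
  rw [Finset.sum_add_distrib, Equiv.sum_comp σ w] at h3
  omega

theorem natDegree_resultant_wt {f : K[X][X]} {n A i : ℕ} (hf : f.natDegree = n + 1)
    (hw : ∀ j, f.coeff j ≠ 0 → (f.coeff j).natDegree + j * A ≤ (n + 1) * A)
    {h : K[X][X]} (H : Wt n A i h) : (resultant f h (n + 1) n).natDegree ≤ (n + 1) * i := by
  have _ := hf
  rw [resultant]
  refine p08_det (sylvester f h (n + 1) n) (fun a => (a : ℕ) * A)
    (fun b => Fin.addCases (fun s : Fin (n + 1) => i + (s : ℕ) * A)
      (fun s : Fin n => (n + 1 + (s : ℕ)) * A) b) _ ?_ ?_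
  · intro a b
    refine Fin.addCases (fun s => ?_) (fun s => ?_) b
    · simp only [sylvester, Matrix.of_apply, Fin.addCases_left]
      split_ifs with hs
      · intro h0
        have h1 := H.coeff _ h0
        have h2 : ((a : ℕ) - (s : ℕ)) * A + (s : ℕ) * A = (a : ℕ) * A := by
          rw [← Nat.add_mul, Nat.sub_add_cancel hs.1]
        omega
      · exact fun h0 => absurd rfl h0
    · simp only [sylvester, Matrix.of_apply, Fin.addCases_right]
      split_ifs with hs
      · intro h0
        have h1 := hw _ h0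
        have h2 : ((a : ℕ) - (s : ℕ)) * A + (s : ℕ) * A = (a : ℕ) * A := by
          rw [← Nat.add_mul, Nat.sub_add_cancel hs.1]
        have h3 : (n + 1 + (s : ℕ)) * A = (n + 1) * A + (s : ℕ) * A := Nat.add_mul _ _ _
        omega
      · exact fun h0 => absurd rfl h0
  · have e1 : ∑ b : Fin (n + 1 + n), (Fin.addCases (fun s : Fin (n + 1) => i + (s : ℕ) * A)
        (fun s : Fin n => (n + 1 + (s : ℕ)) * A) b : ℕ) =
        ∑ s : Fin (n + 1), (i + (s : ℕ) * A) + ∑ s : Fin n, (n + 1 + (s : ℕ)) * A := by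
      rw [Fin.sum_univ_add]
      simp only [Fin.addCases_left, Fin.addCases_right]
    have e2 : ∑ a : Fin (n + 1 + n), (a : ℕ) * A =
        ∑ s : Fin (n + 1), (s : ℕ) * A + ∑ s : Fin n, (n + 1 + (s : ℕ)) * A := by
      rw [Fin.sum_univ_add]
      simp only [Fin.val_castAdd, Fin.val_natAdd]
    have e3 : ∑ s : Fin (n + 1), (i + (s : ℕ) * A) = (n + 1) * i + ∑ s : Fin (n + 1), (s : ℕ) * A := by
      rw [Finset.sum_add_distrib, Finset.sum_const, Finset.card_univ, Fintype.card_fin, smul_eq_mul]
    refine le_of_eq ?_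
    refine e1.trans ?_
    rw [e2, e3, add_assoc]

end Pool.Agent.Helper51.HN
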