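import Pool.Agent.Helper51.HN.Defs

set_option autoImplicit false

/-!
HN-P09: order of the norm at `X = 0`.

Proof. Over power series: `resultant f h (n+1) n`, mapped by `ps`, is
`(h.map ps).eval y * resultant g (h.map ps) n n` (`resultant_mul_left`, `resultant_X_sub_C_left`; compare
`HI.resultant_congr` in `HI/Loc.lean`). If `h.map ps = X^i r + g s` one may reduce `r` modulo `g`
(degree `< n`, or `≤ n`; then `g s` has degree `≤ n` too) and
`resultant g (X^i r + g s) n n = resultant g (X^i r) n n = X^(n i) resultant g r n n`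
(`resultant_add_mul_right`, `resultant_C_mul_right`). Divisibility by `X ^ m` of a polynomial can be
tested in power series. That is the first statement.

Second statement: let `w'` be the cofactor of `S`, nonzero at `0`. For
`Hδ = C X * S + C (C δ) * H` we get `Hδ = X^(k+1) (r_S + δ r_H) + g (…)` and its value at the branch is
`X S(y) + δ H(y)`, with constant coefficient `δ * ev H`. So the cofactor `w''` of `resultant f Hδ` has
constant coefficient `δ * ev H * c(δ)`, `c(δ) = ` constant coefficient of
`resultant g (r_S + δ r_H) n n`, a polynomial in `δ` (resultant over `K[δ]` of the reductions modulo `X`),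
with `c(0) ≠ 0` since `w'.coeff 0 = ev S * c(0) ≠ 0` (up to the same identification). `K` is infinite, so
some `δ ≠ 0` has `c(δ) ≠ 0`.
-/

namespace Pool.Agent.Helper51.HN

open Polynomial

variable {K : Type*} [Field K]

/-- reduction of the residual part to degree at most `n` -/
theorem p09_red {f : K[X][X]} {n A : ℕ} {y : PowerSeries K} {g : (PowerSeries K)[X]}
    (hC : Crv f n A y g) {i : ℕ} {h : K[X][X]} (H : InW n A g i h) :
    ∃ (r : (PowerSeries K)[X]) (c : PowerSeries K),
      h.map ps = C (PowerSeries.X ^ i) * r + g * C c := by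
  obtain ⟨r, s, e⟩ := H.2
  have hr := modByMonic_add_div r g
  set r' := r %ₘ g with hr'
  set q := r /ₘ g with hq
  have hr'n : r'.natDegree ≤ n := by
    have := natDegree_modByMonic_le r hC.gmonic
    rw [hC.gdeg] at this
    exact this
  set s' := s + C (PowerSeries.X ^ i) * q with hs'
  have e' : h.map ps = C (PowerSeries.X ^ i) * r' + g * s' := by
    rw [e, ← hr, hs']
    ring
  have hgs : (g * s').natDegree ≤ n := by
    have h1 : g * s' = h.map ps - C (PowerSeries.X ^ i) * r' := by
      rw [e']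
      ring
    rw [h1]
    refine (natDegree_sub_le _ _).trans (max_le (natDegree_map_le.trans H.1.deg) ?_)
    exact (natDegree_C_mul_le _ _).trans hr'n
  have hs0 : s'.natDegree = 0 := by
    by_cases h0 : s' = 0
    · rw [h0, natDegree_zero]
    rw [hC.gmonic.natDegree_mul' h0, hC.gdeg] at hgs
    omega
  refine ⟨r', s'.coeff 0, ?_⟩
  rw [← eq_C_of_natDegree_eq_zero hs0]
  exact e'

/-- the resultant over power series -/
theorem p09_res {f : K[X][X]} {n A : ℕ} {y : PowerSeries K} {g : (PowerSeries K)[X]}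
    (hC : Crv f n A y g) {i : ℕ} {h : K[X][X]} (hd : h.natDegree ≤ n) {r : (PowerSeries K)[X]}
    {c : PowerSeries K} (e : h.map ps = C (PowerSeries.X ^ i) * r + g * C c) :
    ps (resultant f h (n + 1) n) =
      PowerSeries.X ^ (n * i) * ((h.map ps).eval y * resultant g r n n) := by
  have hd' : (h.map ps).natDegree ≤ n := natDegree_map_le.trans hd
  rw [← resultant_map_map, hC.fac]
  have h2 := resultant_mul_left (X - C y) g (h.map ps) n hd'
  rw [natDegree_X_sub_C, hC.gdeg, resultant_X_sub_C_left _ _ _ hd', add_comm 1 n] at h2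
  rw [h2]
  have h3 : resultant g (h.map ps) n n = (PowerSeries.X ^ i) ^ n * resultant g r n n := by
    rw [e, resultant_add_mul_right _ _ _ _ _ (by simp) hC.gdeg.le, resultant_C_mul_right]
  rw [h3, ← pow_mul, mul_comm i n]
  ring

/-- divisibility by a power of `X` tested in power series -/
theorem p09_dvd {w : K[X]} {m : ℕ} (h : (PowerSeries.X : PowerSeries K) ^ m ∣ ps w) :
    X ^ m ∣ w := by
  rw [X_pow_dvd_iff]
  intro d hd
  have := (PowerSeries.X_pow_dvd_iff.1 h) d hd
  simpa [ps] using this

/-- the image of a multiple of a power of `X` -/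
theorem p09_ps_X_pow_mul (m : ℕ) (w : K[X]) :
    ps (X ^ m * w) = PowerSeries.X ^ m * ps w := by
  rw [map_mul, map_pow]
  congr 2
  exact Polynomial.coe_X

theorem p09_cc (w : K[X]) : PowerSeries.constantCoeff (ps w) = w.coeff 0 := by
  simp [ps]

/-- the value at the branch -/
theorem p09_eval {y : PowerSeries K} (hy : PowerSeries.constantCoeff y = 0) (h : K[X][X]) :
    PowerSeries.constantCoeff ((h.map ps).eval y) = ev h := by
  have h1 := Polynomial.hom_eval₂ (h.map ps) (RingHom.id _)
    (PowerSeries.constantCoeff (R := K)) y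
  rw [RingHom.comp_id, hy] at h1
  have h2 : (h.map ps).eval y = eval₂ (RingHom.id _) y (h.map ps) := rfl
  rw [h2, h1, eval₂_eq_eval_map, ← coeff_zero_eq_eval_zero, coeff_map, coeff_map, p09_cc]
  rfl

/-- the constant coefficient of the cofactor -/
theorem p09_coeff {f : K[X][X]} {n A : ℕ} {y : PowerSeries K} {g : (PowerSeries K)[X]}
    (hC : Crv f n A y g) {i : ℕ} {h : K[X][X]} (hd : h.natDegree ≤ n) {r : (PowerSeries K)[X]}
    {c : PowerSeries K} (e : h.map ps = C (PowerSeries.X ^ i) * r + g * C c) {w : K[X]}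
    (hw : resultant f h (n + 1) n = X ^ (n * i) * w) :
    w.coeff 0 = ev h * resultant (g.map (PowerSeries.constantCoeff (R := K)))
      (r.map (PowerSeries.constantCoeff (R := K))) n n := by
  have h1 := p09_res hC hd e
  rw [hw, p09_ps_X_pow_mul] at h1
  have h2 := mul_left_cancel₀ (pow_ne_zero _ PowerSeries.X_ne_zero) h1
  have h3 := congrArg (PowerSeries.constantCoeff (R := K)) h2
  rw [p09_cc, map_mul, p09_eval hC.y0, ← resultant_map_map] at h3
  exact h3

theorem pow_dvd_resultant {f : K[X][X]} {n A : ℕ} {y : PowerSeries K} {g : (PowerSeries K)[X]}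
    (hC : Crv f n A y g) {i : ℕ} {h : K[X][X]} (H : InW n A g i h) :
    X ^ (n * i) ∣ resultant f h (n + 1) n := by
  obtain ⟨r, c, e⟩ := p09_red hC H
  refine p09_dvd ?_
  rw [p09_res hC H.1.deg e]
  exact dvd_mul_right _ _

theorem coeff_zero_pencil [Infinite K] {f : K[X][X]} {n A : ℕ} {y : PowerSeries K}
    {g : (PowerSeries K)[X]} (hC : Crv f n A y g) {k : ℕ} {S H : K[X][X]} (hS : InW n A g k S)
    (hH : InW n A g (k + 1) H) (hH1 : ev H ≠ 0) (w' : K[X])
    (hw' : resultant f S (n + 1) n = X ^ (n * k) * w') (hw0 : w'.coeff 0 ≠ 0) :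
    ∃ δ : K, δ ≠ 0 ∧ ∀ w'' : K[X],
      resultant f (C X * S + C (C δ) * H) (n + 1) n = X ^ (n * (k + 1)) * w'' → w''.coeff 0 ≠ 0 := by
  obtain ⟨rS, cS, eS⟩ := p09_red hC hS
  obtain ⟨rH, cH, eH⟩ := p09_red hC hH
  set κ := PowerSeries.constantCoeff (R := K) with hκ
  have hS0 := p09_coeff hC hS.1.deg eS hw'
  set P : K[X] := resultant ((g.map κ).map C) ((rS.map κ).map C + C X * (rH.map κ).map C) n n
    with hP
  have hPe : ∀ δ : K, P.eval δ = resultant (g.map κ) (rS.map κ + C δ * rH.map κ) n n := by
    intro δ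
    have h1 : (evalRingHom δ) P = P.eval δ := rfl
    have h2 : ∀ p : K[X], (p.map (C : K →+* K[X])).map (evalRingHom δ) = p := by
      intro p
      have h3 : (evalRingHom δ).comp (C : K →+* K[X]) = RingHom.id K := by
        ext x
        simp
      rw [Polynomial.map_map, h3, Polynomial.map_id]
    rw [← h1, hP, ← resultant_map_map, Polynomial.map_add, Polynomial.map_mul, map_C,
      h2, h2, h2, coe_evalRingHom, eval_X]
  have hP0 : P.eval 0 ≠ 0 := by
    intro h0
    rw [hPe 0, C_0, zero_mul, add_zero] at h0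
    rw [h0, mul_zero] at hS0
    exact hw0 hS0
  have hPne : P ≠ 0 := by
    intro h0
    rw [h0, eval_zero] at hP0
    exact hP0 rfl
  have hXP : X * P ≠ 0 := mul_ne_zero X_ne_zero hPne
  obtain ⟨δ, hδ⟩ : ∃ δ : K, (X * P).eval δ ≠ 0 := by
    by_contra hcon
    push Not at hcon
    exact hXP (Polynomial.funext fun x => by rw [hcon x, eval_zero])
  rw [eval_mul, eval_X] at hδ
  have hδ0 : δ ≠ 0 := left_ne_zero_of_mul hδ
  have hPδ : P.eval δ ≠ 0 := right_ne_zero_of_mul hδ
  refine ⟨δ, hδ0, fun w'' hw'' => ?_⟩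
  have hpsX : ps (X : K[X]) = PowerSeries.X := Polynomial.coe_X
  have hpsC : ps (C δ : K[X]) = PowerSeries.C δ := Polynomial.coe_C δ
  have e : (C X * S + C (C δ) * H).map ps =
      C (PowerSeries.X ^ (k + 1)) * (rS + C (PowerSeries.C δ) * rH) +
        g * C (PowerSeries.X * cS + PowerSeries.C δ * cH) := by
    rw [Polynomial.map_add, Polynomial.map_mul, Polynomial.map_mul, map_C, map_C, eS, eH, hpsX,
      hpsC, pow_succ, C_mul, C_add, C_mul, C_mul]
    ring
  have hd : (C X * S + C (C δ) * H).natDegree ≤ n :=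
    (natDegree_add_le _ _).trans (max_le ((natDegree_C_mul_le _ _).trans hS.1.deg)
      ((natDegree_C_mul_le _ _).trans hH.1.deg))
  have h1 := p09_coeff hC hd e hw''
  have h2 : ev (C X * S + C (C δ) * H) = δ * ev H := by
    unfold ev
    rw [coeff_add, coeff_C_mul, coeff_C_mul, coeff_add, coeff_C_mul, mul_coeff_zero, coeff_X_zero,
      zero_mul, zero_add]
  rw [h1, h2, Polynomial.map_add, Polynomial.map_mul, map_C, PowerSeries.constantCoeff_C, ← hκ,
    ← hPe δ]
  exact mul_ne_zero (mul_ne_zero hδ0 hH1) hPδ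

end Pool.Agent.Helper51.HN
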