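import Pool.Agent.Helper51.HN.P08
import Pool.Agent.Helper51.HN.P09

set_option autoImplicit false

/-!
HN-P10: the family of sections with prescribed limit divisor.

Proof. Put `T = X^k + ∑_{J < i ≤ k} t_i X^(k-i)` (`t_i = T.coeff (k - i)`), and for `δ : K`
`S_δ = C (X^k) + ∑_{J < i ≤ k} C (C (t_i δ^i) * X^(k-i)) * h_i`; then `InW n A g k (S_δ)` (`Wt.smul`,
`Rs.smul`, `add`; `C (X^k)` has weight `k` and residual order `k`).

Let `φ_δ : K[X] →+* K[X]`, `X ↦ C δ * X` (`compRingHom (C δ * X)`), and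
`Σ_δ = C (X^k) + ∑ C (C t_i * X^(k-i)) * h_i.map φ_δ`. For all `δ`: `S_δ.map φ_δ = C (C δ ^ k) * Σ_δ`, so
`φ_δ (resultant f S_δ) = C (δ^k)^(n+1) * R_δ`, `R_δ = resultant (f.map φ_δ) Σ_δ (n+1) n`. `R_δ` is the
specialisation of a polynomial family: do the same construction over `K[δ]` (ring homomorphism
`K[X] → K[X][X]`, `X ↦ C X * X`, as in `HI.pencil` in `HI/Induct.lean`): `∃ R : K[X][X], ∀ δ,
R.map (evalRingHom δ) = R_δ`.
For `δ = 0`: `f.map φ_0 = Y g₀(Y)` (constant coefficients, `g₀ = g mod X`), and `h_i(0, Y) = g₀(Y)/g₀(0)`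
for `i ≥ 1` (degree `≤ n`, divisible by the monic `g₀` of degree `n` by `Rs`, value `1` at `Y = 0`), so
`R_0 = T(X) * resultant g₀ (C X^k) = T * X^(n k)` (value of `Σ_0` at `Y = 0` is `T`).
For `δ ≠ 0`: `X^(n k) ∣ resultant f S_δ` by `pow_dvd_resultant`, so `X^(n k) ∣ R_δ`. By `HI.dvd_family`
(`HI/Perturb.lean`) `R = X^(n k) * P` and `P.map (evalRingHom 0) = T`. For `δ ≠ 0`, with
`resultant f S_δ = X^(n k) * w'`: `φ_δ (w') = C (δ^k) * P_δ` (cancel `δ^(n k) X^(n k)`), and
`natDegree w' ≤ k` by `natDegree_resultant_wt`.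
-/

namespace Pool.Agent.Helper51.HN

open Polynomial

variable {K : Type*} [Field K]

/-- reduction of the residual condition modulo `X` -/
theorem p10_red {f : K[X][X]} {n A : ℕ} {y : PowerSeries K} {g : (PowerSeries K)[X]}
    (hC : Crv f n A y g) {i : ℕ} (hi : 1 ≤ i) {h : K[X][X]} (H : InW n A g i h) (h1 : ev h = 1) :
    ∃ c : K, h.map (evalRingHom 0) = C c * g.map (PowerSeries.constantCoeff (R := K)) ∧
      c * (g.map (PowerSeries.constantCoeff (R := K))).coeff 0 = 1 := by
  obtain ⟨r, s, e⟩ := H.2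
  set g₀ := g.map (PowerSeries.constantCoeff (R := K)) with hg₀
  have hcc : (PowerSeries.constantCoeff (R := K)).comp (ps : K[X] →+* PowerSeries K) =
      evalRingHom 0 := by
    ext x
    · simp [ps]
    · simp [ps]
  have h2 := congrArg (Polynomial.map (PowerSeries.constantCoeff (R := K))) e
  rw [Polynomial.map_map, hcc, Polynomial.map_add, Polynomial.map_mul, Polynomial.map_mul, map_C,
    map_pow, PowerSeries.constantCoeff_X, zero_pow (by omega), C_0, zero_mul, zero_add] at h2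
  set s₀ := s.map (PowerSeries.constantCoeff (R := K)) with hs₀
  have hgm : g₀.Monic := hC.gmonic.map _
  have hgd : g₀.natDegree = n := by
    rw [hg₀, hC.gmonic.natDegree_map, hC.gdeg]
  have hh0 : (h.map (evalRingHom 0)).coeff 0 = 1 := by
    rw [coeff_map, coe_evalRingHom, ← coeff_zero_eq_eval_zero]
    exact h1
  have hs0 : s₀ ≠ 0 := by
    intro h3
    rw [h2, h3, mul_zero, coeff_zero] at hh0
    exact zero_ne_one hh0
  have h3 : (h.map (evalRingHom 0)).natDegree ≤ n := natDegree_map_le.trans H.1.deg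
  rw [h2, hgm.natDegree_mul' hs0, hgd] at h3
  have h4 : s₀.natDegree = 0 := by omega
  obtain ⟨c, hc⟩ := natDegree_eq_zero.1 h4
  refine ⟨c, ?_, ?_⟩
  · rw [h2, ← hc, mul_comm]
  · have h5 := hh0
    rw [h2, ← hc, mul_comm, coeff_C_mul] at h5
    exact h5

theorem p10_f0 {f : K[X][X]} {n A : ℕ} {y : PowerSeries K} {g : (PowerSeries K)[X]}
    (hC : Crv f n A y g) : f.map (evalRingHom 0) =
      X * g.map (PowerSeries.constantCoeff (R := K)) := by
  have hcc : (PowerSeries.constantCoeff (R := K)).comp (ps : K[X] →+* PowerSeries K) =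
      evalRingHom 0 := by
    ext x
    · simp [ps]
    · simp [ps]
  have h2 := congrArg (Polynomial.map (PowerSeries.constantCoeff (R := K))) hC.fac
  rw [Polynomial.map_map, hcc, Polynomial.map_mul, Polynomial.map_sub, map_X, map_C, hC.y0, C_0,
    sub_zero] at h2
  exact h2

theorem p10_comp0 (p : K[X]) : compRingHom (C (0 : K) * X) p = C (evalRingHom 0 p) := by
  rw [coe_compRingHom_apply, C_0, zero_mul, comp_zero, coe_evalRingHom]

/-- the resultant at `δ = 0` -/
theorem p10_zero (g₀ : K[X]) (n k : ℕ) (hgm : g₀.Monic) (hgd : g₀.natDegree = n) (a : K[X]) :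
    resultant ((X * g₀).map C) (C (X ^ k) + C a * g₀.map C) (n + 1) n =
      X ^ (n * k) * (X ^ k + a * C (g₀.coeff 0)) := by
  set G := g₀.map (C : K →+* K[X]) with hG
  have hGm : G.Monic := hgm.map _
  have hGd : G.natDegree = n := by rw [hG, hgm.natDegree_map, hgd]
  set Q : K[X][X] := C (X ^ k) + C a * G with hQ
  have hQd : Q.natDegree ≤ n := by
    rw [hQ]
    refine (natDegree_add_le _ _).trans (max_le ?_ ?_)
    · rw [natDegree_C]
      exact Nat.zero_le _
    · exact (natDegree_C_mul_le _ _).trans hGd.le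
  have h1 : (X * g₀).map (C : K →+* K[X]) = X * G := by
    rw [Polynomial.map_mul, map_X]
  have h2 := resultant_mul_left X G Q n hQd
  rw [natDegree_X, hGd, add_comm 1 n] at h2
  rw [h1, h2]
  have h3 : resultant X Q 1 n = X ^ k + a * C (g₀.coeff 0) := by
    have h4 := resultant_X_sub_C_left Q n 0 hQd
    rw [C_0, sub_zero] at h4
    rw [h4, hQ, eval_add, eval_mul, eval_C, eval_C, ← coeff_zero_eq_eval_zero, hG, coeff_map]
  have h5 : resultant G Q n n = X ^ (n * k) := by
    have h6 : Q = C (X ^ k) + G * C a := by rw [hQ, mul_comm G]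
    rw [h6, resultant_add_mul_right _ _ _ _ _ (by rw [natDegree_C]; omega) hGd.le,
      resultant_C_right]
    have h7 : G.coeff n = 1 := by
      rw [← hGd]
      exact hGm
    rw [h7, one_pow, one_mul, ← pow_mul, mul_comm k n]
  rw [h3, h5, mul_comm]

theorem family_one [Infinite K] {f : K[X][X]} {n A : ℕ} {y : PowerSeries K}
    {g : (PowerSeries K)[X]} (hC : Crv f n A y g) (J : ℕ) (h : ℕ → K[X][X])
    (hh : ∀ i, J < i → InW n A g i (h i) ∧ ev (h i) = 1) (k : ℕ) (hk : J < k) (T : K[X])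
    (hT : T.Monic) (hTk : T.natDegree = k) (hgap : ∀ i, 1 ≤ i → i ≤ J → T.coeff (k - i) = 0) :
    ∃ P : K[X][X], P.map (evalRingHom 0) = T ∧ ∀ δ : K, δ ≠ 0 → ∃ (S : K[X][X]) (w' : K[X]),
      InW n A g k S ∧ resultant f S (n + 1) n = X ^ (n * k) * w' ∧ w'.natDegree ≤ k ∧
      w'.comp (C δ * X) = C (δ ^ k) * P.map (evalRingHom δ) := by
  classical
  have hTsum : X ^ k + ∑ i ∈ Finset.Ioc J k, C (T.coeff (k - i)) * X ^ (k - i) = T := by
    have h1 : T = ∑ i ∈ Finset.range (k + 1), C (T.coeff i) * X ^ i := by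
      conv_lhs => rw [T.as_sum_range_C_mul_X_pow, hTk]
    have h2 : ∑ i ∈ Finset.range (k + 1), C (T.coeff i) * X ^ i =
        ∑ i ∈ Finset.range (k + 1), C (T.coeff (k - i)) * X ^ (k - i) := by
      rw [← Finset.sum_range_reflect]
      apply Finset.sum_congr rfl
      intro i _
      rw [show k + 1 - 1 - i = k - i by omega]
    have h3 : ∑ i ∈ Finset.range (k + 1), C (T.coeff (k - i)) * X ^ (k - i) =
        X ^ k + ∑ i ∈ Finset.Ioc J k, C (T.coeff (k - i)) * X ^ (k - i) := by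
      rw [Finset.sum_range_succ']
      have h4 : C (T.coeff (k - 0)) * X ^ (k - 0) = (X : K[X]) ^ k := by
        have h5 : T.coeff k = 1 := by
          rw [← hTk]
          exact hT
        rw [Nat.sub_zero, h5, C_1, one_mul]
      rw [h4, add_comm]
      congr 1
      have h6 : ∑ i ∈ Finset.range k, C (T.coeff (k - (i + 1))) * X ^ (k - (i + 1)) =
          ∑ i ∈ Finset.Ioc 0 k, C (T.coeff (k - i)) * X ^ (k - i) := by
        rw [Finset.range_eq_Ico, Finset.sum_Ico_add' (fun i => C (T.coeff (k - i)) * X ^ (k - i)) 0 k 1]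
        rfl
      rw [h6]
      symm
      apply Finset.sum_subset
      · intro i hi
        rw [Finset.mem_Ioc] at hi ⊢
        omega
      · intro i hi hi'
        rw [Finset.mem_Ioc] at hi hi'
        rw [hgap i (by omega) (by omega), C_0, zero_mul]
    rw [← h3, ← h2, ← h1]
  -- the sections
  let S : K → K[X][X] := fun δ => C (X ^ k) + ∑ i ∈ Finset.Ioc J k,
    C (C (T.coeff (k - i) * δ ^ i) * X ^ (k - i)) * h i
  have hS : ∀ δ, InW n A g k (S δ) := by
    intro δ
    rw [← mem_Wsub]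
    refine Submodule.add_mem _ ?_ (Submodule.sum_mem _ fun i hi => ?_)
    · rw [mem_Wsub]
      have w1 : Wt n A 0 (1 : K[X][X]) := by
        refine ⟨by simp, fun j hj => ?_⟩
        rcases Nat.eq_zero_or_pos j with h0 | h0
        · subst h0
          rw [coeff_one_zero]
          simp
        · exact absurd (by rw [coeff_one, if_neg (by omega)]) hj
      have r1 : Rs g 0 (1 : K[X][X]) := ⟨1, 0, by simp⟩
      have h1 := w1.smul (X ^ k) (m := k) (by simp)
      have h2 := r1.smul (X ^ k) k dvd_rfl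
      rw [zero_add, mul_one] at h1 h2
      exact ⟨h1, h2⟩
    · rw [mem_Wsub]
      rw [Finset.mem_Ioc] at hi
      have h0 := (hh i hi.1).1
      have h1 := h0.1.smul (C (T.coeff (k - i) * δ ^ i) * X ^ (k - i)) (m := k - i)
        (natDegree_C_mul_X_pow_le _ _)
      have h2 := h0.2.smul (C (T.coeff (k - i) * δ ^ i) * X ^ (k - i)) (k - i)
        (dvd_mul_left _ _)
      rw [Nat.add_sub_cancel' hi.2] at h1 h2
      exact ⟨h1, h2⟩
  -- the substitution
  let φ : K → (K[X] →+* K[X]) := fun δ => compRingHom (C δ * X)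
  have hφX : ∀ δ, φ δ X = C δ * X := fun δ => by simp [φ]
  have hφC : ∀ δ a, φ δ (C a) = C a := fun δ a => by simp [φ]
  let Sg : K → K[X][X] := fun δ => C (X ^ k) + ∑ i ∈ Finset.Ioc J k,
    C (C (T.coeff (k - i)) * X ^ (k - i)) * (h i).map (φ δ)
  have hSg : ∀ δ, (S δ).map (φ δ) = C (C (δ ^ k)) * Sg δ := by
    intro δ
    simp only [S, Sg]
    rw [Polynomial.map_add, Polynomial.map_sum, map_C, mul_add, Finset.mul_sum]
    congr 1
    · rw [map_pow, hφX, mul_pow, ← C_pow, ← C_mul]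
    · apply Finset.sum_congr rfl
      intro i hi
      rw [Finset.mem_Ioc] at hi
      rw [Polynomial.map_mul, map_C, map_mul, hφC, map_pow, hφX, ← mul_assoc, ← C_mul, mul_pow,
        ← C_pow]
      congr 2
      have h1 : δ ^ k = δ ^ i * δ ^ (k - i) := by rw [← pow_add, Nat.add_sub_cancel' hi.2]
      rw [h1, C_mul, C_mul]
      ring
  have hR : ∀ δ, φ δ (resultant f (S δ) (n + 1) n) =
      C (δ ^ k) ^ (n + 1) * resultant (f.map (φ δ)) (Sg δ) (n + 1) n := by
    intro δ
    rw [← resultant_map_map, hSg, resultant_C_mul_right]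
  -- the family
  let ψ : K[X] →+* K[X][X] := eval₂RingHom ((C : K[X] →+* K[X][X]).comp C) (C X * X)
  have hψφ : ∀ δ, (mapRingHom (evalRingHom δ)).comp ψ = φ δ := by
    intro δ
    ext x
    · simp [ψ, φ]
    · simp [ψ, φ]
  obtain ⟨R, hRδ⟩ : ∃ R : K[X][X], ∀ δ, R.map (evalRingHom δ) =
      resultant (f.map (φ δ)) (Sg δ) (n + 1) n := by
    refine ⟨resultant (f.map ψ) (C (X ^ k) + ∑ i ∈ Finset.Ioc J k,
      C (C (C (T.coeff (k - i))) * X ^ (k - i)) * (h i).map ψ) (n + 1) n, fun δ => ?_⟩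
    have h2 : Polynomial.map (evalRingHom δ)
        (resultant (f.map ψ) (C (X ^ k) + ∑ i ∈ Finset.Ioc J k,
          C (C (C (T.coeff (k - i))) * X ^ (k - i)) * (h i).map ψ) (n + 1) n) =
        (mapRingHom (evalRingHom δ)) (resultant (f.map ψ) (C (X ^ k) + ∑ i ∈ Finset.Ioc J k,
          C (C (C (T.coeff (k - i))) * X ^ (k - i)) * (h i).map ψ) (n + 1) n) := rfl
    rw [h2, ← resultant_map_map, Polynomial.map_map, hψφ, Polynomial.map_add, Polynomial.map_sum]
    congr 1
    simp only [Sg]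
    congr 1
    · rw [map_C, map_pow, coe_mapRingHom, map_X]
    · apply Finset.sum_congr rfl
      intro i _
      rw [Polynomial.map_mul, Polynomial.map_map, hψφ, map_C, map_mul, map_pow, coe_mapRingHom,
        map_X, map_C]
      simp
  set g₀ := g.map (PowerSeries.constantCoeff (R := K)) with hg₀
  have hgm : g₀.Monic := hC.gmonic.map _
  have hgd : g₀.natDegree = n := by
    rw [hg₀, hC.gmonic.natDegree_map, hC.gdeg]
  have hφ0 : φ 0 = (C : K →+* K[X]).comp (evalRingHom 0) := by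
    apply RingHom.ext
    intro p
    exact p10_comp0 p
  have hR0 : R.map (evalRingHom 0) = X ^ (n * k) * T := by
    have hc : ∀ i ∈ Finset.Ioc J k, ∃ c : K, (h i).map (evalRingHom 0) = C c * g₀ ∧
        c * g₀.coeff 0 = 1 := fun i hi =>
      p10_red hC (by rw [Finset.mem_Ioc] at hi; omega) (hh i (Finset.mem_Ioc.1 hi).1).1
        (hh i (Finset.mem_Ioc.1 hi).1).2
    choose! c hc1 hc2 using hc
    have h1 : Sg 0 = C (X ^ k) + C (∑ i ∈ Finset.Ioc J k,
        C (T.coeff (k - i)) * X ^ (k - i) * C (c i)) * g₀.map C := by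
      simp only [Sg]
      congr 1
      rw [map_sum, Finset.sum_mul]
      apply Finset.sum_congr rfl
      intro i hi
      rw [hφ0, ← Polynomial.map_map, hc1 i hi, Polynomial.map_mul, map_C, ← mul_assoc, ← C_mul]
    rw [hRδ, h1, hφ0, ← Polynomial.map_map, p10_f0 hC, p10_zero g₀ n k hgm hgd]
    congr 1
    conv_rhs => rw [← hTsum]
    congr 1
    rw [Finset.sum_mul]
    apply Finset.sum_congr rfl
    intro i hi
    rw [mul_assoc, ← C_mul, hc2 i hi, C_1, mul_one]
  have hw : ∀ δ, ∃ w' : K[X], resultant f (S δ) (n + 1) n = X ^ (n * k) * w' := fun δ =>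
    pow_dvd_resultant hC (hS δ)
  have hkey : ∀ δ : K, δ ≠ 0 → ∀ w' : K[X], resultant f (S δ) (n + 1) n = X ^ (n * k) * w' →
      R.map (evalRingHom δ) * C (δ ^ k) = X ^ (n * k) * φ δ w' := by
    intro δ hδ w' hw'
    have h1 := hR δ
    rw [hw', map_mul, map_pow, hφX, mul_pow, ← hRδ, ← C_pow, ← C_pow] at h1
    have h2 : (C (δ ^ (n * k)) : K[X]) ≠ 0 := by
      rw [Ne, C_eq_zero]
      exact pow_ne_zero _ hδ
    apply mul_left_cancel₀ h2
    have h3 : (C ((δ ^ k) ^ (n + 1)) : K[X]) = C (δ ^ (n * k)) * C (δ ^ k) := by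
      rw [← C_mul, ← pow_mul, ← pow_add]
      congr 2
      ring
    rw [h3] at h1
    calc C (δ ^ (n * k)) * (R.map (evalRingHom δ) * C (δ ^ k))
        = C (δ ^ (n * k)) * C (δ ^ k) * R.map (evalRingHom δ) := by ring
      _ = C (δ ^ (n * k)) * X ^ (n * k) * φ δ w' := h1.symm
      _ = C (δ ^ (n * k)) * (X ^ (n * k) * φ δ w') := by ring
  have hdvd : ∀ δ : K, X ^ (n * k) ∣ R.map (evalRingHom δ) := by
    intro δ
    by_cases hδ : δ = 0
    · rw [hδ, hR0]
      exact dvd_mul_right _ _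
    · obtain ⟨w', hw'⟩ := hw δ
      have h1 := hkey δ hδ w' hw'
      have h2 : X ^ (n * k) ∣ R.map (evalRingHom δ) * C (δ ^ k) := by
        rw [h1]
        exact dvd_mul_right _ _
      have h3 : IsUnit (C (δ ^ k) : K[X]) := isUnit_C.2 (isUnit_iff_ne_zero.2 (pow_ne_zero _ hδ))
      exact h3.dvd_mul_right.1 h2
  obtain ⟨P, hP⟩ := HI.dvd_family R (X ^ (n * k)) (monic_X_pow _) hdvd
  have hPδ : ∀ δ : K, R.map (evalRingHom δ) = X ^ (n * k) * P.map (evalRingHom δ) := by
    intro δ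
    rw [hP, Polynomial.map_mul, Polynomial.map_map]
    have : (evalRingHom δ).comp (C : K →+* K[X]) = RingHom.id K := by
      ext x
      simp
    rw [this, Polynomial.map_id]
  have hX0 : (X ^ (n * k) : K[X]) ≠ 0 := pow_ne_zero _ X_ne_zero
  refine ⟨P, ?_, fun δ hδ => ?_⟩
  · apply mul_left_cancel₀ hX0
    rw [← hPδ, hR0]
  · obtain ⟨w', hw'⟩ := hw δ
    refine ⟨S δ, w', hS δ, hw', ?_, ?_⟩
    · by_cases h0 : w' = 0
      · rw [h0, natDegree_zero]
        exact Nat.zero_le _
      · have h1 := natDegree_resultant_wt hC.deg hC.wt (hS δ).1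
        rw [hw', natDegree_mul hX0 h0, natDegree_X_pow] at h1
        have h2 : (n + 1) * k = n * k + k := by ring
        omega
    · have h1 := hkey δ hδ w' hw'
      rw [hPδ, mul_assoc] at h1
      have h2 := mul_left_cancel₀ hX0 h1
      have h3 : φ δ w' = w'.comp (C δ * X) := by simp [φ]
      rw [← h3, ← h2, mul_comm]

end Pool.Agent.Helper51.HN
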