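import Pool.Agent.Helper51.HN.Defs

set_option autoImplicit false

/-!
HN-P11: totally split gap polynomials in characteristic `ℓ`.

Proof. Additive polynomials: define recursively `T_0 = X`, `T_(r+1) = T_r ^ ℓ - C (T_r(c) ^ (ℓ-1)) * T_r`
where `c : K` is not a root of `T_r` (`K` is infinite). By induction: `T_r` is monic of degree `ℓ^r`, is
additive, has constant nonzero derivative, has `ℓ^r` distinct roots in `K` (the roots of `T_(r+1)` are the
`a + i c`, `a` a root of `T_r`, `i < ℓ`), and every index `i` of a nonzero coefficient of `T_r` is `ℓ^r`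
or satisfies `i ℓ ≤ ℓ^r`. Choose `r = J + 2`.
If `p` does not divide `k = ℓ^r`: take `T = T_r - C (T_r(c))` with `T_r(c) ≠ 0` (roots `c + roots`).
If `p ∣ ℓ^r` then `p = ℓ`, take `T = T_r / X` (`T_r.divX`), `k = ℓ^r - 1`, roots the nonzero roots.
-/

namespace Pool.Agent.Helper51.HN

open Polynomial Pool.Agent.Helper51.HI

variable {K : Type*} [Field K]

/-- additive split polynomials -/
structure P11Add (K : Type*) [Field K] (ℓ r : ℕ) (T : K[X]) : Prop where
  monic : T.Monic
  deg : T.natDegree = ℓ ^ r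
  add : ∀ a b : K, T.eval (a + b) = T.eval a + T.eval b
  der : ∃ u : K, u ≠ 0 ∧ derivative T = C u
  roots : ∃ s : Finset K, s.card = ℓ ^ r ∧ ∀ a ∈ s, T.eval a = 0
  gap : ∀ i, T.coeff i ≠ 0 → i = ℓ ^ r ∨ i * ℓ ≤ ℓ ^ r

theorem P11Add.zero {ℓ r : ℕ} {T : K[X]} (H : P11Add K ℓ r T) : T.eval 0 = 0 := by
  have h := H.add 0 0
  rw [add_zero] at h
  exact left_eq_add.1 h

theorem P11Add.nsmul {ℓ r : ℕ} {T : K[X]} (H : P11Add K ℓ r T) (c : K) (i : ℕ) :
    T.eval ((i : K) * c) = i * T.eval c := by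
  induction i with
  | zero => rw [Nat.cast_zero, zero_mul, zero_mul]; exact H.zero
  | succ i ih => rw [Nat.cast_succ, add_mul, one_mul, H.add, ih, add_mul, one_mul]

theorem P11Add.exists_nonroot [Infinite K] {ℓ r : ℕ} {T : K[X]} (H : P11Add K ℓ r T) :
    ∃ c : K, T.eval c ≠ 0 := by
  by_contra h
  push Not at h
  exact H.monic.ne_zero (Polynomial.funext (by intro x; rw [h x, eval_zero]))

theorem p11_step [Infinite K] {ℓ r : ℕ} (hℓ : ℓ.Prime) [CharP K ℓ] {T : K[X]}
    (H : P11Add K ℓ r T) : ∃ T' : K[X], P11Add K ℓ (r + 1) T' := by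
  classical
  have hfact : Fact ℓ.Prime := ⟨hℓ⟩
  obtain ⟨c, hc⟩ := H.exists_nonroot
  set u := T.eval c with hu
  obtain ⟨d, hd0, hd⟩ := H.der
  obtain ⟨s, hs, hroot⟩ := H.roots
  have h2 := hℓ.two_le
  have hpos : 0 < ℓ ^ r := pow_pos hℓ.pos r
  have hlt : T.natDegree < (T ^ ℓ).natDegree := by
    rw [natDegree_pow, H.deg]
    nlinarith
  have hdeglt : (C (u ^ (ℓ - 1)) * T).degree < (T ^ ℓ).degree := by
    have hu0 : u ^ (ℓ - 1) ≠ 0 := pow_ne_zero _ hc
    rw [degree_C_mul hu0, degree_eq_natDegree H.monic.ne_zero,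
      degree_eq_natDegree (H.monic.pow ℓ).ne_zero]
    exact_mod_cast hlt
  refine ⟨T ^ ℓ - C (u ^ (ℓ - 1)) * T, ?_, ?_, ?_, ?_, ?_, ?_⟩
  · exact (H.monic.pow ℓ).sub_of_left hdeglt
  · rw [natDegree_sub_eq_left_of_natDegree_lt, natDegree_pow, H.deg, pow_succ, mul_comm]
    exact lt_of_le_of_lt (natDegree_C_mul_le _ _) hlt
  · intro a b
    rw [eval_sub, eval_pow, eval_mul, eval_C, H.add, add_pow_char, eval_sub, eval_sub, eval_pow,
      eval_pow, eval_mul, eval_mul, eval_C, eval_C]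
    ring
  · refine ⟨-(u ^ (ℓ - 1) * d), neg_ne_zero.2 (mul_ne_zero (pow_ne_zero _ hc) hd0), ?_⟩
    rw [derivative_sub, derivative_pow, CharP.cast_eq_zero, C_0, zero_mul, zero_mul, zero_sub,
      derivative_C_mul, hd, C_neg, C_mul]
  · refine ⟨(s ×ˢ Finset.range ℓ).image fun z => z.1 + (z.2 : K) * c, ?_, ?_⟩
    · rw [Finset.card_image_of_injOn, Finset.card_product, hs, Finset.card_range, pow_succ]
      rintro ⟨a, i⟩ h1 ⟨b, j⟩ h3 h4
      rw [Finset.mem_coe, Finset.mem_product, Finset.mem_range] at h1 h3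
      have h4' : a + (i : K) * c = b + (j : K) * c := h4
      have h5 := congrArg (fun x => T.eval x) h4'
      simp only [H.add, H.nsmul] at h5
      rw [hroot a h1.1, hroot b h3.1, zero_add, zero_add] at h5
      have h6 : (i : K) = j := mul_right_cancel₀ hc h5
      have h7 : i = j := by
        have h8 := (CharP.natCast_eq_natCast K ℓ).1 h6
        exact Nat.ModEq.eq_of_lt_of_lt h8 h1.2 h3.2
      subst h7
      have h9 : a = b := add_right_cancel h4'
      rw [h9]
    · intro x hx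
      rw [Finset.mem_image] at hx
      obtain ⟨⟨a, i⟩, h1, rfl⟩ := hx
      rw [Finset.mem_product, Finset.mem_range] at h1
      rw [eval_sub, eval_pow, eval_mul, eval_C, H.add, H.nsmul, hroot a h1.1, zero_add, ← hu,
        mul_pow]
      have h3 : (i : K) ^ ℓ = i := by
        have := map_natCast (frobenius K ℓ) i
        rwa [frobenius_def] at this
      have h4 : u ^ ℓ = u ^ (ℓ - 1) * u := by
        rw [← pow_succ, Nat.sub_add_cancel hℓ.one_le]
      rw [h3, h4]
      ring
  · intro i hi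
    by_cases h1 : T.coeff i = 0
    · rw [coeff_sub, coeff_C_mul, h1, mul_zero, sub_zero, ← map_frobenius_expand ℓ T, coeff_map,
        coeff_expand hℓ.pos] at hi
      by_cases h3 : ℓ ∣ i
      · rw [if_pos h3] at hi
        obtain ⟨m, rfl⟩ := h3
        rw [Nat.mul_div_cancel_left _ hℓ.pos] at hi
        have h4 : T.coeff m ≠ 0 := fun h => hi (by rw [h, map_zero])
        rcases H.gap m h4 with h5 | h5
        · left
          rw [h5, pow_succ, mul_comm]
        · right
          rw [pow_succ]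
          exact Nat.mul_le_mul_right ℓ (by rw [mul_comm]; exact h5)
      · rw [if_neg h3, map_zero] at hi
        exact absurd rfl hi
    · right
      rcases H.gap i h1 with h5 | h5
      · rw [h5, pow_succ]
      · refine h5.trans ?_
        rw [pow_succ]
        exact Nat.le_mul_of_pos_right _ hℓ.pos

theorem p11_add [Infinite K] (ℓ : ℕ) (hℓ : ℓ.Prime) [CharP K ℓ] (r : ℕ) :
    ∃ T : K[X], P11Add K ℓ r T := by
  induction r with
  | zero =>
    refine ⟨X, monic_X, ?_, ?_, ⟨1, one_ne_zero, ?_⟩, ⟨{0}, ?_, ?_⟩, ?_⟩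
    · rw [natDegree_X, pow_zero]
    · intro a b; rw [eval_X, eval_X, eval_X]
    · rw [derivative_X, C_1]
    · rw [Finset.card_singleton, pow_zero]
    · intro a ha; rw [Finset.mem_singleton] at ha; rw [ha, eval_X]
    · intro i hi
      left
      rw [coeff_X] at hi
      by_contra h
      rw [pow_zero] at h
      exact hi (if_neg (fun h' => h h'.symm))
  | succ r ih =>
    obtain ⟨T, hT⟩ := ih
    exact p11_step hℓ hT

theorem exists_gap_charP [Infinite K] (ℓ : ℕ) (hℓ : ℓ.Prime) [CharP K ℓ] (J p : ℕ)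
    (hp : p.Prime) : ∃ (k : ℕ) (T : K[X]), J < k ∧ ¬ p ∣ k ∧ T.Monic ∧ T.natDegree = k ∧
      T.coeff 0 ≠ 0 ∧ (∀ i, 1 ≤ i → i ≤ J → T.coeff (k - i) = 0) ∧ SR K T k := by
  classical
  obtain ⟨T, H⟩ := p11_add (K := K) ℓ hℓ (J + 2)
  obtain ⟨d, hd0, hd⟩ := H.der
  obtain ⟨s, hs, hroot⟩ := H.roots
  have h2 := hℓ.two_le
  have hJ : J + 1 < ℓ ^ (J + 1) := Nat.lt_pow_self hℓ.one_lt
  have hk : ℓ ^ (J + 1) * 2 ≤ ℓ ^ (J + 2) := by
    rw [pow_succ ℓ (J + 1)]
    exact Nat.mul_le_mul_left _ h2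
  -- the gap
  have hgap : ∀ i, 1 ≤ i → i ≤ J → T.coeff (ℓ ^ (J + 2) - i) = 0 := by
    intro i h1 h3
    by_contra h4
    rcases H.gap _ h4 with h5 | h5
    · omega
    · have h6 : (ℓ ^ (J + 1) + 1) * ℓ ≤ (ℓ ^ (J + 2) - i) * ℓ := Nat.mul_le_mul_right ℓ (by omega)
      have h7 : (ℓ ^ (J + 1) + 1) * ℓ = ℓ ^ (J + 2) + ℓ := by ring
      omega
  by_cases hpk : p ∣ ℓ ^ (J + 2)
  · have hpl : p = ℓ := (Nat.prime_dvd_prime_iff_eq hp hℓ).1 (hp.dvd_of_dvd_pow hpk)
    subst hpl
    have h0 : T.coeff 0 = 0 := by rw [coeff_zero_eq_eval_zero]; exact H.zero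
    have hX : T = T.divX * X := by
      conv_lhs => rw [← divX_mul_X_add T, h0, C_0, add_zero]
    have hdivm : T.divX.Monic := by
      have h3 : (T.divX * X).Monic := hX ▸ H.monic
      exact monic_X.of_mul_monic_right h3
    have hdeg : T.divX.natDegree = p ^ (J + 2) - 1 := by
      rw [natDegree_divX_eq_natDegree_tsub_one, H.deg]
    refine ⟨p ^ (J + 2) - 1, T.divX, by omega, ?_, hdivm, hdeg, ?_, ?_, ?_⟩
    · intro h3
      have h4 := (Nat.dvd_sub_iff_right (show 1 ≤ p ^ (J + 2) by omega) hpk).1 h3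
      exact hp.one_lt.ne' (Nat.dvd_one.1 h4)
    · rw [coeff_divX]
      have h3 : (derivative T).coeff 0 = T.coeff 1 * ((0 : ℕ) + 1) := coeff_derivative T 0
      rw [hd, coeff_C_zero, Nat.cast_zero, zero_add, mul_one] at h3
      rw [zero_add, ← h3]
      exact hd0
    · intro i h1 h3
      rw [coeff_divX]
      have h4 : p ^ (J + 2) - 1 - i + 1 = p ^ (J + 2) - i := by omega
      rw [h4]
      exact hgap i h1 h3
    · refine ⟨s.erase 0, ?_, ?_⟩
      · have := Finset.pred_card_le_card_erase (s := s) (a := (0 : K))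
        rwa [hs] at this
      · intro a ha
        rw [Finset.mem_erase] at ha
        have h3 := hroot a ha.2
        rw [hX, eval_mul, eval_X] at h3
        have h4 : T.divX.eval a = 0 := (mul_eq_zero.1 h3).resolve_right ha.1
        rw [coe_aeval_eq_eval]
        refine ⟨h4, fun h5 => hd0 ?_⟩
        have h6 : (derivative T).eval a = d := by rw [hd, eval_C]
        rw [← h6, hX, derivative_mul, derivative_X, eval_add, eval_mul, eval_mul, eval_one, h4, h5]
        ring
  · obtain ⟨c, hc⟩ := H.exists_nonroot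
    have hTdeg : 0 < T.degree := by
      rw [degree_eq_natDegree H.monic.ne_zero, H.deg]
      exact_mod_cast (show 0 < ℓ ^ (J + 2) by omega)
    refine ⟨ℓ ^ (J + 2), T - C (T.eval c), by omega, hpk, ?_, ?_, ?_, ?_, ?_⟩
    · exact H.monic.sub_of_left (lt_of_le_of_lt degree_C_le hTdeg)
    · rw [natDegree_sub_C, H.deg]
    · rw [coeff_sub, coeff_C_zero, coeff_zero_eq_eval_zero, H.zero, zero_sub]
      exact neg_ne_zero.2 hc
    · intro i h1 h3
      rw [coeff_sub, hgap i h1 h3, coeff_C_of_ne_zero (by omega), sub_zero]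
    · refine ⟨s.image fun a => c + a, ?_, ?_⟩
      · rw [Finset.card_image_of_injective _ (add_right_injective c), hs]
      · intro x hx
        rw [Finset.mem_image] at hx
        obtain ⟨a, ha, rfl⟩ := hx
        rw [coe_aeval_eq_eval]
        refine ⟨?_, ?_⟩
        · rw [eval_sub, eval_C, H.add, hroot a ha, add_zero, sub_self]
        · rw [derivative_sub, derivative_C, sub_zero, hd, eval_C]
          exact hd0

end Pool.Agent.Helper51.HN
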