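import Mathlib

set_option autoImplicit false

/-!
HN-P12: Gaussian moments.

`gm m` is the `m`-th moment of the standard Gaussian. Proof of `gm_pos`: with
`I m = ∫ x^m exp(-x²/2) dx` one has `I 1 = 0` and `I (m+2) = (m+1) I m` (integration by parts, or the
closed forms in Mathlib: `integral_gaussian`, `integral_rpow_mul_exp_neg_mul_sq`, moments of
`gaussianReal`), so `I m = gm m * I 0`, `I 0 > 0`. Hence `∑ a_m gm m = (∫ q(x) exp(-x²/2) dx) / I 0 ≥ 0`,
and if it is `≤ 0` the continuous nonnegative function `q exp(-x²/2)` has integral `0`, so it vanishes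
everywhere and `q = 0`.
-/

namespace Pool.Agent.Helper51.HN

open Polynomial

/-- the moments of the standard Gaussian distribution -/
def gm : ℕ → ℚ
  | 0 => 1
  | 1 => 0
  | (m + 2) => (m + 1) * gm m

lemma p12_int (n : ℕ) : MeasureTheory.Integrable (fun x : ℝ => x ^ n * Real.exp (-(1 / 2) * x ^ 2)) := by
  have h := integrable_rpow_mul_exp_neg_mul_sq (b := 1 / 2) (by norm_num) (s := (n : ℝ))
    (lt_of_lt_of_le (by norm_num) (Nat.cast_nonneg n))
  simpa [Real.rpow_natCast] using h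

/-- the moments without normalisation -/
noncomputable def p12I (n : ℕ) : ℝ := ∫ x : ℝ, x ^ n * Real.exp (-(1 / 2) * x ^ 2)

lemma p12_deriv (x : ℝ) : HasDerivAt (fun y : ℝ => Real.exp (-(1 / 2) * y ^ 2))
    (-(x * Real.exp (-(1 / 2) * x ^ 2))) x := by
  have h1 : HasDerivAt (fun y : ℝ => -(1 / 2) * y ^ 2) (-(1 / 2) * (2 * x)) x := by
    have := (hasDerivAt_pow 2 x).const_mul (-(1 / 2 : ℝ))
    simpa using this
  have h2 := h1.exp
  convert h2 using 1
  ring

lemma p12_one : p12I 1 = 0 := by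
  have h := MeasureTheory.integral_eq_zero_of_hasDerivAt_of_integrable (f := fun y : ℝ =>
    Real.exp (-(1 / 2) * y ^ 2)) (f' := fun x => -(x * Real.exp (-(1 / 2) * x ^ 2)))
    p12_deriv (by simpa using (p12_int 1).neg) (by simpa using p12_int 0)
  rw [MeasureTheory.integral_neg, neg_eq_zero] at h
  unfold p12I
  simpa using h

lemma p12_rec (m : ℕ) : p12I (m + 2) = (m + 1) * p12I m := by
  have h := MeasureTheory.integral_eq_zero_of_hasDerivAt_of_integrable (f := fun y : ℝ =>
    y ^ (m + 1) * Real.exp (-(1 / 2) * y ^ 2))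
    (f' := fun x => ((m : ℝ) + 1) * (x ^ m * Real.exp (-(1 / 2) * x ^ 2)) -
      x ^ (m + 2) * Real.exp (-(1 / 2) * x ^ 2)) ?_ ?_ (p12_int (m + 1))
  · rw [MeasureTheory.integral_sub ((p12_int m).const_mul _) (p12_int (m + 2)),
      MeasureTheory.integral_const_mul] at h
    unfold p12I
    linarith
  · intro x
    have h1 : HasDerivAt (fun y : ℝ => y ^ (m + 1)) (((m + 1 : ℕ) : ℝ) * x ^ m) x := by
      simpa using hasDerivAt_pow (m + 1) x
    refine (h1.mul (p12_deriv x)).congr_deriv ?_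
    push_cast
    ring
  · exact ((p12_int m).const_mul _).sub (p12_int (m + 2))

lemma p12_gm : ∀ m : ℕ, p12I m = (gm m : ℝ) * p12I 0 ∧ p12I (m + 1) = (gm (m + 1) : ℝ) * p12I 0
  | 0 => by
      refine ⟨by simp [gm], ?_⟩
      rw [zero_add, p12_one]; simp [gm]
  | (m + 1) => by
      obtain ⟨h1, h2⟩ := p12_gm m
      refine ⟨h2, ?_⟩
      show p12I (m + 2) = _
      rw [p12_rec, h1]
      have h3 : ((gm (m + 2) : ℚ) : ℝ) = ((m : ℝ) + 1) * (gm m : ℝ) := by
        rw [gm]; push_cast; rfl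
      show _ = ((gm (m + 2) : ℚ) : ℝ) * p12I 0
      rw [h3, mul_assoc]

lemma p12_pos : 0 < p12I 0 := by
  unfold p12I
  simp only [pow_zero, one_mul]
  rw [integral_gaussian]
  positivity

lemma p12_sum (q : ℝ[X]) : ∫ x : ℝ, q.eval x * Real.exp (-(1 / 2) * x ^ 2) =
    q.sum (fun m a => a * (gm m : ℝ)) * p12I 0 := by
  have h1 : (fun x : ℝ => q.eval x * Real.exp (-(1 / 2) * x ^ 2)) =
      fun x : ℝ => ∑ n ∈ q.support, q.coeff n * (x ^ n * Real.exp (-(1 / 2) * x ^ 2)) := by
    funext x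
    rw [Polynomial.eval_eq_sum, Polynomial.sum_def, Finset.sum_mul]
    apply Finset.sum_congr rfl
    intro n _
    ring
  rw [h1, MeasureTheory.integral_finsetSum _ (fun n _ => (p12_int n).const_mul _),
    Polynomial.sum_def, Finset.sum_mul]
  apply Finset.sum_congr rfl
  intro n _
  rw [MeasureTheory.integral_const_mul]
  have := (p12_gm n).1
  unfold p12I at this ⊢
  rw [this]
  ring

theorem gm_pos (q : ℝ[X]) (hq : ∀ t : ℝ, 0 ≤ q.eval t)
    (h : q.sum (fun m a => a * (gm m : ℝ)) ≤ 0) : q = 0 := by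
  have h1 : ∫ x : ℝ, q.eval x * Real.exp (-(1 / 2) * x ^ 2) ≤ 0 := by
    rw [p12_sum]
    exact mul_nonpos_of_nonpos_of_nonneg h p12_pos.le
  have hnn : ∀ x : ℝ, 0 ≤ q.eval x * Real.exp (-(1 / 2) * x ^ 2) := fun x =>
    mul_nonneg (hq x) (Real.exp_pos _).le
  have h0 : ∫ x : ℝ, q.eval x * Real.exp (-(1 / 2) * x ^ 2) = 0 :=
    le_antisymm h1 (MeasureTheory.integral_nonneg hnn)
  have hint : MeasureTheory.Integrable (fun x : ℝ => q.eval x * Real.exp (-(1 / 2) * x ^ 2)) := by
    have h2 : (fun x : ℝ => q.eval x * Real.exp (-(1 / 2) * x ^ 2)) =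
        fun x : ℝ => ∑ n ∈ q.support, q.coeff n * (x ^ n * Real.exp (-(1 / 2) * x ^ 2)) := by
      funext x
      rw [Polynomial.eval_eq_sum, Polynomial.sum_def, Finset.sum_mul]
      apply Finset.sum_congr rfl
      intro n _
      ring
    rw [h2]
    exact MeasureTheory.integrable_finsetSum _ (fun n _ => (p12_int n).const_mul _)
  have hcont : Continuous (fun x : ℝ => q.eval x * Real.exp (-(1 / 2) * x ^ 2)) := by
    have := q.continuous
    fun_prop
  have hz : (fun x : ℝ => q.eval x * Real.exp (-(1 / 2) * x ^ 2)) = fun _ => 0 := by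
    have h3 := (MeasureTheory.integral_eq_zero_iff_of_nonneg hnn hint).1 h0
    exact (Continuous.ae_eq_iff_eq MeasureTheory.volume hcont continuous_const).1 h3
  apply Polynomial.funext
  intro r
  have h4 := congrFun hz r
  simp only [mul_eq_zero, (Real.exp_pos _).ne', or_false] at h4
  rw [h4, Polynomial.eval_zero]

end Pool.Agent.Helper51.HN
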