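import Pool.Agent.Helper51.HN.P12

set_option autoImplicit false

/-!
HN-P13: rational quadrature with positive rational weights.

Proof. Let `E = Fin (D + 1) → ℝ`, `D = d + 1`, `v t = (1, t, ..., t^D)`, `G = (gm 0, ..., gm D)`.
`v 0, ..., v D` are a basis (Vandermonde); let `ℓ_j` be the dual basis (rational coefficients) and
`U = {x : ∃ c ≥ 0 finitely supported on ℚ, ∀ j, 0 < ℓ_j (x - ∑ c_t v t)}`, an open convex set.
If `G ∉ U` a linear form `f` separates; `f (v t) ≤ 0 ≤ f G` by scaling; the polynomial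
`q = - ∑ f_m X^m` is `≥ 0` on `ℚ`, hence on `ℝ`, and `∑ q_m gm m = - f G ≤ 0`, so `q = 0` by `gm_pos`,
a contradiction. So `G ∈ U`; perturb the `c_t` to positive rationals.
-/

namespace Pool.Agent.Helper51.HN

open Polynomial

/-- inverse Vandermonde matrix over the rationals -/
theorem p13_inv (D : ℕ) : ∃ B : Matrix (Fin (D + 1)) (Fin (D + 1)) ℚ,
    (∀ m m' : Fin (D + 1), ∑ j : Fin (D + 1), ((j : ℕ) : ℚ) ^ (m : ℕ) * B j m' =
      if m = m' then 1 else 0) ∧
    (∀ j j' : Fin (D + 1), ∑ m : Fin (D + 1), B j m * ((j' : ℕ) : ℚ) ^ (m : ℕ) =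
      if j = j' then 1 else 0) := by
  classical
  set A : Matrix (Fin (D + 1)) (Fin (D + 1)) ℚ :=
    (Matrix.vandermonde (fun j : Fin (D + 1) => ((j : ℕ) : ℚ))).transpose with hA
  have hdet : A.det ≠ 0 := by
    rw [hA, Matrix.det_transpose]
    rw [Matrix.det_vandermonde_ne_zero_iff]
    intro a b hab
    have hab' : ((a : ℕ) : ℚ) = ((b : ℕ) : ℚ) := hab
    exact Fin.ext (by exact_mod_cast hab')
  have hu : IsUnit A.det := isUnit_iff_ne_zero.mpr hdet
  refine ⟨A⁻¹, fun m m' => ?_, fun j j' => ?_⟩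
  · have h := congrFun (congrFun (Matrix.mul_nonsing_inv A hu) m) m'
    rw [Matrix.mul_apply, Matrix.one_apply] at h
    rw [← h]
    rfl
  · have h := congrFun (congrFun (Matrix.nonsing_inv_mul A hu) j) j'
    rw [Matrix.mul_apply, Matrix.one_apply] at h
    rw [← h]
    rfl

/-- the real statement: the moment vector is in the open cone -/
theorem p13_real (D : ℕ) (B : Matrix (Fin (D + 1)) (Fin (D + 1)) ℚ)
    (hB : ∀ j j' : Fin (D + 1), ∑ m : Fin (D + 1), B j m * ((j' : ℕ) : ℚ) ^ (m : ℕ) =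
      if j = j' then 1 else 0) :
    ∃ (T : Finset ℚ) (c : ℚ → ℝ), (∀ t ∈ T, 0 ≤ c t) ∧ ∀ j : Fin (D + 1),
      0 < ∑ m : Fin (D + 1), (B j m : ℝ) * ((gm m : ℝ) - ∑ t ∈ T, c t * (t : ℝ) ^ (m : ℕ)) := by
  classical
  by_contra hcon
  push Not at hcon
  set lf : Fin (D + 1) → (Fin (D + 1) → ℝ) → ℝ := fun j x => ∑ m, (B j m : ℝ) * x m with hlf
  have hlin : ∀ j (a b : ℝ) (x y : Fin (D + 1) → ℝ),
      lf j (fun m => a * x m + b * y m) = a * lf j x + b * lf j y := by
    intro j a b x y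
    simp only [hlf, Finset.mul_sum, ← Finset.sum_add_distrib]
    exact Finset.sum_congr rfl fun m _ => by ring
  have hcont : ∀ j, Continuous (lf j) := by
    intro j
    simp only [hlf]
    fun_prop
  set U : Set (Fin (D + 1) → ℝ) := {x | ∃ c : ℚ →₀ ℝ, (∀ t, 0 ≤ c t) ∧
    ∀ j, 0 < lf j (fun m => x m - c.sum (fun t a => a * (t : ℝ) ^ (m : ℕ)))} with hU
  have hUo : IsOpen U := by
    have : U = ⋃ c : {c : ℚ →₀ ℝ // ∀ t, 0 ≤ c t}, ⋂ j,
        {x | 0 < lf j (fun m => x m - c.1.sum (fun t a => a * (t : ℝ) ^ (m : ℕ)))} := by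
      ext x
      simp only [hU, Set.mem_ofPred_eq, Set.mem_iUnion, Set.mem_iInter, Subtype.exists]
      constructor
      · rintro ⟨c, h1, h2⟩
        exact ⟨c, h1, h2⟩
      · rintro ⟨c, h1, h2⟩
        exact ⟨c, h1, h2⟩
    rw [this]
    refine isOpen_iUnion fun c => isOpen_iInter_of_finite fun j => ?_
    refine isOpen_lt continuous_const ((hcont j).comp ?_)
    fun_prop
  have hUc : Convex ℝ U := by
    rintro x ⟨c, hc, hx⟩ y ⟨c', hc', hy⟩ a b ha hb hab
    refine ⟨a • c + b • c', fun t => ?_, fun j => ?_⟩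
    · simp only [Finsupp.add_apply, Finsupp.smul_apply, smul_eq_mul]
      exact add_nonneg (mul_nonneg ha (hc t)) (mul_nonneg hb (hc' t))
    · have e : (fun m : Fin (D + 1) => (a • x + b • y) m -
          (a • c + b • c').sum (fun t a => a * (t : ℝ) ^ (m : ℕ))) =
          fun m => a * (x m - c.sum (fun t a => a * (t : ℝ) ^ (m : ℕ))) +
            b * (y m - c'.sum (fun t a => a * (t : ℝ) ^ (m : ℕ))) := by
        funext m
        rw [Finsupp.sum_add_index' (by simp) (by intros; ring),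
          Finsupp.sum_smul_index' (by simp), Finsupp.sum_smul_index' (by simp)]
        simp only [Pi.add_apply, Pi.smul_apply, smul_eq_mul, Finsupp.sum, mul_assoc,
          ← Finset.mul_sum]
        ring
      rw [e, hlin]
      rcases ha.eq_or_lt with h | h
      · have hb1 : b = 1 := by linarith
        rw [← h, hb1]
        simpa using hy j
      · have h1 := mul_pos h (hx j)
        have h2 := mul_nonneg hb (hy j).le
        linarith
  set G : Fin (D + 1) → ℝ := fun m => (gm m : ℝ) with hG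
  have hGU : G ∉ U := by
    rintro ⟨c, hc, hx⟩
    obtain ⟨j, hj⟩ := hcon c.support (fun t => c t) (fun t _ => hc t)
    have := hx j
    simp only [hlf, hG, Finsupp.sum] at this
    linarith
  obtain ⟨f, hf⟩ := geometric_hahn_banach_open_point hUc hUo hGU
  -- a vector in the open cone
  set o : Fin (D + 1) → ℝ := fun m => ∑ j : Fin (D + 1), ((j : ℕ) : ℝ) ^ (m : ℕ) with ho
  have hlo : ∀ j, lf j o = 1 := by
    intro j
    simp only [hlf, ho, Finset.mul_sum]
    rw [Finset.sum_comm]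
    have : ∀ j' : Fin (D + 1), ∑ m : Fin (D + 1), (B j m : ℝ) * ((j' : ℕ) : ℝ) ^ (m : ℕ) =
        if j = j' then 1 else 0 := by
      intro j'
      have := congrArg (fun q : ℚ => (q : ℝ)) (hB j j')
      push_cast at this
      rw [this]
      split_ifs <;> simp
    simp only [this]
    simp
  set v : ℝ → Fin (D + 1) → ℝ := fun t m => t ^ (m : ℕ) with hv
  have hmem : ∀ (t : ℚ) (n δ : ℝ), 0 ≤ n → 0 < δ → n • v t + δ • o ∈ U := by
    intro t n δ hn hδ
    refine ⟨Finsupp.single t n, fun s => ?_, fun j => ?_⟩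
    · rw [Finsupp.single_apply]
      split_ifs <;> simp [hn]
    · have e : (fun m : Fin (D + 1) => (n • v t + δ • o) m -
          (Finsupp.single t n).sum (fun t a => a * (t : ℝ) ^ (m : ℕ))) =
          fun m => 0 * o m + δ * o m := by
        funext m
        rw [Finsupp.sum_single_index (by simp)]
        simp [hv]
      rw [e, hlin, hlo]
      simpa using hδ
  have hlt : ∀ (t : ℚ) (n δ : ℝ), 0 ≤ n → 0 < δ → n * f (v t) + δ * f o < f G := by
    intro t n δ hn hδ
    have := hf _ (hmem t n δ hn hδ)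
    simpa using this
  have hfv : ∀ t : ℚ, f (v t) ≤ 0 := by
    intro t
    by_contra hpos
    push Not at hpos
    have h1 := hlt t ((|f G| + |f o|) / f (v t)) 1 (by positivity) one_pos
    rw [div_mul_cancel₀ _ hpos.ne'] at h1
    have h2 := le_abs_self (f G)
    have h3 := neg_abs_le (f o)
    linarith
  have hfG : 0 ≤ f G := by
    by_contra hneg
    push Not at hneg
    have h1 := hlt 0 0 (-(f G) / (|f o| + 1)) le_rfl (by
      have : 0 < |f o| + 1 := by positivity
      exact div_pos (by linarith) this)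
    have h4 : 0 < |f o| + 1 := by positivity
    have h2 : -(f G) / (|f o| + 1) * |f o| ≤ -(f G) := by
      rw [div_mul_eq_mul_div, div_le_iff₀ h4]
      nlinarith [abs_nonneg (f o)]
    have h3 : -(f G) / (|f o| + 1) * (-|f o|) ≤ -(f G) / (|f o| + 1) * f o :=
      mul_le_mul_of_nonneg_left (neg_abs_le _) (div_nonneg (by linarith) h4.le)
    have h5 : -(f G) / (|f o| + 1) * |f o| < -(f G) := by
      rw [div_mul_eq_mul_div, div_lt_iff₀ h4]
      nlinarith [abs_nonneg (f o)]
    linarith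
  set a : Fin (D + 1) → ℝ := fun m => f (Pi.single m 1) with ha
  have hfa : ∀ x : Fin (D + 1) → ℝ, f x = ∑ m, a m * x m := by
    intro x
    conv_lhs => rw [← Finset.univ_sum_single x]
    rw [map_sum]
    refine Finset.sum_congr rfl fun m _ => ?_
    have : (Pi.single m (x m) : Fin (D + 1) → ℝ) = x m • Pi.single m 1 := by
      rw [← Pi.single_smul, smul_eq_mul, mul_one]
    rw [this, map_smul, smul_eq_mul, mul_comm]
  set q : ℝ[X] := ∑ m : Fin (D + 1), C (-(a m)) * X ^ (m : ℕ) with hq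
  have hqe : ∀ t : ℝ, q.eval t = -(f (v t)) := by
    intro t
    rw [hq, eval_finsetSum, hfa, ← Finset.sum_neg_distrib]
    refine Finset.sum_congr rfl fun m _ => ?_
    simp [hv]
  have hqpos : ∀ t : ℝ, 0 ≤ q.eval t := by
    intro t
    refine Rat.denseRange_cast.induction_on (p := fun t : ℝ => 0 ≤ q.eval t) t
      (isClosed_le continuous_const q.continuous) (fun r => ?_)
    show 0 ≤ q.eval ((r : ℚ) : ℝ)
    rw [hqe]
    linarith [hfv r]
  have hsum : q.sum (fun m a => a * (gm m : ℝ)) ≤ 0 := by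
    have h1 : q.sum (fun m a => a * (gm m : ℝ)) = -(f G) := by
      rw [hq, Polynomial.sum_def]
      have h2 : ∀ (p : ℝ[X]), ∑ m ∈ p.support, p.coeff m * (gm m : ℝ) =
          p.sum (fun m a => a * (gm m : ℝ)) := fun p => rfl
      rw [h2]
      have h3 : ∀ (s : Finset (Fin (D + 1))),
          (∑ m ∈ s, C (-(a m)) * X ^ (m : ℕ) : ℝ[X]).sum (fun m a => a * (gm m : ℝ)) =
            ∑ m ∈ s, -(a m) * (gm m : ℝ) := by
        intro s
        induction s using Finset.induction_on with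
        | empty => simp
        | insert i s hi ih =>
          rw [Finset.sum_insert hi, Finset.sum_insert hi,
            Polynomial.sum_add_index _ _ _ (by simp) (by intros; ring), ih,
            Polynomial.C_mul_X_pow_eq_monomial, Polynomial.sum_monomial_index _ _ (by simp)]
      rw [h3, hfa, ← Finset.sum_neg_distrib]
      exact Finset.sum_congr rfl fun m _ => by simp [hG]
    rw [h1]
    linarith
  have hq0 := gm_pos q hqpos hsum
  have hall : ∀ x, f x = 0 := by
    intro x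
    rw [hfa]
    refine Finset.sum_eq_zero fun m _ => ?_
    have h1 : q.coeff m = -(a m) := by
      rw [hq, finsetSum_coeff]
      rw [Finset.sum_eq_single m]
      · simp
      · intro b _ hb
        rw [coeff_C_mul, coeff_X_pow, if_neg, mul_zero]
        exact fun h => hb (Fin.ext h.symm)
      · simp
    rw [hq0, coeff_zero] at h1
    have : a m = 0 := by linarith
    rw [this, zero_mul]
  have := hlt 0 0 1 le_rfl one_pos
  simp [hall] at this

theorem exists_quadrature (d : ℕ) : ∃ (s : Finset ℚ) (w : ℚ → ℚ), (∀ t ∈ s, 0 < w t) ∧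
    2 ≤ s.card ∧ ∀ m ≤ d, ∑ t ∈ s, w t * t ^ m = gm m := by
  classical
  obtain ⟨B, hB1, hB2⟩ := p13_inv (d + 1)
  obtain ⟨T, c, hc, hpos⟩ := p13_real (d + 1) B hB2
  -- a small delta
  set K : Fin (d + 1 + 1) → ℝ := fun j => ∑ t ∈ T, |∑ m : Fin (d + 1 + 1), (B j m : ℝ) * (t : ℝ) ^ (m : ℕ)|
    with hK
  set b : Fin (d + 1 + 1) → ℝ := fun j => ∑ m : Fin (d + 1 + 1), (B j m : ℝ) *
    ((gm m : ℝ) - ∑ t ∈ T, c t * (t : ℝ) ^ (m : ℕ)) with hb
  obtain ⟨δ, hδ, hδ2⟩ : ∃ δ : ℝ, 0 < δ ∧ ∀ j, δ * K j < b j := by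
    have h1 : ∀ᶠ δ : ℝ in nhdsWithin 0 (Set.Ioi 0), ∀ j, δ * K j < b j := by
      rw [Filter.eventually_all]
      intro j
      have h2 : Filter.Tendsto (fun δ : ℝ => δ * K j) (nhdsWithin 0 (Set.Ioi 0)) (nhds (0 * K j)) :=
        ((continuous_id.mul continuous_const).tendsto 0).mono_left nhdsWithin_le_nhds
      rw [zero_mul] at h2
      exact h2.eventually_lt_const (hpos j)
    obtain ⟨δ, h3, h4⟩ := (h1.and self_mem_nhdsWithin).exists
    exact ⟨δ, h4, h3⟩
  have hex : ∀ t : ℚ, ∃ r : ℚ, c t < r ∧ (r : ℝ) < c t + δ := fun t =>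
    exists_rat_btwn (by linarith)
  choose c' hc1 hc2 using hex
  have hc'pos : ∀ t ∈ T, 0 < c' t := by
    intro t ht
    have : (0 : ℝ) < c' t := lt_of_le_of_lt (hc t ht) (hc1 t)
    exact_mod_cast this
  set b' : Fin (d + 1 + 1) → ℚ := fun j => ∑ m : Fin (d + 1 + 1), B j m *
    (gm m - ∑ t ∈ T, c' t * t ^ (m : ℕ)) with hb'
  have hb'pos : ∀ j, 0 < b' j := by
    intro j
    have h1 : ((b' j : ℚ) : ℝ) = b j - ∑ t ∈ T, ((c' t : ℝ) - c t) *
        ∑ m : Fin (d + 1 + 1), (B j m : ℝ) * (t : ℝ) ^ (m : ℕ) := by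
      simp only [hb', hb]
      push_cast
      simp only [mul_sub, Finset.sum_sub_distrib, sub_mul, Finset.mul_sum]
      rw [Finset.sum_comm (s := T), Finset.sum_comm (s := T)]
      have e1 : ∀ (g : ℚ → ℝ), ∑ x : Fin (d + 1 + 1), ∑ i ∈ T, (B j x : ℝ) * (g i * (i : ℝ) ^ (x : ℕ)) =
          ∑ x : Fin (d + 1 + 1), ∑ i ∈ T, g i * ((B j x : ℝ) * (i : ℝ) ^ (x : ℕ)) := fun g =>
        Finset.sum_congr rfl fun x _ => Finset.sum_congr rfl fun i _ => by ring
      rw [e1, e1]
      ring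
    have h2 : ∑ t ∈ T, ((c' t : ℝ) - c t) *
        ∑ m : Fin (d + 1 + 1), (B j m : ℝ) * (t : ℝ) ^ (m : ℕ) ≤ δ * K j := by
      simp only [hK]
      rw [Finset.mul_sum]
      refine Finset.sum_le_sum fun t _ => ?_
      have h3 : 0 ≤ (c' t : ℝ) - c t := by linarith [hc1 t]
      have h4 : (c' t : ℝ) - c t ≤ δ := by linarith [hc2 t]
      calc ((c' t : ℝ) - c t) * ∑ m : Fin (d + 1 + 1), (B j m : ℝ) * (t : ℝ) ^ (m : ℕ)
          ≤ ((c' t : ℝ) - c t) * |∑ m : Fin (d + 1 + 1), (B j m : ℝ) * (t : ℝ) ^ (m : ℕ)| :=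
            mul_le_mul_of_nonneg_left (le_abs_self _) h3
        _ ≤ _ := mul_le_mul_of_nonneg_right h4 (abs_nonneg _)
    have h5 : (0 : ℝ) < b' j := by
      rw [h1]
      have := hδ2 j
      linarith
    exact_mod_cast h5
  have hsol : ∀ m : Fin (d + 1 + 1), ∑ j : Fin (d + 1 + 1), b' j * ((j : ℕ) : ℚ) ^ (m : ℕ) =
      gm m - ∑ t ∈ T, c' t * t ^ (m : ℕ) := by
    intro m
    simp only [hb', Finset.sum_mul]
    rw [Finset.sum_comm]
    have : ∀ y : Fin (d + 1 + 1), ∑ x : Fin (d + 1 + 1),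
        B x y * (gm y - ∑ t ∈ T, c' t * t ^ (y : ℕ)) * ((x : ℕ) : ℚ) ^ (m : ℕ) =
        (if m = y then 1 else 0) * (gm y - ∑ t ∈ T, c' t * t ^ (y : ℕ)) := by
      intro y
      rw [← hB1 m y, Finset.sum_mul]
      exact Finset.sum_congr rfl fun x _ => by ring
    rw [Finset.sum_congr rfl fun y _ => this y]
    simp
  set N : Finset ℚ := Finset.univ.image (fun j : Fin (d + 1 + 1) => ((j : ℕ) : ℚ)) with hN
  have hinj : Function.Injective (fun j : Fin (d + 1 + 1) => ((j : ℕ) : ℚ)) := by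
    intro a b hab
    have hab' : ((a : ℕ) : ℚ) = ((b : ℕ) : ℚ) := hab
    exact Fin.ext (by exact_mod_cast hab')
  refine ⟨T ∪ N, fun t => (if t ∈ T then c' t else 0) +
    ∑ j : Fin (d + 1 + 1), if ((j : ℕ) : ℚ) = t then b' j else 0, ?_, ?_, ?_⟩
  · intro t ht
    have hnn : 0 ≤ ∑ j : Fin (d + 1 + 1), if ((j : ℕ) : ℚ) = t then b' j else 0 :=
      Finset.sum_nonneg fun j _ => by split_ifs; exacts [(hb'pos j).le, le_rfl]
    by_cases h1 : t ∈ T
    · simp only [h1, if_true]
      have := hc'pos t h1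
      linarith
    · rcases Finset.mem_union.mp ht with h2 | h2
      · exact absurd h2 h1
      · obtain ⟨j, _, hj⟩ := Finset.mem_image.mp h2
        simp only [h1, if_false, zero_add]
        refine Finset.sum_pos' (fun i _ => by split_ifs; exacts [(hb'pos i).le, le_rfl])
          ⟨j, Finset.mem_univ _, ?_⟩
        rw [if_pos hj]
        exact hb'pos j
  · have h1 : N.card = d + 1 + 1 := by
      rw [hN, Finset.card_image_of_injective _ hinj, Finset.card_univ, Fintype.card_fin]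
    have h2 := Finset.card_le_card (Finset.subset_union_right : N ⊆ T ∪ N)
    omega
  · intro m hm
    have h1 := hsol ⟨m, by omega⟩
    simp only at h1
    simp only [add_mul, Finset.sum_add_distrib]
    have h2 : ∑ t ∈ T ∪ N, (if t ∈ T then c' t else 0) * t ^ m = ∑ t ∈ T, c' t * t ^ m := by
      rw [← Finset.sum_subset (Finset.subset_union_left : T ⊆ T ∪ N)]
      · exact Finset.sum_congr rfl fun t ht => by rw [if_pos ht]
      · intro t _ ht
        rw [if_neg ht, zero_mul]
    have h3 : ∑ t ∈ T ∪ N, (∑ j : Fin (d + 1 + 1), if ((j : ℕ) : ℚ) = t then b' j else 0) * t ^ m =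
        ∑ j : Fin (d + 1 + 1), b' j * ((j : ℕ) : ℚ) ^ m := by
      simp only [Finset.sum_mul]
      rw [Finset.sum_comm]
      refine Finset.sum_congr rfl fun j _ => ?_
      rw [Finset.sum_eq_single ((j : ℕ) : ℚ)]
      · simp
      · intro t _ ht
        rw [if_neg (fun h => ht h.symm), zero_mul]
      · intro h
        exact absurd (Finset.mem_union_right _ (Finset.mem_image.mpr ⟨j, Finset.mem_univ _, rfl⟩)) h
    rw [h2, h3, h1]
    ring

end Pool.Agent.Helper51.HN
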