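import Pool.Agent.Helper51.HN.P13

set_option autoImplicit false

/-!
HN-P14: a vanishing positive combination of power vectors in a nonreal field of characteristic `0`.

Proof. `p14_mom c m` is the sequence `1, 0, c, 0, 3 c^2, ...` (moments of a Gaussian of variance `c`). For
every sum of squares `c` there is a finite positive rational measure on `K` with these moments up to
order `J`: by induction, adding a square `x * x` means convolution with the quadrature
`exists_quadrature J` scaled by `x`. For `c = -1 + 1 * 1 = 0` all moments of positive order vanish.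
Clear the denominators of the weights to get a multiset and drop the points equal to `0`. It is not
empty: two different nodes `t` of the last quadrature give different points.
-/

namespace Pool.Agent.Helper51.HN

open Finset

/-- the moments of a Gaussian of variance `c` -/
def p14_mom {K : Type*} [Field K] (c : K) : ℕ → K
  | 0 => 1
  | 1 => 0
  | (m + 2) => (m + 1) * c * p14_mom c m

theorem p14_gm {K : Type*} [Field K] [CharZero K] (x : K) :
    ∀ m, ((gm m : ℚ) : K) * x ^ m = p14_mom (x * x) m
  | 0 => by simp [gm, p14_mom]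
  | 1 => by simp [gm, p14_mom]
  | (m + 2) => by
    rw [p14_mom, ← p14_gm x m, gm]
    push_cast
    ring

theorem p14_zero {K : Type*} [Field K] (m : ℕ) (hm : 1 ≤ m) : p14_mom (0 : K) m = 0 := by
  rcases m with _ | _ | m
  · omega
  · rfl
  · simp [p14_mom]

/-- half of the recursion -/
theorem p14_half {K : Type*} [Field K] (c d : K) (k : ℕ) :
    ∑ p ∈ antidiagonal (k + 1), ((k + 1).choose p.2 : K) * (p14_mom c (p.1 + 1) * p14_mom d p.2) =
      (k + 1) * c * ∑ p ∈ antidiagonal k, (k.choose p.1 : K) * (p14_mom c p.1 * p14_mom d p.2) := by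
  rw [Finset.Nat.sum_antidiagonal_succ]
  simp only [p14_mom, zero_mul, mul_zero, zero_add]
  rw [Finset.mul_sum]
  refine Finset.sum_congr rfl fun p hp => ?_
  have h1 : p.1 + p.2 = k := by simpa using hp
  have h2 : (k + 1).choose p.2 = (k + 1).choose (p.1 + 1) := by
    rw [← Nat.choose_symm_of_eq_add (n := k + 1) (a := p.1 + 1) (b := p.2) (by omega)]
  have h3 := Nat.add_one_mul_choose_eq k p.1
  have h4 : ((k : K) + 1) * (k.choose p.1 : K) = ((k + 1).choose (p.1 + 1) : K) * ((p.1 : K) + 1) := by
    have h5 := congrArg (fun n : ℕ => (n : K)) h3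
    push_cast at h5
    exact h5
  rw [h2]
  linear_combination (-(c * p14_mom c p.1 * p14_mom d p.2)) * h4

theorem p14_conv {K : Type*} [Field K] (c d : K) : ∀ m,
    ∑ p ∈ antidiagonal m, (m.choose p.1 : K) * (p14_mom c p.1 * p14_mom d p.2) = p14_mom (c + d) m
  | 0 => by simp [p14_mom]
  | 1 => by simp [p14_mom, Finset.Nat.sum_antidiagonal_succ]
  | (k + 2) => by
    have h := Finset.sum_antidiagonal_choose_succ_mul (R := K)
      (fun i j => p14_mom c i * p14_mom d j) (k + 1)
    have h1 := p14_half c d k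
    have h2 := p14_half d c k
    have h3 : ∑ p ∈ antidiagonal (k + 1), ((k + 1).choose p.1 : K) *
        (p14_mom c p.1 * p14_mom d (p.2 + 1)) =
        ∑ p ∈ antidiagonal (k + 1), ((k + 1).choose p.2 : K) *
        (p14_mom d (p.1 + 1) * p14_mom c p.2) := by
      rw [← Finset.Nat.sum_antidiagonal_swap]
      refine Finset.sum_congr rfl fun p _ => ?_
      simp only [Prod.fst_swap, Prod.snd_swap]
      ring
    have h4 : ∑ p ∈ antidiagonal k, (k.choose p.1 : K) * (p14_mom d p.1 * p14_mom c p.2) =
        ∑ p ∈ antidiagonal k, (k.choose p.1 : K) * (p14_mom c p.1 * p14_mom d p.2) := by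
      rw [← Finset.Nat.sum_antidiagonal_swap]
      refine Finset.sum_congr rfl fun p hp => ?_
      have h5 : p.1 + p.2 = k := by simpa using hp
      have h6 : k.choose p.2 = k.choose p.1 := by
        rw [Nat.choose_symm_of_eq_add (n := k) (a := p.2) (b := p.1) (by omega)]
      simp only [Prod.fst_swap, Prod.snd_swap]
      rw [h6]
      ring
    have ih := p14_conv c d k
    rw [h, h3, h2, h4, h1, ih, p14_mom]
    ring

theorem p14_step {K : Type*} [Field K] [CharZero K] (J : ℕ) (c x : K) (s : Finset ℚ) (v : ℚ → ℚ)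
    (hs : ∀ m ≤ J, ∑ t ∈ s, v t * t ^ m = gm m)
    (ι : Type) (hι : Fintype ι) (w : ι → ℚ) (b : ι → K)
    (hb : ∀ m ≤ J, ∑ i, (w i : K) * b i ^ m = p14_mom c m) (m : ℕ) (hm : m ≤ J) :
    ∑ i : ι × s, ((w i.1 * v i.2 : ℚ) : K) * (b i.1 + (i.2 : ℚ) * x) ^ m =
      p14_mom (c + x * x) m := by
  rw [← p14_conv, Fintype.sum_prod_type]
  have h1 : ∀ i : ι, ∀ t : s, ((w i * v t : ℚ) : K) * (b i + ((t : ℚ) : K) * x) ^ m =
      ∑ p ∈ antidiagonal m, (m.choose p.1 : K) * (((w i : ℚ) : K) * b i ^ p.1 *
        (((v t : ℚ) : K) * (((t : ℚ) : K) * x) ^ p.2)) := by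
    intro i t
    rw [Commute.add_pow' (Commute.all _ _), Finset.mul_sum]
    refine Finset.sum_congr rfl fun p _ => ?_
    push_cast
    rw [nsmul_eq_mul]
    ring
  simp only [h1]
  have h2 : ∀ i : ι, ∑ t : s, ∑ p ∈ antidiagonal m, (m.choose p.1 : K) * (((w i : ℚ) : K) *
      b i ^ p.1 * (((v t : ℚ) : K) * (((t : ℚ) : K) * x) ^ p.2)) =
      ∑ p ∈ antidiagonal m, (m.choose p.1 : K) * (((w i : ℚ) : K) * b i ^ p.1 *
        p14_mom (x * x) p.2) := by
    intro i
    rw [Finset.sum_comm]
    refine Finset.sum_congr rfl fun p hp => ?_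
    have h3 : p.1 + p.2 = m := by simpa using hp
    rw [← Finset.mul_sum, ← Finset.mul_sum]
    congr 2
    rw [← p14_gm x p.2, ← hs p.2 (by omega)]
    push_cast
    rw [Finset.sum_mul, ← Finset.sum_coe_sort s (fun t => (v t : K) * (t : K) ^ p.2 * x ^ p.2)]
    refine Finset.sum_congr rfl fun t _ => ?_
    rw [mul_pow]
    ring
  simp only [h2]
  rw [Finset.sum_comm]
  refine Finset.sum_congr rfl fun p hp => ?_
  have h3 : p.1 + p.2 = m := by simpa using hp
  rw [← Finset.mul_sum, ← Finset.sum_mul, hb p.1 (by omega)]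

theorem p14_meas {K : Type*} [Field K] [CharZero K] (J : ℕ) (c : K) (hc : IsSumSq c) :
    ∃ (ι : Type) (_ : Fintype ι) (_ : Nonempty ι) (w : ι → ℚ) (b : ι → K), (∀ i, 0 < w i) ∧
      ∀ m ≤ J, ∑ i, (w i : K) * b i ^ m = p14_mom c m := by
  obtain ⟨s, v, hv, hcard, hs⟩ := exists_quadrature J
  induction hc with
  | zero =>
    refine ⟨Unit, inferInstance, inferInstance, fun _ => 1, fun _ => 0, fun _ => one_pos, ?_⟩
    intro m _
    rcases Nat.eq_zero_or_pos m with h | h
    · subst h
      simp [p14_mom]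
    · rw [p14_zero m h]
      simp [h.ne']
  | @sq_add x c _ ih =>
    obtain ⟨ι, hι, hne, w, b, hw, hb⟩ := ih
    have hsne : Nonempty s := by
      have : s.Nonempty := Finset.card_pos.mp (by omega)
      exact this.to_subtype
    refine ⟨ι × s, inferInstance, inferInstance, fun i => w i.1 * v i.2,
      fun i => b i.1 + ((i.2 : ℚ) : K) * x, fun i => mul_pos (hw _) (hv _ i.2.2), ?_⟩
    intro m hm
    have := p14_step J c x s v hs ι hι w b hb m hm
    rw [add_comm (x * x) c, ← this]

theorem exists_relation {K : Type*} [Field K] [CharZero K] (hK : IsSumSq (-1 : K)) (J : ℕ) :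
    ∃ A : Multiset K, A ≠ 0 ∧ (0 : K) ∉ A ∧
      ∀ m, 1 ≤ m → m ≤ J → (A.map (fun a => a ^ m)).sum = 0 := by
  classical
  obtain ⟨ι, hι, hne, w, b, hw, hb⟩ := p14_meas J (-1 : K) hK
  obtain ⟨s, v, hv, hcard, hs⟩ := exists_quadrature J
  have hstep := p14_step J (-1 : K) 1 s v hs ι hι w b hb
  have h0 : (-1 : K) + 1 * 1 = 0 := by ring
  rw [h0] at hstep
  set W : ι × s → ℚ := fun i => w i.1 * v i.2 with hW
  set B : ι × s → K := fun i => b i.1 + ((i.2 : ℚ) : K) * 1 with hB
  have hWpos : ∀ i, 0 < W i := fun i => mul_pos (hw _) (hv _ i.2.2)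
  -- a nonzero point
  obtain ⟨j, hj⟩ : ∃ j, B j ≠ 0 := by
    obtain ⟨t, ht, t', ht', hne'⟩ := Finset.one_lt_card.mp (show 1 < s.card by omega)
    obtain ⟨i⟩ := hne
    by_contra hcon
    push Not at hcon
    have h1 := hcon (i, ⟨t, ht⟩)
    have h2 := hcon (i, ⟨t', ht'⟩)
    simp only [hB, mul_one] at h1 h2
    apply hne'
    have h3 : (t : K) = (t' : K) := by linear_combination h1 - h2
    exact_mod_cast h3
  -- denominators
  set N : ℕ := ∏ i, (W i).den with hN
  have hNpos : 0 < N := Finset.prod_pos fun i _ => (W i).pos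
  have hn : ∀ i, ∃ n : ℕ, 0 < n ∧ (n : ℚ) = N * W i := by
    intro i
    obtain ⟨q, hq⟩ := Finset.dvd_prod_of_mem (fun i => (W i).den) (Finset.mem_univ i)
    have h1 : 0 < (W i).num := Rat.num_pos.mpr (hWpos i)
    have h2 : ((N : ℕ) : ℚ) = (W i).den * q := by
      have : N = (W i).den * q := hq
      rw [this]
      push_cast
      ring
    have hqpos : 0 < q := by
      rcases Nat.eq_zero_or_pos q with h | h
      · exfalso
        have : N = (W i).den * q := hq
        rw [h, mul_zero] at this
        omega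
      · exact h
    refine ⟨q * (W i).num.toNat, Nat.mul_pos hqpos (by omega), ?_⟩
    have h3 : (((W i).num.toNat : ℕ) : ℚ) = ((W i).num : ℚ) := by
      have : (((W i).num.toNat : ℕ) : ℤ) = (W i).num := Int.toNat_of_nonneg h1.le
      exact_mod_cast this
    push_cast
    rw [h3, h2]
    have h4 := Rat.mul_den_eq_num (W i)
    linear_combination (-(q : ℚ)) * h4
  choose n hnpos hnW using hn
  set A0 : Multiset K := ∑ i, Multiset.replicate (n i) (B i) with hA0
  refine ⟨A0.filter (fun a => a ≠ 0), ?_, ?_, ?_⟩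
  · intro h
    have h1 : B j ∈ A0.filter (fun a => a ≠ 0) := by
      rw [Multiset.mem_filter]
      refine ⟨?_, hj⟩
      rw [hA0, Multiset.mem_sum]
      exact ⟨j, Finset.mem_univ _, Multiset.mem_replicate.mpr ⟨(hnpos j).ne', rfl⟩⟩
    rw [h] at h1
    exact Multiset.notMem_zero _ h1
  · intro h
    rw [Multiset.mem_filter] at h
    exact h.2 rfl
  · intro m hm1 hm2
    have h1 : ((A0.filter (fun a => a ≠ 0)).map (fun a => a ^ m)).sum =
        (A0.map (fun a => a ^ m)).sum := by
      have h2 := Multiset.filter_add_not (fun a : K => a ≠ 0) A0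
      conv_rhs => rw [← h2]
      rw [Multiset.map_add, Multiset.sum_add]
      have h3 : ((A0.filter (fun a => ¬ a ≠ 0)).map (fun a => a ^ m)).sum = 0 := by
        apply Multiset.sum_eq_zero
        intro y hy
        rw [Multiset.mem_map] at hy
        obtain ⟨a, ha, rfl⟩ := hy
        rw [Multiset.mem_filter] at ha
        have : a = 0 := by simpa using ha.2
        rw [this, zero_pow (by omega)]
      rw [h3, add_zero]
    rw [h1, hA0]
    have h4 : (Multiset.map (fun a => a ^ m) (∑ i, Multiset.replicate (n i) (B i))).sum =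
        ∑ i, (n i : K) * B i ^ m := by
      have h5 := map_sum (Multiset.mapAddMonoidHom (fun a : K => a ^ m))
        (fun i => Multiset.replicate (n i) (B i)) Finset.univ
      simp only [Multiset.coe_mapAddMonoidHom] at h5
      rw [h5, Multiset.sum_sum]
      refine Finset.sum_congr rfl fun i _ => ?_
      simp [Multiset.map_replicate, Multiset.sum_replicate]
    rw [h4]
    have h6 : ∀ i, (n i : K) = (N : K) * ((W i : ℚ) : K) := by
      intro i
      have := hnW i
      have h7 : ((n i : ℚ) : K) = ((N * W i : ℚ) : K) := by rw [this]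
      push_cast at h7
      exact_mod_cast h7
    simp only [h6, mul_assoc]
    rw [← Finset.mul_sum]
    have h8 := hstep m hm2
    rw [p14_zero m hm1] at h8
    rw [h8, mul_zero]

end Pool.Agent.Helper51.HN
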