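import Mathlib

set_option autoImplicit false

/-!
HN-P15: many simple elements and the size modulo `p`.

Proof. Call a multiset `R` of nonzero elements of `K` with vanishing power sums of orders `1, ..., J` a
relation; sums of relations and `R.map (λ * ·)` (`λ ≠ 0`) are relations. Work with multiplicities
`K → ℤ` if convenient. Finite differences: for `m ≤ J` and all `x`,
`∑_(i=0)^(J+1) (-1)^i C(J+1, i) (x + i)^m = 0` (`m = 0` included).
Fix `a₁ ∈ A`.
(1) Choose `x ∈ K` with `x ≠ 0`, `x ∉ {-i}`, and `x ≠ (x + i) ρ` for all `1 ≤ i ≤ J+1` and `ρ = a / a₁`,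
`a ∈ A` (finitely many values excluded: for `ρ = 1` nothing, otherwise `x ≠ i ρ / (1 - ρ)`). Let
`R₀ = ∑_(i odd) A.map ((x + i)/a₁ * ·)`: contains all `x + i`, `i` odd, not `x`. Then
`R₁ = p N • R₀ + ∑_i (-1)^i C(J+1, i) [x + i]` (`N` large, e.g. `N = 2^(J+1)`) is a relation (nonnegative
multiplicities) in which `x` has multiplicity exactly `1`, and `p ∣ card R₁`.
(2) `R₂ = ∑_(l=1)^J R₁.map (λ_l * ·)` with `λ_l ≠ 0` such that the ratios `λ_l / λ_(l')` avoid the finite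
set `{a / x, x / a : a ∈ R₁}` (so that the `J` elements `β_l = λ_l x` are distinct and have multiplicity
`1` in `R₂`). `p ∣ card R₂`.
(3) With `x = 0`: `∑_(i=1)^(J+1) (-1)^i C(J+1, i) i^m = 0` for `1 ≤ m ≤ J`, while for `m = 0` it is `-1`. So
`R₃ = p N • ∑_(i odd) A.map (i / a₁ * ·) + ∑_(i=1)^(J+1) (-1)^i C(J+1,i) [i]` is a relation with
`card R₃ ≡ -1` modulo `p`.
(4) The answer: `R₂ + R₃.map (μ * ·)` with `μ ≠ 0` such that no `β_l` lies in `R₃.map (μ * ·)`; `s` is the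
set of the `β_l`, `B` the rest. `card B + J ≡ -1` modulo `p`. (`J < card B + J` since `B ≠ 0`.)
-/

namespace Pool.Agent.Helper51.HN

open Finset

/-- The signed binomial coefficient. -/
def p15_c (J : ℕ) (k : ℕ) : ℤ := (-1) ^ (J + 1) * ((-1) ^ (J + 1 - k) * ((J + 1).choose k : ℤ))

theorem p15_c_zero (J : ℕ) : p15_c J 0 = 1 := by
  unfold p15_c
  rw [Nat.sub_zero, Nat.choose_zero_right, Nat.cast_one, mul_one, ← mul_pow]
  norm_num

theorem p15_diff {K : Type*} [Field K] (J m : ℕ) (hm : m ≤ J) (x : K) :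
    ∑ i ∈ range (J + 1), (p15_c J (i + 1) : K) * (x + ((i + 1 : ℕ) : K)) ^ m = - x ^ m := by
  have h := congrFun (fwdDiff_iter_pow_eq_zero_of_lt (R := K) (j := m) (n := J + 1) (by omega)) x
  rw [fwdDiff_iter_eq_sum_shift] at h
  have h2 : ∑ k ∈ range (J + 1 + 1), (p15_c J k : K) * (x + ((k : ℕ) : K)) ^ m = 0 := by
    have h3 := congrArg (fun t : K => (-1 : K) ^ (J + 1) * t) h
    simp only [Pi.zero_apply, mul_zero, mul_sum] at h3
    rw [← h3]
    refine sum_congr rfl (fun k _ => ?_)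
    unfold p15_c
    simp only [zsmul_eq_mul, nsmul_eq_mul, mul_one]
    push_cast
    ring
  rw [sum_range_succ'] at h2
  have h4 : (p15_c J 0 : K) = 1 := by rw [p15_c_zero]; simp
  rw [h4] at h2
  simp only [Nat.cast_zero, add_zero, one_mul] at h2
  exact eq_neg_of_add_eq_zero_left h2

theorem p15_diff0 (J : ℕ) : ∑ i ∈ range (J + 1), p15_c J (i + 1) = -1 := by
  have h := p15_diff (K := ℚ) J 0 (Nat.zero_le _) 0
  simp only [pow_zero, mul_one] at h
  exact_mod_cast h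

theorem p15_sum_map {ι K : Type*} [Field K] (s : Finset ι) (M : ι → Multiset K) (f : K → K) :
    ((∑ i ∈ s, M i).map f).sum = ∑ i ∈ s, ((M i).map f).sum := by
  classical
  induction s using Finset.induction_on with
  | empty => simp
  | insert a s ha ih => rw [sum_insert ha, sum_insert ha, Multiset.map_add, Multiset.sum_add, ih]

theorem p15_sum_card {ι K : Type*} (s : Finset ι) (M : ι → Multiset K) :
    Multiset.card (∑ i ∈ s, M i) = ∑ i ∈ s, Multiset.card (M i) := by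
  classical
  induction s using Finset.induction_on with
  | empty => simp
  | insert a s ha ih => rw [sum_insert ha, sum_insert ha, Multiset.card_add, ih]

theorem p15_sum_mem {ι K : Type*} (s : Finset ι) (M : ι → Multiset K) (z : K) :
    z ∈ (∑ i ∈ s, M i) ↔ ∃ i ∈ s, z ∈ M i := by
  classical
  induction s using Finset.induction_on with
  | empty => simp
  | insert a s ha ih => rw [sum_insert ha, Multiset.mem_add, ih]; simp

theorem p15_mul_sum {K : Type*} [Field K] (M : Multiset K) (t : K) (m : ℕ) :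
    ((M.map (fun z => t * z)).map (fun b => b ^ m)).sum = t ^ m * (M.map (fun b => b ^ m)).sum := by
  rw [Multiset.map_map, ← Multiset.sum_map_mul_left]
  congr 1
  refine Multiset.map_congr rfl (fun z _ => ?_)
  simp only [Function.comp, mul_pow]

theorem p15_one {K : Type*} [Field K] (J p : ℕ) (hp : p.Prime) (A : Multiset K) (a₁ : K)
    (ha₁ : a₁ ∈ A) (h0 : (0 : K) ∉ A)
    (hm : ∀ m, 1 ≤ m → m ≤ J → (A.map (fun a => a ^ m)).sum = 0) (y : K) (c : ℤ) :
    ∃ M : Multiset K, (∀ z ∈ M, ∃ a ∈ A, z = y / a₁ * a) ∧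
      (∀ m, 1 ≤ m → m ≤ J → (M.map (fun b => b ^ m)).sum = (c : K) * y ^ m) ∧
      (p : ℤ) ∣ (Multiset.card M : ℤ) - c := by
  classical
  have ha0 : a₁ ≠ 0 := fun h => h0 (h ▸ ha₁)
  have hk : 0 ≤ c + (c.natAbs * p : ℕ) := by
    have h1 : (1 : ℤ) ≤ (p : ℤ) := by exact_mod_cast hp.one_lt.le
    push_cast
    nlinarith [abs_nonneg c, neg_abs_le c, Int.natCast_natAbs c]
  obtain ⟨n, hn⟩ := Int.eq_ofNat_of_zero_le hk
  refine ⟨Multiset.replicate n y + (c.natAbs * p) • (A.erase a₁).map (fun z => y / a₁ * z),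
    ?_, ?_, ?_⟩
  · intro z hz
    rcases Multiset.mem_add.1 hz with hz | hz
    · refine ⟨a₁, ha₁, ?_⟩
      rw [Multiset.eq_of_mem_replicate hz]
      field_simp
    · have hz' := Multiset.mem_of_mem_nsmul hz
      obtain ⟨a, ha, rfl⟩ := Multiset.mem_map.1 hz'
      exact ⟨a, Multiset.mem_of_mem_erase ha, rfl⟩
  · intro m h1 h2
    have h3 : (A.map (fun a => a ^ m)).sum = a₁ ^ m + ((A.erase a₁).map (fun a => a ^ m)).sum := by
      conv_lhs => rw [← Multiset.cons_erase ha₁]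
      rw [Multiset.map_cons, Multiset.sum_cons]
    rw [hm m h1 h2] at h3
    rw [Multiset.map_add, Multiset.sum_add, Multiset.map_replicate, Multiset.sum_replicate,
      Multiset.map_nsmul, Multiset.sum_nsmul, p15_mul_sum]
    have h4 : ((A.erase a₁).map (fun a => a ^ m)).sum = - a₁ ^ m := by
      linear_combination -h3
    rw [h4]
    have h5 : (y / a₁) ^ m * (- a₁ ^ m) = - y ^ m := by
      rw [div_pow]
      field_simp
    rw [h5]
    have h6 : (n : K) = (c : K) + ((c.natAbs * p : ℕ) : K) := by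
      have := congrArg (fun t : ℤ => (t : K)) hn
      simp only [Int.cast_add, Int.cast_natCast] at this
      exact this.symm
    rw [nsmul_eq_mul, nsmul_eq_mul, h6]
    ring
  · rw [Multiset.card_add, Multiset.card_replicate, Multiset.card_nsmul, Multiset.card_map]
    refine ⟨(c.natAbs : ℤ) + (c.natAbs : ℤ) * (Multiset.card (A.erase a₁) : ℤ), ?_⟩
    have hn' : (n : ℤ) = c + (c.natAbs * p : ℕ) := hn.symm
    push_cast at hn' ⊢
    rw [hn']
    ring

theorem p15_G {K : Type*} [Field K] (J p : ℕ) (hp : p.Prime) (A : Multiset K) (a₁ : K)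
    (ha₁ : a₁ ∈ A) (h0 : (0 : K) ∉ A)
    (hm : ∀ m, 1 ≤ m → m ≤ J → (A.map (fun a => a ^ m)).sum = 0) (x : K) :
    ∃ M : Multiset K, (∀ z ∈ M, ∃ i ∈ range (J + 1), ∃ a ∈ A,
        z = (x + ((i + 1 : ℕ) : K)) / a₁ * a) ∧
      (∀ m, 1 ≤ m → m ≤ J → (M.map (fun b => b ^ m)).sum = - x ^ m) ∧
      (p : ℤ) ∣ (Multiset.card M : ℤ) + 1 := by
  choose M h1 h2 h3 using fun i : ℕ =>
    p15_one J p hp A a₁ ha₁ h0 hm (x + ((i + 1 : ℕ) : K)) (p15_c J (i + 1))
  refine ⟨∑ i ∈ range (J + 1), M i, ?_, ?_, ?_⟩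
  · intro z hz
    obtain ⟨i, hi, hz⟩ := (p15_sum_mem _ _ _).1 hz
    exact ⟨i, hi, h1 i z hz⟩
  · intro m hm1 hm2
    rw [p15_sum_map, sum_congr rfl (fun i _ => h2 i m hm1 hm2), p15_diff J m hm2 x]
  · rw [p15_sum_card]
    have h4 : (((∑ i ∈ range (J + 1), Multiset.card (M i) : ℕ) : ℤ) + 1)
        = ∑ i ∈ range (J + 1), ((Multiset.card (M i) : ℤ) - p15_c J (i + 1)) := by
      rw [sum_sub_distrib, p15_diff0]
      push_cast
      ring
    rw [h4]
    exact dvd_sum (fun i _ => h3 i)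

theorem p15_s {K : Type*} [Field K] [Infinite K] (T : Finset K) (h1 : (1 : K) ∉ T) (J : ℕ) :
    ∃ s : Finset K, s.card = J ∧ (0 : K) ∉ s ∧ ∀ b ∈ s, ∀ c ∈ T, b * c ∉ s := by
  classical
  induction J with
  | zero => exact ⟨∅, rfl, by simp, by simp⟩
  | succ J ih =>
    obtain ⟨s, hs1, hs2, hs3⟩ := ih
    obtain ⟨b, hb⟩ := Infinite.exists_notMem_finset
      (s ∪ {0} ∪ (s ×ˢ T).image (fun q => q.1 * q.2) ∪ (s ×ˢ T).image (fun q => q.1 / q.2))
    simp only [mem_union, mem_singleton, mem_image, mem_product, not_or] at hb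
    obtain ⟨⟨⟨hb1, hb2⟩, hb3⟩, hb4⟩ := hb
    refine ⟨insert b s, ?_, ?_, ?_⟩
    · rw [card_insert_of_notMem hb1, hs1]
    · rw [mem_insert, not_or]
      exact ⟨fun h => hb2 h.symm, hs2⟩
    · intro b' hb' c hc hmem
      rcases mem_insert.1 hb' with rfl | hb'
      · rcases mem_insert.1 hmem with h | h
        · have : c = 1 := by
            have h5 : b' * c = b' * 1 := by rw [h, mul_one]
            exact mul_left_cancel₀ hb2 h5
          exact h1 (this ▸ hc)
        · have hc0 : c ≠ 0 := by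
            rintro rfl
            rw [mul_zero] at h
            exact hs2 h
          exact hb4 ⟨(b' * c, c), ⟨h, hc⟩, by field_simp⟩
      · rcases mem_insert.1 hmem with h | h
        · exact hb3 ⟨(b', c), ⟨hb', hc⟩, h⟩
        · exact hs3 b' hb' c hc h

theorem exists_simple {K : Type*} [Field K] [CharZero K] (J p : ℕ) (hp : p.Prime)
    (A : Multiset K) (hA : A ≠ 0) (h0 : (0 : K) ∉ A)
    (hm : ∀ m, 1 ≤ m → m ≤ J → (A.map (fun a => a ^ m)).sum = 0) :
    ∃ (B : Multiset K) (s : Finset K), s.card = J ∧ (0 : K) ∉ B ∧ (0 : K) ∉ s ∧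
      (∀ b ∈ B, b ∉ s) ∧ ¬ p ∣ Multiset.card B + J ∧ 1 ≤ Multiset.card B ∧
      ∀ m, 1 ≤ m → m ≤ J → (B.map (fun b => b ^ m)).sum + ∑ b ∈ s, b ^ m = 0 := by
  classical
  obtain ⟨a₁, ha₁⟩ := Multiset.exists_mem_of_ne_zero hA
  have ha0 : a₁ ≠ 0 := fun h => h0 (h ▸ ha₁)
  have : Infinite K := CharZero.infinite K
  have hnat : ∀ i : ℕ, ((i + 1 : ℕ) : K) ≠ 0 := fun i => Nat.cast_ne_zero.2 (Nat.succ_ne_zero i)
  -- the relation R₃
  obtain ⟨R, hR1, hR2, hR3⟩ := p15_G J p hp A a₁ ha₁ h0 hm (0 : K)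
  have hR0 : (0 : K) ∉ R := by
    intro h
    obtain ⟨i, _, a, ha, h⟩ := hR1 0 h
    rw [zero_add] at h
    have ha' : a ≠ 0 := fun h' => h0 (h' ▸ ha)
    exact mul_ne_zero (div_ne_zero (hnat i) ha0) ha' h.symm
  -- the generic element x
  obtain ⟨x, hx⟩ := Infinite.exists_notMem_finset
    ({(0 : K)} ∪ (range (J + 1)).image (fun i : ℕ => -((i + 1 : ℕ) : K)) ∪
      (range (J + 1) ×ˢ A.toFinset).image (fun q => ((q.1 + 1 : ℕ) : K) * q.2 / (a₁ - q.2)))
  simp only [mem_union, mem_singleton, mem_image, mem_product, not_or, Multiset.mem_toFinset] at hx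
  obtain ⟨⟨hx1, hx2⟩, hx3⟩ := hx
  obtain ⟨M, hM1, hM2, hM3⟩ := p15_G J p hp A a₁ ha₁ h0 hm x
  have hM0 : (0 : K) ∉ M := by
    intro h
    obtain ⟨i, hi, a, ha, h⟩ := hM1 0 h
    have ha' : a ≠ 0 := fun h' => h0 (h' ▸ ha)
    have hxi : x + ((i + 1 : ℕ) : K) ≠ 0 := by
      intro h'
      exact hx2 ⟨i, hi, (eq_neg_of_add_eq_zero_left h').symm⟩
    exact mul_ne_zero (div_ne_zero hxi ha0) ha' h.symm
  have hMx : x ∉ M := by
    intro h
    obtain ⟨i, hi, a, ha, h⟩ := hM1 x h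
    have h6 : x * a₁ = (x + ((i + 1 : ℕ) : K)) * a := by
      conv_lhs => rw [h]
      field_simp
    by_cases haa : a₁ - a = 0
    · have : a = a₁ := (sub_eq_zero.1 haa).symm
      rw [this] at h6
      have h7 := mul_right_cancel₀ ha0 h6
      have h8 : ((i + 1 : ℕ) : K) = 0 := by linear_combination -h7
      exact hnat i h8
    · refine hx3 ⟨(i, a), ⟨hi, ha⟩, ?_⟩
      simp only
      rw [div_eq_iff haa]
      linear_combination -h6
  -- T
  set T : Multiset K := M.map (fun z => x⁻¹ * z) with hT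
  have hT0 : (0 : K) ∉ T := by
    intro h
    obtain ⟨z, hz, h⟩ := Multiset.mem_map.1 h
    rcases mul_eq_zero.1 h with h | h
    · exact hx1 (inv_eq_zero.1 h)
    · exact hM0 (h ▸ hz)
  have hT1 : (1 : K) ∉ T := by
    intro h
    obtain ⟨z, hz, h⟩ := Multiset.mem_map.1 h
    have : z = x := by
      field_simp at h
      exact h
    exact hMx (this ▸ hz)
  have hTs : ∀ m, 1 ≤ m → m ≤ J → (T.map (fun b => b ^ m)).sum = -1 := by
    intro m h1 h2
    rw [hT, p15_mul_sum, hM2 m h1 h2, inv_pow]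
    field_simp
  have hTc : (p : ℤ) ∣ (Multiset.card T : ℤ) + 1 := by
    rw [hT, Multiset.card_map]
    exact hM3
  obtain ⟨s, hs1, hs2, hs3⟩ := p15_s T.toFinset (by rwa [Multiset.mem_toFinset]) J
  obtain ⟨μ, hμ⟩ := Infinite.exists_notMem_finset
    ({(0 : K)} ∪ (s ×ˢ R.toFinset).image (fun q => q.1 / q.2))
  simp only [mem_union, mem_singleton, mem_image, mem_product, not_or, Multiset.mem_toFinset] at hμ
  obtain ⟨hμ1, hμ2⟩ := hμ
  have hcardR : 1 ≤ Multiset.card R := by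
    by_contra h
    have h' : Multiset.card R = 0 := by omega
    rw [h'] at hR3
    have h7 : (p : ℤ) ∣ 1 := by simpa using hR3
    have h8 : p ∣ 1 := by exact_mod_cast h7
    exact hp.one_lt.ne' (Nat.dvd_one.1 h8)
  refine ⟨(∑ b ∈ s, T.map (fun z => b * z)) + R.map (fun z => μ * z), s, hs1, ?_, hs2, ?_, ?_, ?_, ?_⟩
  · intro h
    rcases Multiset.mem_add.1 h with h | h
    · obtain ⟨b, hb, h⟩ := (p15_sum_mem _ _ _).1 h
      obtain ⟨z, hz, h⟩ := Multiset.mem_map.1 h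
      rcases mul_eq_zero.1 h with h | h
      · exact hs2 (h ▸ hb)
      · exact hT0 (h ▸ hz)
    · obtain ⟨z, hz, h⟩ := Multiset.mem_map.1 h
      rcases mul_eq_zero.1 h with h | h
      · exact hμ1 h
      · exact hR0 (h ▸ hz)
  · intro w hw hws
    rcases Multiset.mem_add.1 hw with h | h
    · obtain ⟨b, hb, h⟩ := (p15_sum_mem _ _ _).1 h
      obtain ⟨z, hz, rfl⟩ := Multiset.mem_map.1 h
      exact hs3 b hb z (Multiset.mem_toFinset.2 hz) hws
    · obtain ⟨z, hz, rfl⟩ := Multiset.mem_map.1 h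
      have hz0 : z ≠ 0 := fun h' => hR0 (h' ▸ hz)
      exact hμ2 ⟨(μ * z, z), ⟨hws, hz⟩, by field_simp⟩
  · intro hdvd
    have h1 : (p : ℤ) ∣ ((Multiset.card ((∑ b ∈ s, T.map (fun z => b * z)) +
        R.map (fun z => μ * z)) + J : ℕ) : ℤ) := by exact_mod_cast hdvd
    rw [Multiset.card_add, p15_sum_card, Multiset.card_map] at h1
    simp only [Multiset.card_map, sum_const, hs1, smul_eq_mul] at h1
    push_cast at h1
    have h2 : (p : ℤ) ∣ (J : ℤ) * ((Multiset.card T : ℤ) + 1) := Dvd.dvd.mul_left hTc _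
    have h3 := dvd_sub h1 h2
    have h4 := dvd_sub hR3 h3
    have h5 : (Multiset.card R : ℤ) + 1 - (((J : ℤ) * (Multiset.card T : ℤ) +
        (Multiset.card R : ℤ) + (J : ℤ)) - (J : ℤ) * ((Multiset.card T : ℤ) + 1)) = 1 := by ring
    rw [h5] at h4
    have h8 : p ∣ 1 := by exact_mod_cast h4
    exact hp.one_lt.ne' (Nat.dvd_one.1 h8)
  · rw [Multiset.card_add, Multiset.card_map]
    omega
  · intro m h1 h2
    rw [Multiset.map_add, Multiset.sum_add, p15_sum_map, p15_mul_sum, hR2 m h1 h2]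
    have h3 : ∑ i ∈ s, ((T.map (fun z => i * z)).map (fun b => b ^ m)).sum = ∑ i ∈ s, - i ^ m := by
      refine sum_congr rfl (fun i _ => ?_)
      rw [p15_mul_sum, hTs m h1 h2]
      ring
    rw [h3, sum_neg_distrib, zero_pow (by omega)]
    ring

end Pool.Agent.Helper51.HN
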