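import Mathlib

set_option autoImplicit false

/-!
HN-P16: vanishing power sums and vanishing coefficients (characteristic `0`).

Proof. Newton's identities (`MvPolynomial.mul_esymm_eq_sum`, ...), or: let
`T = ∏_(a ∈ A) (1 - a u)` in `K[[u]]` or `K[u]` (the reversed polynomial). By induction on `A`:
`T' = - T * ∑_m p_(m+1) u^m` as power series, `p_m` the power sums; so if `p_1 = ... = p_J = 0` then
`T' ≡ 0` modulo `u^J` and, in characteristic `0`, the coefficients of `u, ..., u^J` in `T` vanish. They are
the coefficients number `card A - i` of `∏ (X - C a)`.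
-/

namespace Pool.Agent.Helper51.HN

open Polynomial

theorem p16_esymm {K : Type*} [Field K] [CharZero K] (J : ℕ) (A : Multiset K)
    (hm : ∀ m, 1 ≤ m → m ≤ J → (A.map (fun a => a ^ m)).sum = 0) :
    ∀ i, 1 ≤ i → i ≤ J → A.esymm i = 0 := by
  intro i h1 hi
  obtain ⟨L, rfl⟩ : ∃ L : List K, (L : Multiset K) = A := ⟨A.toList, by simp⟩
  have hL : (Finset.univ.val.map (fun j : Fin L.length => L.get j) : Multiset K) = (L : Multiset K) := by
    rw [Fin.univ_val_map]
    simp
  have hN := congrArg (MvPolynomial.aeval (fun j : Fin L.length => L.get j))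
    (MvPolynomial.mul_esymm_eq_sum (Fin L.length) K i)
  rw [map_mul, MvPolynomial.aeval_esymm_eq_multiset_esymm, hL, map_mul, map_sum] at hN
  have h0 : ∀ a ∈ (Finset.HasAntidiagonal.antidiagonal i).filter (fun a => a.1 < i),
      MvPolynomial.aeval (fun j : Fin L.length => L.get j)
        ((-1) ^ a.1 * MvPolynomial.esymm (Fin L.length) K a.1 * MvPolynomial.psum (Fin L.length) K a.2) = 0 := by
    intro a ha
    rw [Finset.mem_filter, Finset.HasAntidiagonal.mem_antidiagonal] at ha
    rw [map_mul]
    have : MvPolynomial.aeval (fun j : Fin L.length => L.get j) (MvPolynomial.psum (Fin L.length) K a.2) = 0 := by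
      rw [MvPolynomial.psum, map_sum]
      simp only [map_pow, MvPolynomial.aeval_X]
      have := hm a.2 (by omega) (by omega)
      rw [← hL, Multiset.map_map] at this
      exact this
    rw [this, mul_zero]
  rw [Finset.sum_eq_zero h0, mul_zero] at hN
  rw [map_natCast] at hN
  have hi0 : ((i : ℕ) : K) ≠ 0 := by
    exact_mod_cast (by omega : i ≠ 0)
  exact (mul_eq_zero.mp hN).resolve_left hi0

theorem gap_of_powerSum {K : Type*} [Field K] [CharZero K] (J : ℕ) (A : Multiset K)
    (hJ : J < Multiset.card A) (hm : ∀ m, 1 ≤ m → m ≤ J → (A.map (fun a => a ^ m)).sum = 0) :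
    ∀ i, 1 ≤ i → i ≤ J → ((A.map (fun a => X - C a)).prod).coeff (Multiset.card A - i) = 0 := by
  intro i h1 hi
  rw [Multiset.prod_X_sub_C_coeff A (by omega : Multiset.card A - i ≤ Multiset.card A)]
  have e : Multiset.card A - (Multiset.card A - i) = i := by omega
  rw [e, p16_esymm J A hm i h1 hi, mul_zero]

end Pool.Agent.Helper51.HN
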