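import Pool.Agent.Helper51.HN.Defs

set_option autoImplicit false

/-!
HN-P17: removal of multiple roots, keeping the gap.

Proof. List `B` as `b : Fin N → K` and choose `c : Fin N → K` injective (`K` is infinite). Let
`U = ∏_j (X - C (C (b j) + C (c j) * X)) : K[X][X]` (monic of degree `N`; the inner variable is the
parameter `μ`), `R = X ^ (N + J) /ₘ U` (monic of degree `J`), `T_μ = (U * R).map (evalRingHom μ)`.
`U R = X^(N+J) - (remainder)`, the remainder has degree `< N`: so the coefficients number `N + J - i`,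
`1 ≤ i ≤ J`, of `T_μ` vanish. For `μ = 0`: `U_0 = ∏ (X - C b)`, and by the gap hypothesis
`U_0 * ∏_(b ∈ s) (X - C b) = X^(N+J) + (degree < N)`, so by uniqueness of division with remainder
`R_0 = ∏_(b ∈ s) (X - C b)`, which has `J` simple roots in every `F i`; by `hpers` so has `R_μ` for
`ℱ`-almost all `μ`. For all but finitely many `μ`: the `N` elements `b j + μ c j` are distinct, `R_μ` does
not vanish at them (the polynomial `μ ↦ R_μ(b j + μ c j)` is nonzero at `μ = 0`), and `T_μ(0) ≠ 0` (nonzero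
at `μ = 0`). Then `T_μ` has `N + J` simple roots in `F i` (a root of one factor is not a root of the other).
-/

namespace Pool.Agent.Helper51.HN

open Polynomial Filter Pool.Agent.Helper51.HI

variable {K : Type*} [Field K]

/-- simple roots of a product of coprime polynomials -/
theorem p17_sr_mul {F : Type*} [Field F] [Algebra K F] {u v : K[X]} {r t : ℕ} (hu : SR F u r)
    (hv : SR F v t) (huv : IsCoprime u v) : SR F (u * v) (r + t) := by
  classical
  obtain ⟨s₁, h₁, hr₁⟩ := hu
  obtain ⟨s₂, h₂, hr₂⟩ := hv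
  have hcop : ∀ a : F, aeval a u = 0 → aeval a v = 0 → False := by
    intro a ha hb
    obtain ⟨x, y, hxy⟩ := huv
    have := congrArg (aeval a) hxy
    rw [map_add, map_mul, map_mul, ha, hb, mul_zero, mul_zero, add_zero, map_one] at this
    exact zero_ne_one this
  have hd : Disjoint s₁ s₂ := by
    rw [Finset.disjoint_left]
    intro a ha hb
    exact hcop a (hr₁ a ha).1 (hr₂ a hb).1
  refine ⟨s₁ ∪ s₂, by rw [Finset.card_union_of_disjoint hd]; omega, fun a ha => ?_⟩
  rw [derivative_mul, map_mul, map_add, map_mul, map_mul]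
  rcases Finset.mem_union.1 ha with ha | ha
  · rw [(hr₁ a ha).1, zero_mul, zero_mul, add_zero]
    exact ⟨rfl, mul_ne_zero (hr₁ a ha).2 fun h => hcop a (hr₁ a ha).1 h⟩
  · rw [(hr₂ a ha).1, mul_zero, mul_zero, zero_add]
    exact ⟨rfl, mul_ne_zero (fun h => hcop a h (hr₂ a ha).1) (hr₂ a ha).2⟩

/-- a product of distinct linear factors has that many simple roots -/
theorem p17_sr_prod {F : Type*} [Field F] [Algebra K F] {κ : Type*} (t : Finset κ) (e : κ → K)
    (he : Set.InjOn e t) : SR F (∏ k ∈ t, (X - C (e k))) t.card := by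
  have hsep : (∏ k ∈ t, (X - C (e k))).Separable := by
    refine separable_prod' ?_ fun k _ => separable_X_sub_C
    intro x hx y hy hxy
    exact pairwise_coprime_X_sub_C Function.injective_id fun h => hxy (he hx hy h)
  have hspl : ((∏ k ∈ t, (X - C (e k))).map (algebraMap K F)).Splits := by
    rw [Polynomial.map_prod]
    refine Splits.prod fun k _ => ?_
    rw [Polynomial.map_sub, map_X, map_C]
    exact Splits.X_sub_C _
  have h := sr_of_splits (F := F) _ hsep hspl
  rwa [natDegree_finsetProd_X_sub_C_eq_card] at h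

theorem p17_aux [Infinite K] (ℱ : Filter K) [ℱ.NeBot] (hcof : ℱ ≤ cofinite)
    {ι : Type*} [Finite ι] (F : ι → Type*) [∀ i, Field (F i)] [∀ i, Algebra K (F i)]
    (hpers : ∀ i, Pers ℱ (F i)) (J : ℕ) {κ : Type*} [Fintype κ] (b c : κ → K)
    (hc : Function.Injective c) (s : Finset K) (hs : s.card = J)
    (hb0 : ∀ k, b k ≠ 0) (hs0 : (0 : K) ∉ s) (hbs : ∀ k, b k ∉ s)
    (hgap : ∀ i, 1 ≤ i → i ≤ J →
      ((∏ k, (X - C (b k))) * ∏ b ∈ s, (X - C b)).coeff (Fintype.card κ + J - i) = 0) :
    ∃ T : K[X], T.Monic ∧ T.natDegree = Fintype.card κ + J ∧ T.coeff 0 ≠ 0 ∧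
      (∀ i, 1 ≤ i → i ≤ J → T.coeff (Fintype.card κ + J - i) = 0) ∧
      ∀ i, SR (F i) T (Fintype.card κ + J) := by
  classical
  set N := Fintype.card κ with hN
  let ℓ : κ → K[X] := fun k => C (b k) + C (c k) * X
  set U : K[X][X] := ∏ k, (X - C (ℓ k)) with hU
  have hUm : U.Monic := monic_prod_of_monic _ _ fun k _ => monic_X_sub_C _
  have hUd : U.natDegree = N := by
    rw [hU, natDegree_prod_of_monic _ _ fun k _ => monic_X_sub_C _]
    simp [hN]
  have hUdeg : U.degree = N := by rw [degree_eq_natDegree hUm.ne_zero, hUd]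
  set R : K[X][X] := X ^ (N + J) /ₘ U with hR
  have hXdeg : (X ^ (N + J) : K[X][X]).degree = ((N + J : ℕ) : WithBot ℕ) := degree_X_pow _
  have hRm : R.Monic := by
    rw [Monic, hR, leadingCoeff_divByMonic_of_monic hUm, leadingCoeff_X_pow]
    rw [hUdeg, hXdeg]
    exact_mod_cast Nat.le_add_right N J
  have hRd : R.natDegree = J := by
    rw [hR, natDegree_divByMonic _ hUm, natDegree_X_pow, hUd]
    omega
  set r : K[X][X] := X ^ (N + J) %ₘ U with hr
  have hrd : r.degree < N := by
    rw [← hUdeg]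
    exact degree_modByMonic_lt _ hUm
  have hUR : U * R = X ^ (N + J) - r := by
    have := modByMonic_add_div (X ^ (N + J) : K[X][X]) U
    rw [← hr, ← hR] at this
    rw [← this]
    ring
  have hev : ∀ (P : K[X][X]) (q : K[X]) (μ : K),
      (P.map (evalRingHom μ)).eval (q.eval μ) = (P.eval q).eval μ := by
    intro P q μ
    have := Polynomial.eval₂_at_apply (p := P) (evalRingHom μ) q
    rw [coe_evalRingHom] at this
    rw [eval_map]
    exact this
  have hUμ : ∀ μ : K, U.map (evalRingHom μ) = ∏ k, (X - C (b k + c k * μ)) := by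
    intro μ
    rw [hU, Polynomial.map_prod]
    refine Finset.prod_congr rfl fun k _ => ?_
    rw [Polynomial.map_sub, map_X, map_C]
    simp [ℓ]
  have hU0 : U.map (evalRingHom 0) = ∏ k, (X - C (b k)) := by
    rw [hUμ]
    simp
  have hR0 : R.map (evalRingHom 0) = ∏ a ∈ s, (X - C a) := by
    rw [hR, map_divByMonic _ hUm, Polynomial.map_pow, map_X, hU0]
    set U0 : K[X] := ∏ k, (X - C (b k)) with hU0'
    set S : K[X] := ∏ a ∈ s, (X - C a) with hS
    have hU0m : U0.Monic := monic_prod_of_monic _ _ fun k _ => monic_X_sub_C _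
    have hU0d : U0.natDegree = N := by
      rw [← hU0, hUm.natDegree_map, hUd]
    have hSm : S.Monic := monic_prod_of_monic _ _ fun k _ => monic_X_sub_C _
    have hSd : S.natDegree = J := by
      rw [hS, ← hs]
      exact natDegree_finsetProd_X_sub_C_eq_card _ _
    have hUS : (U0 * S).Monic := hU0m.mul hSm
    have hUSd : (U0 * S).natDegree = N + J := by rw [hU0m.natDegree_mul hSm, hU0d, hSd]
    have hrem : (X ^ (N + J) - U0 * S).degree < U0.degree := by
      rw [degree_eq_natDegree hU0m.ne_zero, hU0d, degree_lt_iff_coeff_zero]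
      intro m hm
      rw [coeff_sub, coeff_X_pow]
      by_cases h1 : m = N + J
      · rw [if_pos h1, h1, ← hUSd]
        have := hUS.coeff_natDegree
        rw [this, sub_self]
      · rw [if_neg h1]
        by_cases h2 : m < N + J
        · have := hgap (N + J - m) (by omega) (by omega)
          rw [show N + J - (N + J - m) = m by omega] at this
          rw [this, sub_zero]
        · rw [coeff_eq_zero_of_natDegree_lt (by omega), sub_zero]
    exact (div_modByMonic_unique S (X ^ (N + J) - U0 * S) hU0m ⟨by ring, hrem⟩).1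
  have hne : ∀ t : K[X], t.eval 0 ≠ 0 → ∀ᶠ μ in ℱ, t.eval μ ≠ 0 := by
    intro t ht
    refine (eventually_eval_ne t ?_).filter_mono hcof
    rintro rfl
    exact ht eval_zero
  have hne' : ∀ t : K[X], t ≠ 0 → ∀ᶠ μ in ℱ, t.eval μ ≠ 0 := fun t ht =>
    (eventually_eval_ne t ht).filter_mono hcof
  have h1 : ∀ᶠ μ in ℱ, ∀ i, SR (F i) (R.map (evalRingHom μ)) J := by
    rw [eventually_all]
    intro i
    apply hpers i
    rw [hR0, ← hs]
    exact p17_sr_prod s (fun a => a) fun x _ y _ h => h
  have h2 : ∀ᶠ μ in ℱ, ∀ k, (R.map (evalRingHom μ)).eval ((ℓ k).eval μ) ≠ 0 := by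
    rw [eventually_all]
    intro k
    have h3 : (R.eval (ℓ k)).eval 0 ≠ 0 := by
      rw [← hev, hR0, eval_prod, Finset.prod_ne_zero_iff]
      intro a ha
      rw [eval_sub, eval_X, eval_C, sub_ne_zero]
      have h4 : (ℓ k).eval 0 = b k := by simp [ℓ]
      rw [h4]
      rintro rfl
      exact hbs k ha
    refine (hne _ h3).mono fun μ hμ => ?_
    rw [hev]
    exact hμ
  have h3 : ∀ᶠ μ in ℱ, ∀ k k', k ≠ k' → (ℓ k).eval μ ≠ (ℓ k').eval μ := by
    rw [eventually_all]
    intro k
    rw [eventually_all]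
    intro k'
    by_cases hk : k = k'
    · exact Eventually.of_forall fun μ h => absurd hk h
    · have h4 : ℓ k - ℓ k' ≠ 0 := by
        intro h
        have h5 := congrArg (fun q => coeff q 1) h
        simp only [ℓ, coeff_sub, coeff_add, coeff_C_mul, coeff_X_one, coeff_C_succ, coeff_zero,
          zero_add, mul_one] at h5
        exact hk (hc (sub_eq_zero.1 h5))
      refine (hne' _ h4).mono fun μ hμ _ => ?_
      rw [eval_sub, sub_ne_zero] at hμ
      exact hμ
  have h4 : ∀ᶠ μ in ℱ, ((U * R).map (evalRingHom μ)).coeff 0 ≠ 0 := by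
    have h5 : ((U * R).coeff 0).eval 0 ≠ 0 := by
      rw [← coe_evalRingHom, ← coeff_map, Polynomial.map_mul, hU0, hR0, mul_coeff_zero,
        coeff_zero_eq_eval_zero, coeff_zero_eq_eval_zero, eval_prod, eval_prod]
      refine mul_ne_zero (Finset.prod_ne_zero_iff.2 fun k _ => ?_)
        (Finset.prod_ne_zero_iff.2 fun a ha => ?_)
      · rw [eval_sub, eval_X, eval_C, zero_sub, neg_ne_zero]
        exact hb0 k
      · rw [eval_sub, eval_X, eval_C, zero_sub, neg_ne_zero]
        rintro rfl
        exact hs0 ha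
    refine (hne _ h5).mono fun μ hμ => ?_
    rw [coeff_map, coe_evalRingHom]
    exact hμ
  obtain ⟨μ, hμ1, hμ2, hμ3, hμ4⟩ := (h1.and (h2.and (h3.and h4))).exists
  have hm : (U * R).Monic := hUm.mul hRm
  refine ⟨(U * R).map (evalRingHom μ), hm.map _, ?_, hμ4, ?_, ?_⟩
  · rw [hm.natDegree_map, hUm.natDegree_mul hRm, hUd, hRd]
  · intro i hi1 hi2
    rw [hUR, coeff_map, coeff_sub, coeff_X_pow, if_neg (by omega),
      coeff_eq_zero_of_degree_lt (hrd.trans_le (by exact_mod_cast (by omega))), sub_zero, map_zero]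
  · intro i
    rw [Polynomial.map_mul]
    have h5 : U.map (evalRingHom μ) = ∏ k ∈ Finset.univ, (X - C ((ℓ k).eval μ)) := by
      rw [hUμ]
      refine Finset.prod_congr rfl fun k _ => ?_
      simp [ℓ]
    rw [h5]
    refine p17_sr_mul (p17_sr_prod (F := F i) Finset.univ (fun k => (ℓ k).eval μ) ?_) (hμ1 i) ?_
    · intro x _ y _ h
      by_contra hxy
      exact hμ3 x y hxy h
    · refine IsCoprime.prod_left fun k _ => ?_
      rw [(irreducible_X_sub_C _).coprime_iff_not_dvd, dvd_iff_isRoot]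
      exact hμ2 k

theorem exists_corrected [Infinite K] (ℱ : Filter K) [ℱ.NeBot] (hcof : ℱ ≤ cofinite)
    {ι : Type*} [Finite ι] (F : ι → Type*) [∀ i, Field (F i)] [∀ i, Algebra K (F i)]
    (hpers : ∀ i, Pers ℱ (F i)) (J : ℕ) (B : Multiset K) (s : Finset K) (hs : s.card = J)
    (hB : 1 ≤ Multiset.card B) (hB0 : (0 : K) ∉ B) (hs0 : (0 : K) ∉ s) (hBs : ∀ b ∈ B, b ∉ s)
    (hgap : ∀ i, 1 ≤ i → i ≤ J →
      ((B.map (fun b => X - C b)).prod * ∏ b ∈ s, (X - C b)).coeff (Multiset.card B + J - i) = 0) :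
    ∃ T : K[X], T.Monic ∧ T.natDegree = Multiset.card B + J ∧ T.coeff 0 ≠ 0 ∧
      (∀ i, 1 ≤ i → i ≤ J → T.coeff (Multiset.card B + J - i) = 0) ∧
      ∀ i, SR (F i) T (Multiset.card B + J) := by
  classical
  have hcard : Fintype.card B = Multiset.card B := Multiset.card_coe B
  have hprod : (B.map (fun b => (X - C b : K[X]))).prod = ∏ k : B, (X - C (k : K)) := by
    conv_lhs => rw [← Multiset.map_univ_coe B]
    rw [Multiset.map_map]
    rfl
  obtain ⟨c, hc⟩ : ∃ c : B → K, Function.Injective c :=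
    ⟨fun k => Infinite.natEmbedding K (Fintype.equivFin B k), fun x y h => by
      have := (Infinite.natEmbedding K).injective h
      exact (Fintype.equivFin B).injective (Fin.ext this)⟩
  rw [← hcard]
  refine p17_aux ℱ hcof F hpers J (fun k : B => (k : K)) c hc s hs ?_ hs0 ?_ ?_
  · intro k hk
    exact hB0 (hk ▸ Multiset.coe_mem)
  · intro k
    exact hBs _ Multiset.coe_mem
  · intro i h1 h2
    rw [← hprod, hcard]
    exact hgap i h1 h2

end Pool.Agent.Helper51.HN
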