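import Pool.Agent.Helper51.HN.P11
import Pool.Agent.Helper51.HN.P14
import Pool.Agent.Helper51.HN.P15
import Pool.Agent.Helper51.HN.P16
import Pool.Agent.Helper51.HN.P17

set_option autoImplicit false

/-!
HN-P18: gap polynomials, totally split in all `F i`, over a nonreal field.

Proof. Characteristic `ℓ > 0`: `exists_gap_charP` and map the simple roots to `F i`. Characteristic `0`:
`exists_relation`, `exists_simple`, `gap_of_powerSum` (for the multiset `B + s.val`), `exists_corrected`.
-/

namespace Pool.Agent.Helper51.HN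

open Polynomial Filter Pool.Agent.Helper51.HI

variable {K : Type*} [Field K]

theorem exists_gap_nonreal [Infinite K] (hK : IsSumSq (-1 : K)) (ℱ : Filter K) [ℱ.NeBot]
    (hcof : ℱ ≤ cofinite) {ι : Type*} [Finite ι] (F : ι → Type*) [∀ i, Field (F i)]
    [∀ i, Algebra K (F i)] (hpers : ∀ i, Pers ℱ (F i)) (J p : ℕ) (hp : p.Prime) :
    ∃ (k : ℕ) (T : K[X]), J < k ∧ ¬ p ∣ k ∧ T.Monic ∧ T.natDegree = k ∧ T.coeff 0 ≠ 0 ∧
      (∀ i, 1 ≤ i → i ≤ J → T.coeff (k - i) = 0) ∧ ∀ i, SR (F i) T k := by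
  obtain ⟨ℓ, hc⟩ := CharP.exists K
  rcases CharP.char_is_prime_or_zero K ℓ with hl | hl
  · obtain ⟨k, T, h1, h2, h3, h4, h5, h6, h7⟩ := exists_gap_charP (K := K) ℓ hl J p hp
    exact ⟨k, T, h1, h2, h3, h4, h5, h6, fun i => SR.transfer (Algebra.ofId K (F i)) h7⟩
  · subst hl
    have : CharZero K := CharP.charP_to_charZero K
    obtain ⟨A, hA, hA0, hAm⟩ := exists_relation hK J
    obtain ⟨B, s, hs, hB0, hs0, hBs, hdvd, hB1, hm⟩ := exists_simple J p hp A hA hA0 hAm
    have hcard : Multiset.card (B + s.val) = Multiset.card B + J := by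
      rw [Multiset.card_add, Finset.card_val, hs]
    have hprod : ((B + s.val).map (fun b => X - C b)).prod =
        (B.map (fun b => X - C b)).prod * ∏ b ∈ s, (X - C b) := by
      rw [Multiset.map_add, Multiset.prod_add]
      rfl
    have hgap : ∀ i, 1 ≤ i → i ≤ J →
        ((B.map (fun b => X - C b)).prod * ∏ b ∈ s, (X - C b)).coeff
          (Multiset.card B + J - i) = 0 := by
      intro i hi1 hi2
      have h := gap_of_powerSum J (B + s.val) (by rw [hcard]; omega)
        (fun m h1 h2 => by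
          rw [Multiset.map_add, Multiset.sum_add]
          exact hm m h1 h2) i hi1 hi2
      rw [hcard, hprod] at h
      exact h
    obtain ⟨T, hT1, hT2, hT3, hT4, hT5⟩ :=
      exists_corrected ℱ hcof F hpers J B s hs hB1 hB0 hs0 hBs hgap
    exact ⟨Multiset.card B + J, T, by omega, hdvd, hT1, hT2, hT3, hT4, hT5⟩

end Pool.Agent.Helper51.HN
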