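import Pool.Agent.Helper51.HN.P01
import Pool.Agent.Helper51.HN.P02
import Pool.Agent.Helper51.HN.P07
import Pool.Agent.Helper51.HN.P10
import Pool.Agent.Helper51.HN.P18

set_option autoImplicit false

/-!
HN-P19: assembly for nonreal fields.

Proof of `infinite_irred_split`. Suppose the set `Ex` of the `x` is finite. Take `Crv`
(`crv_exists`), `J` and `h` (`exists_nongap`), `k`, `T` from `hT J`, the family `P` (`family_one`). For
`ℱ`-almost all `δ`: `δ ≠ 0`, `P_δ = P.map (evalRingHom δ)` has `k` simple roots in every `L i` (`hpers`),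
`P_δ(0) ≠ 0` (polynomial in `δ`, nonzero at `0`), and `w'_δ(x₀) ≠ 0` for all `x₀ ∈ Ex`, `x₀ ≠ 0`. For the
last point avoid `w'`: `C(δ^k) P_δ(z) = w'(δ z)`; so we need `P_δ(x₀/δ) ≠ 0`. With
`Q = ∑_j (P.coeff j) x₀^j X^(k-j) : K[X]` (`natDegree P_δ ≤ k`) one has `δ^k P_δ(x₀/δ) = Q(δ)` and
`Q(0) = x₀^k * (P.coeff k)(0) = x₀^k ≠ 0` as `T` is monic (note that `P.natDegree ≤ k` follows from
`P_δ` of degree `≤ k` for infinitely many `δ`). Fix such a `δ`. By `HI.sr_full` `P_δ` is separable of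
degree `k` and splits in every `L i`. As `p` does not divide `k`, some irreducible factor `q` of `P_δ` has
degree not divisible by `p` (`HI.dvd_natDegree`); by `hpow` its degree is a power of `p`, so it is `1` and
`P_δ` has a root `z ∈ K`, simple, `z ≠ 0`. Then `x = δ z ≠ 0` is a simple root of `w'`, hence of
`resultant f S` (`= X^(n k) w'`), so there is a point above `x` (`HI.exists_root_of_simple`; `f` is monic)
and `x ∈ Ex`, but `w'(x) = 0`: contradiction.
-/

namespace Pool.Agent.Helper51.HN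

open Polynomial Filter IntermediateField Module Pool.Agent.Helper51.HI

variable {K : Type*} [Field K] {Ω : Type*} [Field Ω] [Algebra K Ω]

theorem infinite_irred_split [Infinite K] {ι : Type*} [Finite ι] [Nonempty ι]
    (ℱ : Filter K) [ℱ.NeBot] (hcof : ℱ ≤ cofinite) (L : ι → IntermediateField K Ω)
    (hpers : ∀ i, Pers ℱ (L i)) (p : ℕ) (hp : p.Prime)
    (hpow : ∀ q : K[X], Irreducible q → q.Separable →
      (∀ i, (q.map (algebraMap K (L i))).Splits) → ∃ j, q.natDegree = p ^ j)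
    (hT : ∀ J : ℕ, ∃ (k : ℕ) (T : K[X]), J < k ∧ ¬ p ∣ k ∧ T.Monic ∧ T.natDegree = k ∧
      T.coeff 0 ≠ 0 ∧ (∀ i, 1 ≤ i → i ≤ J → T.coeff (k - i) = 0) ∧ ∀ i, SR (L i) T k)
    (f : K[X][X]) (n : ℕ) (hirr : Irreducible f) (hm : f.Monic) (hf : f.natDegree = n + 1)
    (h0 : (f.coeff 0).coeff 0 = 0) (h1 : (f.coeff 1).coeff 0 ≠ 0) :
    {x : K | ∃ y : K, (f.map (evalRingHom x)).eval y = 0}.Infinite := by
  classical
  intro hfin
  obtain ⟨A, y, g, hC⟩ := crv_exists f n hirr hm hf h0 h1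
  obtain ⟨J, hJ⟩ := exists_nongap hC
  choose! h hh using hJ
  obtain ⟨k, T, hk, hpk, hTm, hTk, hT0, hgap, hSR⟩ := hT J
  obtain ⟨P, hP0, hP⟩ := family_one hC J h hh k hk T hTm hTk hgap
  -- the exceptional parameters
  set Q : K → K[X] := fun x₀ => ∑ j ∈ Finset.range (k + 1), P.coeff j * C (x₀ ^ j) * X ^ (k - j)
    with hQ
  have hQ0 : ∀ x₀ : K, x₀ ≠ 0 → Q x₀ ≠ 0 := by
    intro x₀ hx₀ hz
    have h2 : (Q x₀).eval 0 = 0 := by rw [hz, eval_zero]
    simp only [hQ, eval_finsetSum, eval_mul, eval_pow, eval_X, eval_C] at h2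
    rw [Finset.sum_range_succ, Finset.sum_eq_zero, zero_add, Nat.sub_self, pow_zero, mul_one] at h2
    · have h3 : (P.coeff k).eval 0 = 1 := by
        have h4 : (P.map (evalRingHom (0 : K))).coeff k = 1 := by
          rw [hP0, ← hTk]
          exact hTm.coeff_natDegree
        rwa [coeff_map, coe_evalRingHom] at h4
      rw [h3, one_mul] at h2
      exact pow_ne_zero k hx₀ h2
    · intro j hj
      rw [Finset.mem_range] at hj
      rw [zero_pow (by omega), mul_zero]
  have hPz : P.eval (C 0) ≠ 0 := by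
    intro hz
    have h2 := eval_map_eq P 0 0
    rw [hz, eval_zero, hP0, ← coeff_zero_eq_eval_zero] at h2
    exact hT0 h2
  have hev1 : ∀ᶠ δ in ℱ, δ ≠ 0 := by
    have h2 : ∀ᶠ δ in (cofinite : Filter K), δ ≠ 0 := by
      have h3 := eventually_eval_ne (X : K[X]) X_ne_zero
      refine h3.mono fun δ hδ => ?_
      rwa [eval_X] at hδ
    exact h2.filter_mono hcof
  have hev2 : ∀ᶠ δ in ℱ, (P.map (evalRingHom δ)).eval 0 ≠ 0 := by
    refine ((eventually_eval_ne _ hPz).filter_mono hcof).mono fun δ hδ => ?_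
    rw [eval_map_eq]
    exact hδ
  have hev3 : ∀ᶠ δ in ℱ, ∀ i, SR (L i) (P.map (evalRingHom δ)) k := by
    rw [eventually_all]
    intro i
    apply hpers i
    rw [hP0]
    exact hSR i
  have hev4 : ∀ᶠ δ in ℱ, ∀ x₀ ∈ hfin.toFinset, x₀ ≠ 0 → (Q x₀).eval δ ≠ 0 := by
    rw [Finset.eventually_all]
    intro x₀ _
    by_cases hx₀ : x₀ = 0
    · exact Eventually.of_forall fun δ hδ => absurd hx₀ hδ
    · exact ((eventually_eval_ne _ (hQ0 x₀ hx₀)).filter_mono hcof).mono fun δ hδ _ => hδ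
  obtain ⟨δ, ⟨hδ0, hδ1⟩, hδ2, hδ3⟩ := ((hev1.and hev2).and (hev3.and hev4)).exists
  set χ := P.map (evalRingHom δ) with hχ
  obtain ⟨S, w', hS, hres, hwdeg, hwχ⟩ := hP δ hδ0
  have hδk : δ ^ k ≠ 0 := pow_ne_zero k hδ0
  have hdeg : χ.natDegree ≤ k := by
    rw [← natDegree_C_mul hδk, ← hwχ]
    refine natDegree_comp_le.trans ?_
    calc w'.natDegree * (C δ * X : K[X]).natDegree ≤ k * 1 :=
          Nat.mul_le_mul hwdeg ((natDegree_C_mul_le _ _).trans natDegree_X_le)
      _ = k := mul_one k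
  have hk1 : 1 ≤ k := by omega
  have hfull : ∀ i, χ.natDegree = k ∧ χ.Separable ∧
      (χ.map (algebraMap K (L i))).Splits := fun i => sr_full χ k hk1 hdeg (hδ2 i)
  obtain ⟨i₀⟩ : Nonempty ι := inferInstance
  obtain ⟨hχd, hχs, -⟩ := hfull i₀
  have hχ0 : χ ≠ 0 := hχs.ne_zero
  obtain ⟨q, hq, hqχ, hqp⟩ : ∃ q : K[X], Irreducible q ∧ q ∣ χ ∧ ¬ p ∣ q.natDegree := by
    by_contra hcon
    push Not at hcon
    exact hpk (hχd ▸ dvd_natDegree p χ hχ0 hcon)
  have hqsep : q.Separable := hχs.of_dvd hqχ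
  obtain ⟨j, hj⟩ := hpow q hq hqsep (fun i => (hfull i).2.2.of_dvd
    ((Polynomial.map_ne_zero_iff (algebraMap K (L i)).injective).2 hχ0) (Polynomial.map_dvd _ hqχ))
  have hq1 : q.natDegree = 1 := by
    rcases Nat.eq_zero_or_pos j with rfl | hj0
    · rw [hj, pow_zero]
    · exact absurd (hj ▸ dvd_pow_self p hj0.ne') hqp
  obtain ⟨z, hz⟩ := exists_root_of_degree_eq_one
    ((degree_eq_iff_natDegree_eq_of_pos one_pos).2 hq1)
  have hχz : χ.eval z = 0 := by
    obtain ⟨v, hv⟩ := hqχ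
    rw [hv, eval_mul, hz.eq_zero, zero_mul]
  have hχz' : (derivative χ).eval z ≠ 0 := by
    have h5 := hχs.aeval_derivative_ne_zero (x := z) (by rw [coe_aeval_eq_eval]; exact hχz)
    rwa [coe_aeval_eq_eval] at h5
  have hz0 : z ≠ 0 := by
    rintro rfl
    exact hδ1 hχz
  set x := δ * z with hx
  have hx0 : x ≠ 0 := mul_ne_zero hδ0 hz0
  have hwx : w'.eval x = 0 := by
    have h5 := congrArg (eval z) hwχ
    rw [eval_comp, eval_mul, eval_mul, eval_C, eval_C, eval_X, hχz, mul_zero] at h5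
    exact h5
  have hwx' : (derivative w').eval x ≠ 0 := by
    intro hzero
    have h5 := congrArg (fun t => eval z (derivative t)) hwχ
    simp only [derivative_comp, derivative_C_mul, derivative_X, eval_mul, eval_comp, eval_C,
      eval_X, mul_one] at h5
    rw [← hx, hzero, mul_zero] at h5
    exact (mul_ne_zero hδk hχz') h5.symm
  have hmem : x ∈ {x : K | ∃ y : K, (f.map (evalRingHom x)).eval y = 0} := by
    refine exists_root_of_simple hf.le hS.1.deg x ?_ ?_ ?_
    · have h5 : f.coeff (n + 1) = 1 := by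
        rw [← hf]
        exact hm.coeff_natDegree
      rw [h5, eval_one]
      exact one_ne_zero
    · rw [hres, eval_mul, hwx, mul_zero]
    · rw [hres, derivative_mul, eval_add, eval_mul, eval_mul, hwx, mul_zero, zero_add, eval_pow,
        eval_X]
      exact mul_ne_zero (pow_ne_zero _ hx0) hwx'
  refine hδ3 x (by rw [Set.Finite.mem_toFinset]; exact hmem) hx0 ?_
  have h6 : (Q x).eval δ = δ ^ k * χ.eval z := by
    rw [eval_eq_sum_range' (lt_of_le_of_lt hdeg (Nat.lt_succ_self k)), Finset.mul_sum, hQ]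
    simp only [eval_finsetSum, eval_mul, eval_pow, eval_X, eval_C]
    refine Finset.sum_congr rfl fun j hj => ?_
    rw [Finset.mem_range] at hj
    have h7 : χ.coeff j = (P.coeff j).eval δ := by
      rw [hχ, coeff_map, coe_evalRingHom]
    have h8 : δ ^ k = δ ^ j * δ ^ (k - j) := by
      rw [← pow_add]
      congr 1
      omega
    rw [h7, h8, hx, mul_pow]
    ring
  rw [h6, hχz, mul_zero]

end Pool.Agent.Helper51.HN
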