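import Pool.Agent.Helper51.HN.P19

set_option autoImplicit false

/-!
HN-P21: assembly for nonreal fields, version with two fields `k` and `K`.

The curve and the sections are defined over `k`, the rational points have coordinates in the
extension `K` of `k`.
-/

namespace Pool.Agent.Helper51.HN

open Polynomial Filter IntermediateField Module Pool.Agent.Helper51.HI

theorem infinite_irred_split2 {k : Type*} [Field k] [Infinite k] {K : Type*} [Field K]
    [Algebra k K] {ι : Type*} [Finite ι] [Nonempty ι]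
    (ℱ : Filter k) [ℱ.NeBot] (hcof : ℱ ≤ cofinite) (L : ι → Type*) [∀ i, Field (L i)]
    [∀ i, Algebra k (L i)] (hpers : ∀ i, Pers ℱ (L i)) (p : ℕ)
    (hroot : ∀ χ : k[X], χ.Separable → (∀ i, (χ.map (algebraMap k (L i))).Splits) →
      ¬ p ∣ χ.natDegree → ∃ z : K, aeval z χ = 0)
    (hT : ∀ J : ℕ, ∃ (d : ℕ) (T : k[X]), J < d ∧ ¬ p ∣ d ∧ T.Monic ∧ T.natDegree = d ∧
      T.coeff 0 ≠ 0 ∧ (∀ i, 1 ≤ i → i ≤ J → T.coeff (d - i) = 0) ∧ ∀ i, SR (L i) T d)
    (f : k[X][X]) (n : ℕ) (hirr : Irreducible f) (hm : f.Monic) (hf : f.natDegree = n + 1)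
    (h0 : (f.coeff 0).coeff 0 = 0) (h1 : (f.coeff 1).coeff 0 ≠ 0) :
    {x : K | ∃ y : K, ((f.map (mapRingHom (algebraMap k K))).map (evalRingHom x)).eval y =
      0}.Infinite := by
  classical
  intro hfin
  set ψ := algebraMap k K with hψ
  have hψi : Function.Injective ψ := ψ.injective
  obtain ⟨A, y, g, hC⟩ := crv_exists f n hirr hm hf h0 h1
  obtain ⟨J, hJ⟩ := exists_nongap hC
  choose! h hh using hJ
  obtain ⟨d, T, hk, hpk, hTm, hTk, hT0, hgap, hSR⟩ := hT J
  obtain ⟨P, hP0, hP⟩ := family_one hC J h hh d hk T hTm hTk hgap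
  -- the exceptional parameters
  set Q : K → K[X] := fun x₀ => ∑ j ∈ Finset.range (d + 1), (P.coeff j).map ψ * C (x₀ ^ j) *
    X ^ (d - j) with hQ
  have hQ0 : ∀ x₀ : K, x₀ ≠ 0 → Q x₀ ≠ 0 := by
    intro x₀ hx₀ hz
    have h2 : (Q x₀).eval 0 = 0 := by rw [hz, eval_zero]
    simp only [hQ, eval_finsetSum, eval_mul, eval_pow, eval_X, eval_C] at h2
    rw [Finset.sum_range_succ, Finset.sum_eq_zero, zero_add, Nat.sub_self, pow_zero, mul_one] at h2
    · have h3 : (P.coeff d).eval 0 = 1 := by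
        have h4 : (P.map (evalRingHom (0 : k))).coeff d = 1 := by
          rw [hP0, ← hTk]
          exact hTm.coeff_natDegree
        rwa [coeff_map, coe_evalRingHom] at h4
      have h5 : ((P.coeff d).map ψ).eval 0 = 1 := by
        have h6 := eval_map_apply (p := P.coeff d) ψ 0
        rwa [map_zero, h3, map_one] at h6
      rw [h5, one_mul] at h2
      exact pow_ne_zero d hx₀ h2
    · intro j hj
      rw [Finset.mem_range] at hj
      rw [zero_pow (by omega), mul_zero]
  have hPz : P.eval (C 0) ≠ 0 := by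
    intro hz
    have h2 := eval_map_eq P 0 0
    rw [hz, eval_zero, hP0, ← coeff_zero_eq_eval_zero] at h2
    exact hT0 h2
  have hev1 : ∀ᶠ δ in ℱ, δ ≠ 0 := by
    have h2 : ∀ᶠ δ in (cofinite : Filter k), δ ≠ 0 := by
      have h3 := eventually_eval_ne (X : k[X]) X_ne_zero
      refine h3.mono fun δ hδ => ?_
      rwa [eval_X] at hδ
    exact h2.filter_mono hcof
  have hev2 : ∀ᶠ δ in ℱ, (P.map (evalRingHom δ)).eval 0 ≠ 0 := by
    refine ((eventually_eval_ne _ hPz).filter_mono hcof).mono fun δ hδ => ?_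
    rw [eval_map_eq]
    exact hδ
  have hev3 : ∀ᶠ δ in ℱ, ∀ i, SR (L i) (P.map (evalRingHom δ)) d := by
    rw [eventually_all]
    intro i
    apply hpers i
    rw [hP0]
    exact hSR i
  have hevK : ∀ t : K[X], t ≠ 0 → ∀ᶠ δ in (cofinite : Filter k), t.eval (ψ δ) ≠ 0 := by
    intro t ht
    rw [eventually_cofinite]
    refine ((t.roots.toFinset.finite_toSet).preimage hψi.injOn).subset fun δ hδ => ?_
    rw [Set.mem_preimage, Finset.mem_coe, Multiset.mem_toFinset, mem_roots ht]
    simpa using hδ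
  have hev4 : ∀ᶠ δ in ℱ, ∀ x₀ ∈ hfin.toFinset, x₀ ≠ 0 → (Q x₀).eval (ψ δ) ≠ 0 := by
    rw [Finset.eventually_all]
    intro x₀ _
    by_cases hx₀ : x₀ = 0
    · exact Eventually.of_forall fun δ hδ => absurd hx₀ hδ
    · exact ((hevK _ (hQ0 x₀ hx₀)).filter_mono hcof).mono fun δ hδ _ => hδ
  obtain ⟨δ, ⟨hδ0, hδ1⟩, hδ2, hδ3⟩ := ((hev1.and hev2).and (hev3.and hev4)).exists
  set χ := P.map (evalRingHom δ) with hχ
  obtain ⟨S, w', hS, hres, hwdeg, hwχ⟩ := hP δ hδ0
  have hδk : δ ^ d ≠ 0 := pow_ne_zero d hδ0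
  have hdeg : χ.natDegree ≤ d := by
    rw [← natDegree_C_mul hδk, ← hwχ]
    refine natDegree_comp_le.trans ?_
    calc w'.natDegree * (C δ * X : k[X]).natDegree ≤ d * 1 :=
          Nat.mul_le_mul hwdeg ((natDegree_C_mul_le _ _).trans natDegree_X_le)
      _ = d := mul_one d
  have hk1 : 1 ≤ d := by omega
  have hfull : ∀ i, χ.natDegree = d ∧ χ.Separable ∧
      (χ.map (algebraMap k (L i))).Splits := fun i => sr_full χ d hk1 hdeg (hδ2 i)
  obtain ⟨i₀⟩ : Nonempty ι := inferInstance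
  obtain ⟨hχd, hχs, -⟩ := hfull i₀
  obtain ⟨z, hχz⟩ := hroot χ hχs (fun i => (hfull i).2.2) (by rw [hχd]; exact hpk)
  have hχz' : aeval z (derivative χ) ≠ 0 := hχs.aeval_derivative_ne_zero hχz
  have hδ0' : ψ δ ≠ 0 := (_root_.map_ne_zero ψ).2 hδ0
  have hz0 : z ≠ 0 := by
    rintro rfl
    apply hδ1
    rw [← coeff_zero_eq_eval_zero]
    rw [← coeff_zero_eq_aeval_zero'] at hχz
    exact hψi (by rw [map_zero]; exact hχz)
  set x := ψ δ * z with hx
  have hx0 : x ≠ 0 := mul_ne_zero hδ0' hz0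
  have hcomp : ∀ t : k[X], aeval z (t.comp (C δ * X)) = aeval x t := by
    intro t
    rw [aeval_comp, map_mul, aeval_C, aeval_X]
  have hwx : aeval x w' = 0 := by
    rw [← hcomp, hwχ, map_mul, hχz, mul_zero]
  have hwx' : aeval x (derivative w') ≠ 0 := by
    intro hzero
    have h5 := congrArg (fun t => aeval z (derivative t)) hwχ
    simp only [derivative_comp, derivative_C_mul, derivative_X, map_mul, hcomp, hzero,
      mul_zero, mul_one] at h5
    refine mul_ne_zero ?_ hχz' h5.symm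
    rw [aeval_C]
    exact (_root_.map_ne_zero _).2 hδk
  have hres' : resultant (f.map (mapRingHom ψ)) (S.map (mapRingHom ψ)) (n + 1) n =
      X ^ (n * d) * w'.map ψ := by
    rw [resultant_map_map, hres, coe_mapRingHom, Polynomial.map_mul, Polynomial.map_pow, map_X]
  have hmem : x ∈ {x : K | ∃ y : K, ((f.map (mapRingHom ψ)).map (evalRingHom x)).eval y = 0} := by
    refine exists_root_of_simple (n := n) (G := S.map (mapRingHom ψ))
      (natDegree_map_le.trans hf.le) (natDegree_map_le.trans hS.1.deg) x ?_ ?_ ?_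
    · have h5 : f.coeff (n + 1) = 1 := by
        rw [← hf]
        exact hm.coeff_natDegree
      rw [coeff_map, h5, map_one, eval_one]
      exact one_ne_zero
    · rw [hres', eval_mul, eval_map_algebraMap, hwx, mul_zero]
    · rw [hres', derivative_mul, eval_add, eval_mul, eval_mul, eval_map_algebraMap, hwx, mul_zero,
        zero_add, eval_pow, eval_X, derivative_map, eval_map_algebraMap]
      exact mul_ne_zero (pow_ne_zero _ hx0) hwx'
  refine hδ3 x (by rw [Set.Finite.mem_toFinset]; exact hmem) hx0 ?_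
  have h6 : (Q x).eval (ψ δ) = ψ δ ^ d * aeval z χ := by
    rw [aeval_eq_sum_range' (lt_of_le_of_lt hdeg (Nat.lt_succ_self d)), Finset.mul_sum, hQ]
    simp only [eval_finsetSum, eval_mul, eval_pow, eval_X, eval_C]
    refine Finset.sum_congr rfl fun j hj => ?_
    rw [Finset.mem_range] at hj
    have h7 : χ.coeff j = (P.coeff j).eval δ := by
      rw [hχ, coeff_map, coe_evalRingHom]
    have h8 : ψ δ ^ d = ψ δ ^ j * ψ δ ^ (d - j) := by
      rw [← pow_add]
      congr 1
      omega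
    rw [h7, h8, hx, mul_pow, eval_map_apply, Algebra.smul_def]
    ring
  rw [h6, hχz, mul_zero]

end Pool.Agent.Helper51.HN
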