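import Pool.Agent.Helper51.HN.P20
import Pool.Agent.Helper51.HN.P21

set_option autoImplicit false

/-!
HN-P22: fields between a nonreal field and the field of totally Henselian elements.
-/

namespace Pool.Agent.Helper51.HN

open Polynomial Filter IntermediateField Module Pool.Agent.Helper51.HI

/-- the fields `E i`, one copy for every embedding of `k` -/
def Tw (K₀ k : Type*) [Field K₀] [Field k] [Algebra K₀ k] {ι : Type*} (E : ι → Type*)
    [∀ i, Field (E i)] [∀ i, Algebra K₀ (E i)] (s : Σ i, k →ₐ[K₀] E i) : Type _ := E s.1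

section

variable {K₀ k : Type*} [Field K₀] [Field k] [Algebra K₀ k] {ι : Type*} (E : ι → Type*)
    [∀ i, Field (E i)] [∀ i, Algebra K₀ (E i)] (s : Σ i, k →ₐ[K₀] E i)

instance : Field (Tw K₀ k E s) := inferInstanceAs (Field (E s.1))

instance : Algebra K₀ (Tw K₀ k E s) := inferInstanceAs (Algebra K₀ (E s.1))

instance : Algebra k (Tw K₀ k E s) := (s.2 : k →+* E s.1).toAlgebra

instance : IsScalarTower K₀ k (Tw K₀ k E s) := IsScalarTower.of_algebraMap_eq fun x =>
  (s.2.commutes x).symm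

theorem infinite_tw (hk : IsSumSq (-1 : k)) [FiniteDimensional K₀ k] {K : Type*} [Field K]
    [Algebra k K] [Finite ι] [∀ i, Algebra.IsAlgebraic K₀ (E i)] (hE : ∀ i, RH (E i))
    [Nonempty (Σ i, k →ₐ[K₀] E i)] (p : ℕ) (hp : p.Prime)
    (hroot : ∀ χ : k[X], χ.Separable →
      (∀ i (g : k →ₐ[K₀] E i), (χ.map (g : k →+* E i)).Splits) →
      ¬ p ∣ χ.natDegree → ∃ z : K, aeval z χ = 0)
    (f : k[X][X]) (n : ℕ) (hirr : Irreducible f) (hm : f.Monic) (hf : f.natDegree = n + 1)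
    (h0 : (f.coeff 0).coeff 0 = 0) (h1 : (f.coeff 1).coeff 0 ≠ 0) :
    {x : K | ∃ y : K, ((f.map (mapRingHom (algebraMap k K))).map (evalRingHom x)).eval y =
      0}.Infinite := by
  have hfin : ∀ i, Finite (k →ₐ[K₀] E i) := fun i => inferInstance
  have hfin' : Finite (Σ i, k →ₐ[K₀] E i) := inferInstance
  cases nonempty_fintype (Σ i, k →ₐ[K₀] E i)
  have halg : ∀ s : Σ i, k →ₐ[K₀] E i, Algebra.IsAlgebraic k (Tw K₀ k E s) := fun s => by
    have : Algebra.IsAlgebraic K₀ (Tw K₀ k E s) := inferInstanceAs (Algebra.IsAlgebraic K₀ (E s.1))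
    exact Algebra.IsAlgebraic.tower_top (K := K₀) k
  have hRH : ∀ s : Σ i, k →ₐ[K₀] E i, RH (Tw K₀ k E s) := fun s => hE s.1
  obtain ⟨ℱ, hne, hcof, hpers⟩ := exists_filter (fun s => Tw K₀ k E s)
    (fun s => (hRH s).th (K := k))
  have hinf : Infinite k := by
    have h2 : (cofinite : Filter k).NeBot := hne.mono hcof
    by_contra h
    rw [not_infinite_iff_finite] at h
    exact h2.ne cofinite_eq_bot
  refine infinite_irred_split2 (K := K) ℱ hcof (fun s => Tw K₀ k E s) hpers p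
    (fun χ hχ hs hd => hroot χ hχ (fun i g => hs ⟨i, g⟩) hd)
    (fun J => exists_gap_nonreal hk ℱ hcof (fun s => Tw K₀ k E s) hpers J p hp)
    f n hirr hm hf h0 h1

end

variable {K₀ : Type*} [Field K₀] {Ω : Type*} [Field Ω] [Algebra K₀ Ω]

/-- roots of totally split polynomials -/
theorem exists_root_tot [IsAlgClosed Ω] [Algebra.IsAlgebraic K₀ Ω] {ι : Type*}
    (F : ι → IntermediateField K₀ Ω) (K : IntermediateField K₀ Ω)
    (hK : ∀ (i : ι) (τ : Ω ≃ₐ[K₀] Ω), K ≤ (F i).map (τ : Ω →ₐ[K₀] Ω)) (p : ℕ) (hp : p.Prime)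
    (hgal : ∀ M : IntermediateField K Ω, FiniteDimensional K M → IsGalois K M →
      (∀ (i : ι) (τ : Ω ≃ₐ[K₀] Ω), M.restrictScalars K₀ ≤ (F i).map (τ : Ω →ₐ[K₀] Ω)) →
      ∃ j, finrank K M = p ^ j)
    (K₁ : IntermediateField K₀ Ω) (h₁ : K₁ ≤ K) (χ : K₁[X]) (hχ : χ.Separable)
    (hs : ∀ (i : ι) (g : K₁ →ₐ[K₀] F i), (χ.map (g : K₁ →+* F i)).Splits)
    (hd : ¬ p ∣ χ.natDegree) :
    ∃ z : K, (χ.map (inclusion h₁ : K₁ →+* K)).eval z = 0 := by
  classical
  have hroots : ∀ a : Ω, aeval a χ = 0 → ∀ (i : ι) (τ : Ω ≃ₐ[K₀] Ω),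
      a ∈ (F i).map (τ : Ω →ₐ[K₀] Ω) := by
    intro a ha i τ
    have hmem : ∀ x : K₁, τ.symm (x : Ω) ∈ F i := by
      intro x
      obtain ⟨y, hy, hyx⟩ := hK i τ (h₁ x.2)
      have : τ.symm (x : Ω) = y := by
        rw [AlgEquiv.symm_apply_eq]
        exact hyx.symm
      rw [this]
      exact hy
    let g : K₁ →ₐ[K₀] F i := ((τ.symm : Ω →ₐ[K₀] Ω).comp K₁.val).codRestrict
      (F i).toSubalgebra hmem
    have hg : ((F i).val : F i →+* Ω).comp (g : K₁ →+* F i) =
        (τ.symm : Ω →+* Ω).comp (algebraMap K₁ Ω) := by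
      ext x
      rfl
    have h2 := hs i g
    have h3 : τ.symm a ∈ (F i) := by
      have hne : χ.map (g : K₁ →+* F i) ≠ 0 :=
        (Polynomial.map_ne_zero_iff (g : K₁ →+* F i).injective).2 hχ.ne_zero
      have h4 : ((χ.map (g : K₁ →+* F i)).map ((F i).val : F i →+* Ω)).IsRoot (τ.symm a) := by
        have h5 := hom_eval₂ χ (algebraMap K₁ Ω) (τ.symm : Ω →+* Ω) a
        rw [← aeval_def, ha, map_zero] at h5
        rw [Polynomial.map_map, hg, IsRoot.def, eval_map]
        exact h5.symm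
      obtain ⟨y, hy⟩ := h2.mem_range_of_isRoot hne h4
      have h6 : τ.symm a = (y : Ω) := hy.symm
      rw [h6]
      exact y.2
    exact ⟨τ.symm a, h3, τ.apply_symm_apply a⟩
  set ψ : K₁ →+* K := (inclusion h₁ : K₁ →+* K) with hψ
  by_contra hno
  push Not at hno
  have hχ0 : χ.map ψ ≠ 0 := (Polynomial.map_ne_zero_iff ψ.injective).2 hχ.ne_zero
  refine hd ?_
  rw [← natDegree_map ψ]
  refine dvd_natDegree p _ hχ0 fun q hq hqχ => ?_
  have hsep : q.Separable := hχ.map.of_dvd hqχ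
  have hcomp : (algebraMap K Ω).comp ψ = algebraMap K₁ Ω := by
    ext x
    rfl
  let F' : ι × (Ω ≃ₐ[K₀] Ω) → IntermediateField K Ω := fun s => extendScalars (hK s.1 s.2)
  have hsplit : ∀ s, (q.map (algebraMap K (F' s))).Splits := by
    intro s
    refine Splits.of_splits_map (algebraMap (F' s) Ω) (IsAlgClosed.splits _) fun a ha => ?_
    rw [Polynomial.map_map, ← IsScalarTower.algebraMap_eq K (F' s) Ω] at ha
    have h2 : aeval a q = 0 := by
      rw [mem_roots_map_of_injective (algebraMap K Ω).injective hq.ne_zero] at ha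
      rw [aeval_def]
      exact ha
    have h3 : aeval a χ = 0 := by
      obtain ⟨r, hr⟩ := hqχ
      have h4 : aeval a (χ.map ψ) = 0 := by
        rw [hr, map_mul, h2, zero_mul]
      rw [aeval_def, eval₂_map, hcomp] at h4
      rw [aeval_def]
      exact h4
    have h4 := hroots a h3 s.1 s.2
    exact ⟨⟨a, h4⟩, rfl⟩
  obtain ⟨j, hj⟩ := pow_of_galois F' p hp (fun M h2 h3 h4 => hgal M h2 h3 fun i τ a ha => by
    have h5 : a ∈ F' (i, τ) := (h4.trans (iInf_le F' (i, τ))) ha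
    exact h5) q hq hsep hsplit
  rcases Nat.eq_zero_or_pos j with hj0 | hj0
  · exfalso
    rw [hj0, pow_zero] at hj
    have hdeg : q.degree = 1 := by
      rw [degree_eq_natDegree hq.ne_zero, hj]
      rfl
    obtain ⟨z, hz⟩ := exists_root_of_degree_eq_one hdeg
    refine hno z ?_
    obtain ⟨r, hr⟩ := hqχ
    rw [hr, eval_mul, hz.eq_zero, zero_mul]
  · rw [hj]
    exact dvd_pow_self p hj0.ne'

/-- a sum of squares is one over a finite extension -/
theorem exists_sumSq (K : IntermediateField K₀ Ω) {a : K} (ha : IsSumSq a) :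
    ∃ S : Finset Ω, (S : Set Ω) ⊆ K ∧ ∀ K₁ : IntermediateField K₀ Ω, (S : Set Ω) ⊆ K₁ →
      ∃ a₁ : K₁, (a₁ : Ω) = a ∧ IsSumSq a₁ := by
  classical
  induction ha with
  | zero => exact ⟨∅, by simp, fun K₁ _ => ⟨0, rfl, IsSumSq.zero⟩⟩
  | sq_add b _ ih =>
    obtain ⟨S, hS, hS'⟩ := ih
    refine ⟨insert (b : Ω) S, ?_, fun K₁ hK₁ => ?_⟩
    · rw [Finset.coe_insert]
      exact Set.insert_subset b.2 hS
    · rw [Finset.coe_insert, Set.insert_subset_iff] at hK₁
      obtain ⟨a₁, h1, h2⟩ := hS' K₁ hK₁.2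
      refine ⟨⟨b, hK₁.1⟩ * ⟨b, hK₁.1⟩ + a₁, ?_, IsSumSq.sq_add _ h2⟩
      rw [IntermediateField.coe_add, IntermediateField.coe_mul, h1]
      rfl

theorem infinite_tot [IsAlgClosed Ω] [Algebra.IsAlgebraic K₀ Ω]
    {ι : Type*} [Finite ι] [Nonempty ι]
    (F : ι → IntermediateField K₀ Ω) (hF : ∀ i, RH (F i)) (K : IntermediateField K₀ Ω)
    (hK₀ : IsSumSq (-1 : K))
    (hK : ∀ (i : ι) (τ : Ω ≃ₐ[K₀] Ω), K ≤ (F i).map (τ : Ω →ₐ[K₀] Ω)) (p : ℕ) (hp : p.Prime)
    (hgal : ∀ M : IntermediateField K Ω, FiniteDimensional K M → IsGalois K M →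
      (∀ (i : ι) (τ : Ω ≃ₐ[K₀] Ω), M.restrictScalars K₀ ≤ (F i).map (τ : Ω →ₐ[K₀] Ω)) →
      ∃ j, finrank K M = p ^ j)
    (f : K[X][X]) (a b : K) (h0 : f.evalEval a b = 0) (h1 : (derivative f).evalEval a b ≠ 0) :
    {x : K | ∃ y : K, f.evalEval x y = 0}.Infinite := by
  classical
  cases nonempty_fintype ι
  have hinf₀ : Infinite K₀ := by
    obtain ⟨ℱ, hne, hcof, -⟩ := exists_filter (fun i => F i) (fun i => (hF i).th (K := K₀))
    have h2 : (cofinite : Filter K₀).NeBot := hne.mono hcof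
    by_contra h
    rw [not_infinite_iff_finite] at h
    exact h2.ne cofinite_eq_bot
  have hinf : Infinite K := Infinite.of_injective _ (algebraMap K₀ K).injective
  refine infinite_points (data_of_monic fun f n hirr hm hf hn h0 h1 => ?_) f a b h0 h1
  -- the field of definition
  let S : Finset Ω := f.support.biUnion fun j => (f.coeff j).support.image fun i =>
    (((f.coeff j).coeff i : K) : Ω)
  obtain ⟨S', hS'K, hS'⟩ := exists_sumSq K hK₀
  let K₁ : IntermediateField K₀ Ω := adjoin K₀ ((S ∪ S' : Finset Ω) : Set Ω)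
  have hS : (S : Set Ω) ⊆ K := by
    intro x hx
    simp only [S, Finset.coe_biUnion, Finset.coe_image, Set.mem_iUnion, Set.mem_image] at hx
    obtain ⟨j, -, i, -, rfl⟩ := hx
    exact ((f.coeff j).coeff i).2
  have hSS : ((S ∪ S' : Finset Ω) : Set Ω) ⊆ K := by
    rw [Finset.coe_union]
    exact Set.union_subset hS hS'K
  have h₁ : K₁ ≤ K := adjoin_le_iff.2 hSS
  have hk : IsSumSq (-1 : K₁) := by
    obtain ⟨a₁, h2, h3⟩ := hS' K₁ (subset_trans (Finset.coe_subset.2 Finset.subset_union_right)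
      (subset_adjoin K₀ _))
    have h4 : a₁ = -1 := by
      apply Subtype.ext
      rw [h2]
      rfl
    rwa [h4] at h3
  have hfd : FiniteDimensional K₀ K₁ :=
    finiteDimensional_adjoin fun x _ => Algebra.IsIntegral.isIntegral x
  have hco : ∀ j i, (((f.coeff j).coeff i : K) : Ω) ∈ K₁ := by
    intro j i
    by_cases hz : (f.coeff j).coeff i = 0
    · rw [hz]
      exact K₁.zero_mem
    · refine subset_adjoin K₀ _ (Finset.coe_subset.2 Finset.subset_union_left ?_)
      simp only [S, Finset.coe_biUnion, Finset.coe_image, Set.mem_iUnion, Set.mem_image]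
      refine ⟨j, ?_, i, ?_, rfl⟩
      · rw [Finset.mem_coe, Polynomial.mem_support_iff]
        intro h
        exact hz (by rw [h, coeff_zero])
      · rw [Finset.mem_coe, Polynomial.mem_support_iff]
        exact hz
  let _ : Algebra K₁ K := (inclusion h₁ : K₁ →+* K).toAlgebra
  have hψi : Function.Injective (algebraMap K₁ K) := (algebraMap K₁ K).injective
  have hΨi : Function.Injective (mapRingHom (algebraMap K₁ K)) := map_injective _ hψi
  obtain ⟨f₁, hf₁⟩ : ∃ f₁ : K₁[X][X], f₁.map (mapRingHom (algebraMap K₁ K)) = f := by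
    have h2 : f ∈ lifts (mapRingHom (algebraMap K₁ K)) := by
      rw [lifts_iff_coeff_lifts]
      intro j
      have h3 : f.coeff j ∈ lifts (algebraMap K₁ K) := by
        rw [lifts_iff_coeff_lifts]
        intro i
        exact ⟨⟨_, hco j i⟩, rfl⟩
      exact h3
    exact h2
  rw [← hf₁] at hm hf hirr h0 h1 ⊢
  have hm₁ : f₁.Monic := monic_of_injective hΨi hm
  rw [natDegree_map_eq_of_injective hΨi] at hf
  have hirr₁ : Irreducible f₁ := hm₁.irreducible_of_irreducible_map _ _ hirr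
  rw [coeff_map, coe_mapRingHom, coeff_map] at h0 h1
  have h0' : (f₁.coeff 0).coeff 0 = 0 := hψi (by rw [h0, map_zero])
  have h1' : (f₁.coeff 1).coeff 0 ≠ 0 := fun h => h1 (by rw [h, map_zero])
  have hne : Nonempty (Σ i, K₁ →ₐ[K₀] F i) := by
    obtain ⟨i⟩ : Nonempty ι := inferInstance
    have h2 : K₁ ≤ F i := by
      intro x hx
      obtain ⟨y, hy, hyx⟩ := hK i AlgEquiv.refl (h₁ hx)
      have h3 : y = x := hyx
      rw [← h3]
      exact hy
    exact ⟨⟨i, inclusion h2⟩⟩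
  refine infinite_tw (K₀ := K₀) (fun i => F i) hk hF p hp (fun χ hχ hs hd => ?_) f₁ n hirr₁ hm₁ hf h0' h1'
  obtain ⟨z, hz⟩ := exists_root_tot F K hK p hp hgal K₁ h₁ χ hχ hs hd
  refine ⟨z, ?_⟩
  rw [eval_map] at hz
  exact hz

end Pool.Agent.Helper51.HN
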