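import Pool.Agent.Helper51.HN.P15
import Pool.Agent.Helper51.HN.P16

set_option autoImplicit false

/-!
HN-P23: relations over a nonreal finite Galois extension `E` of `K` which are stable under the Galois
group, with `J` simple elements of `K` and of size prime to `p`.
-/

namespace Pool.Agent.Helper51.HN

open Finset Polynomial

section

variable {K E : Type*} [Field K] [Field E] [Algebra K E]

/-- stable under the Galois group -/
def Stab (K : Type*) {E : Type*} [Field K] [Field E] [Algebra K E] (M : Multiset E) : Prop :=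
  ∀ σ : E ≃ₐ[K] E, M.map σ = M

theorem Stab.add {M M' : Multiset E} (h : Stab K M) (h' : Stab K M') : Stab K (M + M') :=
  fun σ => by rw [Multiset.map_add, h σ, h' σ]

theorem Stab.nsmul {M : Multiset E} (h : Stab K M) (n : ℕ) : Stab K (n • M) :=
  fun σ => by rw [Multiset.map_nsmul, h σ]

theorem Stab.sum {κ : Type*} (s : Finset κ) {M : κ → Multiset E} (h : ∀ k ∈ s, Stab K (M k)) :
    Stab K (∑ k ∈ s, M k) := by
  classical
  induction s using Finset.induction_on with
  | empty => exact fun σ => by simp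
  | insert a s ha ih =>
    rw [sum_insert ha]
    exact (h a (mem_insert_self a s)).add (ih fun k hk => h k (mem_insert_of_mem hk))

theorem Stab.smul {M : Multiset E} (h : Stab K M) (y : K) :
    Stab K (M.map (fun z => algebraMap K E y * z)) := by
  intro σ
  have h1 := congrArg (Multiset.map (fun z => algebraMap K E y * z)) (h σ)
  rw [Multiset.map_map] at h1 ⊢
  rw [← h1]
  refine Multiset.map_congr rfl fun z _ => ?_
  simp only [Function.comp, map_mul, AlgEquiv.commutes]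

theorem Stab.replicate (n : ℕ) (y : K) : Stab K (Multiset.replicate n (algebraMap K E y)) :=
  fun σ => by rw [Multiset.map_replicate, AlgEquiv.commutes]

/-- the saturation of a relation, without the leading element -/
theorem p23_sat [FiniteDimensional K E] (J : ℕ) (A : Multiset E) (a₁ : E)
    (ha₁ : a₁ ∈ A) (h0 : (0 : E) ∉ A)
    (hm : ∀ m, 1 ≤ m → m ≤ J → (A.map (fun a => a ^ m)).sum = 0) :
    ∃ (P : Multiset E) (g : ℕ), 1 ≤ g ∧ Stab K P ∧ (0 : E) ∉ P ∧
      ∀ m, 1 ≤ m → m ≤ J → (P.map (fun a => a ^ m)).sum = -(g : E) := by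
  classical
  have ha0 : a₁ ≠ 0 := fun h => h0 (h ▸ ha₁)
  have : Fintype (E ≃ₐ[K] E) := Fintype.ofFinite _
  set Q : Multiset E := (A.erase a₁).map (fun z => a₁⁻¹ * z) with hQ
  have hQ0 : (0 : E) ∉ Q := by
    intro h
    obtain ⟨z, hz, h⟩ := Multiset.mem_map.1 h
    rcases mul_eq_zero.1 h with h | h
    · exact ha0 (inv_eq_zero.1 h)
    · exact h0 (h ▸ Multiset.mem_of_mem_erase hz)
  have hQm : ∀ m, 1 ≤ m → m ≤ J → (Q.map (fun a => a ^ m)).sum = -1 := by
    intro m h1 h2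
    have h3 : (A.map (fun a => a ^ m)).sum = a₁ ^ m + ((A.erase a₁).map (fun a => a ^ m)).sum := by
      conv_lhs => rw [← Multiset.cons_erase ha₁]
      rw [Multiset.map_cons, Multiset.sum_cons]
    rw [hm m h1 h2] at h3
    rw [hQ, p15_mul_sum]
    have h4 : ((A.erase a₁).map (fun a => a ^ m)).sum = - a₁ ^ m := by
      linear_combination -h3
    rw [h4, inv_pow]
    have : a₁ ^ m ≠ 0 := pow_ne_zero _ ha0
    field_simp
  refine ⟨∑ σ : E ≃ₐ[K] E, Q.map σ, Fintype.card (E ≃ₐ[K] E), Fintype.card_pos, ?_, ?_, ?_⟩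
  · intro τ
    have h1 : Multiset.map (⇑τ) (∑ σ : E ≃ₐ[K] E, Multiset.map (⇑σ) Q) =
        ∑ σ : E ≃ₐ[K] E, Multiset.map (⇑(τ * σ)) Q := by
      have h2 := map_sum (Multiset.mapAddMonoidHom (τ : E → E)) (fun σ : E ≃ₐ[K] E =>
        Multiset.map (⇑σ) Q) Finset.univ
      simp only [Multiset.coe_mapAddMonoidHom] at h2
      rw [h2]
      refine sum_congr rfl fun σ _ => ?_
      rw [Multiset.map_map]
      rfl
    rw [h1]
    exact Fintype.sum_bijective (fun σ => τ * σ) (Group.mulLeft_bijective τ) _ _ fun σ => rfl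
  · intro h
    obtain ⟨σ, _, h⟩ := (p15_sum_mem _ _ _).1 h
    obtain ⟨z, hz, h⟩ := Multiset.mem_map.1 h
    have : z = 0 := (map_eq_zero_iff σ σ.injective).1 h
    exact hQ0 (this ▸ hz)
  · intro m h1 h2
    rw [p15_sum_map]
    have h3 : ∀ σ : E ≃ₐ[K] E, ((Q.map σ).map (fun a => a ^ m)).sum = -1 := by
      intro σ
      have h4 := congrArg σ (hQm m h1 h2)
      rw [map_neg, map_one, map_multiset_sum, Multiset.map_map] at h4
      rw [Multiset.map_map, ← h4]
      congr 1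
      refine Multiset.map_congr rfl fun z _ => ?_
      simp only [Function.comp, map_pow]
    rw [sum_congr rfl fun σ _ => h3 σ]
    simp

theorem p23_one (J p : ℕ) (hp : p.Prime) (P : Multiset E) (g : ℕ) (hg : 1 ≤ g)
    (hP : Stab K P)
    (hm : ∀ m, 1 ≤ m → m ≤ J → (P.map (fun a => a ^ m)).sum = -(g : E)) (y : K) (c : ℤ) :
    ∃ M : Multiset E, Stab K M ∧ (∀ z ∈ M, ∃ ρ ∈ (1 : E) ::ₘ P, z = algebraMap K E y * ρ) ∧
      (∀ m, 1 ≤ m → m ≤ J → (M.map (fun b => b ^ m)).sum = (c : E) * algebraMap K E y ^ m) ∧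
      (p : ℤ) ∣ (Multiset.card M : ℤ) - c := by
  classical
  have hk : 0 ≤ c + (c.natAbs * p * g : ℕ) := by
    have h1 : (1 : ℤ) ≤ (p : ℤ) * g := by
      have h2 : 1 ≤ p * g := Nat.mul_pos hp.pos hg
      exact_mod_cast h2
    push_cast
    nlinarith [abs_nonneg c, neg_abs_le c, Int.natCast_natAbs c]
  obtain ⟨n, hn⟩ := Int.eq_ofNat_of_zero_le hk
  refine ⟨Multiset.replicate n (algebraMap K E y) +
    (c.natAbs * p) • P.map (fun z => algebraMap K E y * z), ?_, ?_, ?_, ?_⟩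
  · exact (Stab.replicate n y).add ((hP.smul y).nsmul _)
  · intro z hz
    rcases Multiset.mem_add.1 hz with hz | hz
    · refine ⟨1, Multiset.mem_cons_self 1 P, ?_⟩
      rw [Multiset.eq_of_mem_replicate hz, mul_one]
    · have hz' := Multiset.mem_of_mem_nsmul hz
      obtain ⟨a, ha, rfl⟩ := Multiset.mem_map.1 hz'
      exact ⟨a, Multiset.mem_cons_of_mem ha, rfl⟩
  · intro m h1 h2
    rw [Multiset.map_add, Multiset.sum_add, Multiset.map_replicate, Multiset.sum_replicate,
      Multiset.map_nsmul, Multiset.sum_nsmul, p15_mul_sum, hm m h1 h2]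
    have h6 : (n : E) = (c : E) + ((c.natAbs * p * g : ℕ) : E) := by
      have := congrArg (fun t : ℤ => (t : E)) hn
      simp only [Int.cast_add, Int.cast_natCast] at this
      exact this.symm
    rw [nsmul_eq_mul, nsmul_eq_mul, h6]
    push_cast
    ring
  · rw [Multiset.card_add, Multiset.card_replicate, Multiset.card_nsmul, Multiset.card_map]
    refine ⟨(c.natAbs : ℤ) * g + (c.natAbs : ℤ) * (Multiset.card P : ℤ), ?_⟩
    have hn' : (n : ℤ) = c + (c.natAbs * p * g : ℕ) := hn.symm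
    push_cast at hn' ⊢
    rw [hn']
    ring

theorem p23_G (J p : ℕ) (hp : p.Prime) (P : Multiset E) (g : ℕ) (hg : 1 ≤ g)
    (hP : Stab K P)
    (hm : ∀ m, 1 ≤ m → m ≤ J → (P.map (fun a => a ^ m)).sum = -(g : E)) (x : K) :
    ∃ M : Multiset E, Stab K M ∧ (∀ z ∈ M, ∃ i ∈ range (J + 1), ∃ ρ ∈ (1 : E) ::ₘ P,
        z = algebraMap K E (x + ((i + 1 : ℕ) : K)) * ρ) ∧
      (∀ m, 1 ≤ m → m ≤ J → (M.map (fun b => b ^ m)).sum = - algebraMap K E x ^ m) ∧
      (p : ℤ) ∣ (Multiset.card M : ℤ) + 1 := by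
  choose M h0 h1 h2 h3 using fun i : ℕ =>
    p23_one J p hp P g hg hP hm (x + ((i + 1 : ℕ) : K)) (p15_c J (i + 1))
  refine ⟨∑ i ∈ range (J + 1), M i, Stab.sum _ fun i _ => h0 i, ?_, ?_, ?_⟩
  · intro z hz
    obtain ⟨i, hi, hz⟩ := (p15_sum_mem _ _ _).1 hz
    exact ⟨i, hi, h1 i z hz⟩
  · intro m hm1 hm2
    rw [p15_sum_map, sum_congr rfl (fun i _ => h2 i m hm1 hm2),
      ← p15_diff J m hm2 (algebraMap K E x)]
    refine sum_congr rfl fun i _ => ?_
    rw [map_add, map_natCast]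
  · rw [p15_sum_card]
    have h4 : (((∑ i ∈ range (J + 1), Multiset.card (M i) : ℕ) : ℤ) + 1)
        = ∑ i ∈ range (J + 1), ((Multiset.card (M i) : ℤ) - p15_c J (i + 1)) := by
      rw [sum_sub_distrib, p15_diff0]
      push_cast
      ring
    rw [h4]
    exact dvd_sum (fun i _ => h3 i)

theorem exists_simple_stab [CharZero K] [FiniteDimensional K E] (J p : ℕ) (hp : p.Prime)
    (A : Multiset E) (hA : A ≠ 0) (h0 : (0 : E) ∉ A)
    (hm : ∀ m, 1 ≤ m → m ≤ J → (A.map (fun a => a ^ m)).sum = 0) :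
    ∃ (B : Multiset E) (s : Finset K), Stab K B ∧ s.card = J ∧ (0 : E) ∉ B ∧ (0 : K) ∉ s ∧
      (∀ b ∈ s, algebraMap K E b ∉ B) ∧ ¬ p ∣ Multiset.card B + J ∧ 1 ≤ Multiset.card B ∧
      ∀ m, 1 ≤ m → m ≤ J →
        (B.map (fun b => b ^ m)).sum + ∑ b ∈ s, algebraMap K E b ^ m = 0 := by
  classical
  obtain ⟨a₁, ha₁⟩ := Multiset.exists_mem_of_ne_zero hA
  have : Infinite K := CharZero.infinite K
  have hi : Function.Injective (algebraMap K E) := (algebraMap K E).injective
  have hnat : ∀ i : ℕ, ((i + 1 : ℕ) : K) ≠ 0 := fun i => Nat.cast_ne_zero.2 (Nat.succ_ne_zero i)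
  obtain ⟨P, g, hg, hPs, hP0, hPm⟩ := p23_sat (K := K) J A a₁ ha₁ h0 hm
  have hP1 : ∀ ρ ∈ (1 : E) ::ₘ P, ρ ≠ 0 := by
    intro ρ hρ h
    rcases Multiset.mem_cons.1 hρ with h' | h'
    · exact one_ne_zero (h'.symm.trans h)
    · exact hP0 (h ▸ h')
  -- the relation R₃
  obtain ⟨R, hRs, hR1, hR2, hR3⟩ := p23_G J p hp P g hg hPs hPm (0 : K)
  have hR0 : (0 : E) ∉ R := by
    intro h
    obtain ⟨i, _, ρ, hρ, h⟩ := hR1 0 h
    rw [zero_add] at h
    exact mul_ne_zero ((_root_.map_ne_zero _).2 (hnat i)) (hP1 ρ hρ) h.symm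
  -- the generic element x
  obtain ⟨x, hx⟩ := Infinite.exists_notMem_finset
    ({(0 : K)} ∪ (range (J + 1)).image (fun i : ℕ => -((i + 1 : ℕ) : K)) ∪
      ((range (J + 1) ×ˢ ((1 : E) ::ₘ P).toFinset).image
        (fun q => ((q.1 + 1 : ℕ) : E) * q.2 / (1 - q.2))).preimage (algebraMap K E) hi.injOn)
  simp only [mem_union, mem_singleton, mem_image, mem_preimage, mem_product, not_or,
    Multiset.mem_toFinset] at hx
  obtain ⟨⟨hx1, hx2⟩, hx3⟩ := hx
  obtain ⟨M, hMs, hM1, hM2, hM3⟩ := p23_G J p hp P g hg hPs hPm x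
  have hxE : algebraMap K E x ≠ 0 := (_root_.map_ne_zero _).2 hx1
  have hM0 : (0 : E) ∉ M := by
    intro h
    obtain ⟨i, hi', ρ, hρ, h⟩ := hM1 0 h
    have hxi : x + ((i + 1 : ℕ) : K) ≠ 0 := by
      intro h'
      exact hx2 ⟨i, hi', (eq_neg_of_add_eq_zero_left h').symm⟩
    exact mul_ne_zero ((_root_.map_ne_zero _).2 hxi) (hP1 ρ hρ) h.symm
  have hMx : algebraMap K E x ∉ M := by
    intro h
    obtain ⟨i, hi', ρ, hρ, h⟩ := hM1 _ h
    rw [map_add, map_natCast] at h
    by_cases haa : 1 - ρ = 0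
    · have : ρ = 1 := (sub_eq_zero.1 haa).symm
      rw [this, mul_one] at h
      have h8 : ((i + 1 : ℕ) : E) = 0 := by linear_combination -h
      refine hnat i (hi ?_)
      rw [map_natCast, map_zero]
      exact h8
    · refine hx3 ⟨(i, ρ), ⟨hi', hρ⟩, ?_⟩
      simp only
      rw [div_eq_iff haa]
      linear_combination -h
  -- T
  set T : Multiset E := M.map (fun z => algebraMap K E x⁻¹ * z) with hT
  have hTs' : Stab K T := hMs.smul x⁻¹
  have hinv : algebraMap K E x⁻¹ = (algebraMap K E x)⁻¹ := map_inv₀ _ _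
  have hT0 : (0 : E) ∉ T := by
    intro h
    obtain ⟨z, hz, h⟩ := Multiset.mem_map.1 h
    rcases mul_eq_zero.1 h with h | h
    · rw [hinv] at h
      exact hxE (inv_eq_zero.1 h)
    · exact hM0 (h ▸ hz)
  have hT1 : (1 : E) ∉ T := by
    intro h
    obtain ⟨z, hz, h⟩ := Multiset.mem_map.1 h
    have : z = algebraMap K E x := by
      rw [hinv] at h
      field_simp at h
      exact h
    exact hMx (this ▸ hz)
  have hTs : ∀ m, 1 ≤ m → m ≤ J → (T.map (fun b => b ^ m)).sum = -1 := by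
    intro m h1 h2
    rw [hT, p15_mul_sum, hM2 m h1 h2, hinv, inv_pow]
    have : algebraMap K E x ^ m ≠ 0 := pow_ne_zero _ hxE
    field_simp
  have hTc : (p : ℤ) ∣ (Multiset.card T : ℤ) + 1 := by
    rw [hT, Multiset.card_map]
    exact hM3
  obtain ⟨s, hs1, hs2, hs3⟩ := p15_s (T.toFinset.preimage (algebraMap K E) hi.injOn)
    (by rwa [mem_preimage, map_one, Multiset.mem_toFinset]) J
  obtain ⟨μ, hμ⟩ := Infinite.exists_notMem_finset
    ({(0 : K)} ∪ ((s ×ˢ R.toFinset).image (fun q => algebraMap K E q.1 / q.2)).preimage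
      (algebraMap K E) hi.injOn)
  simp only [mem_union, mem_singleton, mem_image, mem_preimage, mem_product, not_or,
    Multiset.mem_toFinset] at hμ
  obtain ⟨hμ1, hμ2⟩ := hμ
  have hμE : algebraMap K E μ ≠ 0 := (_root_.map_ne_zero _).2 hμ1
  have hcardR : 1 ≤ Multiset.card R := by
    by_contra h
    have h' : Multiset.card R = 0 := by omega
    rw [h'] at hR3
    have h7 : (p : ℤ) ∣ 1 := by simpa using hR3
    have h8 : p ∣ 1 := by exact_mod_cast h7
    exact hp.one_lt.ne' (Nat.dvd_one.1 h8)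
  refine ⟨(∑ b ∈ s, T.map (fun z => algebraMap K E b * z)) + R.map (fun z => algebraMap K E μ * z),
    s, ?_, hs1, ?_, hs2, ?_, ?_, ?_, ?_⟩
  · exact (Stab.sum s fun b _ => hTs'.smul b).add (hRs.smul μ)
  · intro h
    rcases Multiset.mem_add.1 h with h | h
    · obtain ⟨b, hb, h⟩ := (p15_sum_mem _ _ _).1 h
      obtain ⟨z, hz, h⟩ := Multiset.mem_map.1 h
      rcases mul_eq_zero.1 h with h | h
      · have h' : b = 0 := hi (by rw [h, map_zero])
        exact hs2 (h' ▸ hb)
      · exact hT0 (h ▸ hz)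
    · obtain ⟨z, hz, h⟩ := Multiset.mem_map.1 h
      rcases mul_eq_zero.1 h with h | h
      · exact hμE h
      · exact hR0 (h ▸ hz)
  · intro w hws hw
    rcases Multiset.mem_add.1 hw with h | h
    · obtain ⟨b, hb, h⟩ := (p15_sum_mem _ _ _).1 h
      obtain ⟨z, hz, h⟩ := Multiset.mem_map.1 h
      have hb0 : b ≠ 0 := fun h' => hs2 (h' ▸ hb)
      have hbE : algebraMap K E b ≠ 0 := (_root_.map_ne_zero _).2 hb0
      have hz' : algebraMap K E (w / b) = z := by
        rw [map_div₀, ← h]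
        field_simp
      have h9 := hs3 b hb (w / b) (by rw [mem_preimage, Multiset.mem_toFinset, hz']; exact hz)
      rw [mul_div_cancel₀ _ hb0] at h9
      exact h9 hws
    · obtain ⟨z, hz, h⟩ := Multiset.mem_map.1 h
      have hz0 : z ≠ 0 := fun h' => hR0 (h' ▸ hz)
      exact hμ2 ⟨(w, z), ⟨hws, hz⟩, by rw [← h]; field_simp⟩
  · intro hdvd
    have h1 : (p : ℤ) ∣ ((Multiset.card ((∑ b ∈ s, T.map (fun z => algebraMap K E b * z)) +
        R.map (fun z => algebraMap K E μ * z)) + J : ℕ) : ℤ) := by exact_mod_cast hdvd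
    rw [Multiset.card_add, p15_sum_card, Multiset.card_map] at h1
    simp only [Multiset.card_map, sum_const, hs1, smul_eq_mul] at h1
    push_cast at h1
    have h2 : (p : ℤ) ∣ (J : ℤ) * ((Multiset.card T : ℤ) + 1) := Dvd.dvd.mul_left hTc _
    have h3 := dvd_sub h1 h2
    have h4 := dvd_sub hR3 h3
    have h5 : (Multiset.card R : ℤ) + 1 - (((J : ℤ) * (Multiset.card T : ℤ) +
        (Multiset.card R : ℤ) + (J : ℤ)) - (J : ℤ) * ((Multiset.card T : ℤ) + 1)) = 1 := by ring
    rw [h5] at h4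
    have h8 : p ∣ 1 := by exact_mod_cast h4
    exact hp.one_lt.ne' (Nat.dvd_one.1 h8)
  · rw [Multiset.card_add, Multiset.card_map]
    omega
  · intro m h1 h2
    rw [Multiset.map_add, Multiset.sum_add, p15_sum_map, p15_mul_sum, hR2 m h1 h2]
    have h3 : ∑ i ∈ s, ((T.map (fun z => algebraMap K E i * z)).map (fun b => b ^ m)).sum =
        ∑ i ∈ s, - algebraMap K E i ^ m := by
      refine sum_congr rfl (fun i _ => ?_)
      rw [p15_mul_sum, hTs m h1 h2]
      ring
    rw [h3, sum_neg_distrib, map_zero, zero_pow (by omega)]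
    ring

end

end Pool.Agent.Helper51.HN
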