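import Pool.Agent.Helper51.HN.P23

set_option autoImplicit false

/-!
HN-P24: the polynomial over `K` of a stable relation.
-/

namespace Pool.Agent.Helper51.HN

open Finset Polynomial

variable {K E : Type*} [Field K] [Field E] [Algebra K E]

theorem exists_poly_of_stab [FiniteDimensional K E] [IsGalois K E] (B : Multiset E)
    (hB : Stab K B) :
    ∃ Q : K[X], Q.Monic ∧ Q.map (algebraMap K E) = (B.map (fun b => X - C b)).prod := by
  set W : E[X] := (B.map (fun b => X - C b)).prod with hW
  have hWm : W.Monic := monic_multiset_prod_of_monic _ _ fun b _ => monic_X_sub_C b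
  have hfix : ∀ σ : E ≃ₐ[K] E, W.map (σ : E →+* E) = W := by
    intro σ
    rw [hW, Polynomial.map_multiset_prod, Multiset.map_map]
    conv_rhs => rw [← hB σ]
    rw [Multiset.map_map]
    congr 1
    refine Multiset.map_congr rfl fun b _ => ?_
    simp only [Function.comp, Polynomial.map_sub, map_X, map_C]
    rfl
  have hl : W ∈ lifts (algebraMap K E) := by
    rw [lifts_iff_coeff_lifts]
    intro n
    have h1 : W.coeff n ∈ (⊥ : IntermediateField K E) := by
      rw [IsGalois.mem_bot_iff_fixed]
      intro σ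
      have h2 := congrArg (fun q => coeff q n) (hfix σ)
      simp only [coeff_map] at h2
      exact h2
    rw [IntermediateField.mem_bot] at h1
    exact h1
  obtain ⟨Q, hQ⟩ := hl
  refine ⟨Q, ?_, hQ⟩
  refine monic_of_injective (algebraMap K E).injective ?_
  rw [← coe_mapRingHom, hQ]
  exact hWm

theorem exists_poly_stab [CharZero K] [FiniteDimensional K E] [IsGalois K E] (J p : ℕ)
    (hp : p.Prime) (A : Multiset E) (hA : A ≠ 0) (h0 : (0 : E) ∉ A)
    (hm : ∀ m, 1 ≤ m → m ≤ J → (A.map (fun a => a ^ m)).sum = 0) :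
    ∃ (Q : K[X]) (s : Finset K), Q.Monic ∧ (Q.map (algebraMap K E)).Splits ∧ s.card = J ∧
      Q.coeff 0 ≠ 0 ∧ (0 : K) ∉ s ∧ (∀ b ∈ s, Q.eval b ≠ 0) ∧ ¬ p ∣ Q.natDegree + J ∧
      1 ≤ Q.natDegree ∧
      ∀ i, 1 ≤ i → i ≤ J → (Q * ∏ b ∈ s, (X - C b)).coeff (Q.natDegree + J - i) = 0 := by
  classical
  obtain ⟨B, s, hBs, hs, hB0, hs0, hsB, hd, h1, hsum⟩ :=
    exists_simple_stab (K := K) J p hp A hA h0 hm
  obtain ⟨Q, hQm, hQ⟩ := exists_poly_of_stab B hBs
  have hi : Function.Injective (algebraMap K E) := (algebraMap K E).injective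
  have hCE : CharZero E := charZero_of_injective_algebraMap hi
  have hdeg : Q.natDegree = Multiset.card B := by
    rw [← hQm.natDegree_map (algebraMap K E), hQ, natDegree_multiset_prod_X_sub_C_eq_card]
  have hroot : ∀ b : K, algebraMap K E b ∉ B → Q.eval b ≠ 0 := by
    intro b hb h
    apply hb
    have h2 : (Q.map (algebraMap K E)).eval (algebraMap K E b) = 0 := by
      rw [eval_map_algebraMap, aeval_algebraMap_apply_eq_algebraMap_eval, h, map_zero]
    rw [hQ, eval_multiset_prod, Multiset.map_map, Multiset.prod_eq_zero_iff,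
      Multiset.mem_map] at h2
    obtain ⟨c, hc, h3⟩ := h2
    simp only [Function.comp, eval_sub, eval_X, eval_C] at h3
    rw [sub_eq_zero.1 h3]
    exact hc
  refine ⟨Q, s, hQm, ?_, hs, ?_, hs0, fun b hb => hroot b (hsB b hb), ?_, ?_, ?_⟩
  · rw [hQ]
    exact Splits.multisetProd fun q hq => by
      obtain ⟨b, _, rfl⟩ := Multiset.mem_map.1 hq
      exact Splits.X_sub_C b
  · rw [coeff_zero_eq_eval_zero]
    exact hroot 0 (by rwa [map_zero])
  · rw [hdeg]
    exact hd
  · rw [hdeg]
    exact h1
  · intro i hi1 hi2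
    apply hi
    rw [map_zero, ← coeff_map, Polynomial.map_mul, hQ, Polynomial.map_prod, hdeg]
    have h2 : ∏ b ∈ s, Polynomial.map (algebraMap K E) (X - C b) =
        ((s.val.map (algebraMap K E)).map (fun b => X - C b)).prod := by
      rw [Multiset.map_map]
      refine prod_congr rfl fun b _ => ?_
      simp
    rw [h2, ← Multiset.prod_add, ← Multiset.map_add]
    have hcard : Multiset.card (B + s.val.map (algebraMap K E)) = Multiset.card B + J := by
      rw [Multiset.card_add, Multiset.card_map, Finset.card_val, hs]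
    have h3 := gap_of_powerSum J (B + s.val.map (algebraMap K E)) (by rw [hcard]; omega)
      (fun m h4 h5 => by
        rw [Multiset.map_add, Multiset.sum_add, Multiset.map_map]
        exact hsum m h4 h5) i hi1 hi2
    rw [hcard] at h3
    exact h3

end Pool.Agent.Helper51.HN
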