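import Pool.Agent.Helper51.HN.P11
import Pool.Agent.Helper51.HN.P14
import Pool.Agent.Helper51.HN.P17
import Pool.Agent.Helper51.HN.P24

set_option autoImplicit false

/-!
HN-P25: removal of multiple roots, keeping the gap; the roots lie in a finite Galois extension `E`
of `K` which embeds in all `F i`. Compare P17.
-/

namespace Pool.Agent.Helper51.HN

open Polynomial Filter Pool.Agent.Helper51.HI

variable {K : Type*} [Field K]

theorem p25_factors (Q : K[X]) (hQ : Q.Monic) :
    ∃ M : Multiset K[X], (∀ q ∈ M, Irreducible q ∧ q.Monic) ∧ M.prod = Q := by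
  classical
  refine ⟨UniqueFactorizationMonoid.normalizedFactors Q, fun q hq => ?_, ?_⟩
  · have h1 := UniqueFactorizationMonoid.irreducible_of_normalized_factor q hq
    refine ⟨h1, ?_⟩
    rw [← Polynomial.normalize_eq_self_iff_monic h1.ne_zero]
    exact UniqueFactorizationMonoid.normalize_normalized_factor q hq
  · rw [UniqueFactorizationMonoid.prod_normalizedFactors_eq hQ.ne_zero]
    exact (Polynomial.normalize_eq_self_iff_monic hQ.ne_zero).2 hQ

theorem p25_coprime {E : Type*} [Field E] [Algebra K E] (u v : K[X]) (hu0 : u ≠ 0)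
    (hu : (u.map (algebraMap K E)).Splits)
    (h : ∀ z : E, aeval z u = 0 → aeval z v ≠ 0) : IsCoprime u v := by
  refine isCoprime_of_dvd u v (fun h' => hu0 h'.1) fun d hd hd0 hdu hdv => ?_
  have hdeg : (d.map (algebraMap K E)).degree ≠ 0 := by
    rw [degree_map]
    intro h'
    exact hd (isUnit_iff_degree_eq_zero.2 h')
  have hds : (d.map (algebraMap K E)).Splits :=
    hu.of_dvd ((Polynomial.map_ne_zero_iff (algebraMap K E).injective).2 hu0)
      (Polynomial.map_dvd _ hdu)
  obtain ⟨z, hz⟩ := hds.exists_eval_eq_zero hdeg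
  rw [eval_map_algebraMap] at hz
  obtain ⟨a, ha⟩ := hdu
  obtain ⟨b, hb⟩ := hdv
  refine h z (by rw [ha, map_mul, hz, zero_mul]) (by rw [hb, map_mul, hz, zero_mul])

theorem p25_sep_comp (q : K[X]) (hq : q.Separable) (a : K) : (q.comp (X - C a)).Separable := by
  have h := IsCoprime.map hq (compRingHom (X - C a))
  rw [coe_compRingHom_apply, coe_compRingHom_apply] at h
  rw [Separable, derivative_comp, derivative_sub, derivative_X, derivative_C, sub_zero, one_mul]
  exact h

theorem p25_aux [Infinite K] [CharZero K] (ℱ : Filter K) [ℱ.NeBot] (hcof : ℱ ≤ cofinite)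
    {ι : Type*} [Finite ι] (F : ι → Type*) [∀ i, Field (F i)] [∀ i, Algebra K (F i)]
    (hpers : ∀ i, Pers ℱ (F i)) {E : Type*} [Field E] [Algebra K E]
    (hE : ∀ i, Nonempty (E →ₐ[K] F i)) (J : ℕ) {κ : Type*} [Fintype κ] (q : κ → K[X]) (c : κ → K)
    (hc : Function.Injective c) (hq : ∀ k, Irreducible (q k)) (hqm : ∀ k, (q k).Monic)
    (hqs : ∀ k, ((q k).map (algebraMap K E)).Splits) (s : Finset K) (hs : s.card = J)
    (hq0 : ∀ k, (q k).coeff 0 ≠ 0) (hs0 : (0 : K) ∉ s) (hbs : ∀ k, ∀ b ∈ s, (q k).eval b ≠ 0)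
    (hgap : ∀ i, 1 ≤ i → i ≤ J →
      ((∏ k, q k) * ∏ b ∈ s, (X - C b)).coeff ((∏ k, q k).natDegree + J - i) = 0) :
    ∃ T : K[X], T.Monic ∧ T.natDegree = (∏ k, q k).natDegree + J ∧ T.coeff 0 ≠ 0 ∧
      (∀ i, 1 ≤ i → i ≤ J → T.coeff ((∏ k, q k).natDegree + J - i) = 0) ∧
      ∀ i, SR (F i) T ((∏ k, q k).natDegree + J) := by
  classical
  set N := (∏ k, q k).natDegree with hN
  set φ := algebraMap K E with hφ
  have hφi : Function.Injective φ := φ.injective
  set U : K[X][X] := ∏ k, ((q k).map C).comp (X - C (C (c k) * X)) with hU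
  have hUk : ∀ k, (((q k).map C).comp (X - C (C (c k) * X)) : K[X][X]).Monic := fun k =>
    ((hqm k).map C).comp (monic_X_sub_C _) (by rw [natDegree_X_sub_C]; exact one_ne_zero)
  have hUm : U.Monic := monic_prod_of_monic _ _ fun k _ => hUk k
  have hUμ : ∀ μ : K, U.map (evalRingHom μ) = ∏ k, (q k).comp (X - C (c k * μ)) := by
    intro μ
    rw [hU, Polynomial.map_prod]
    refine Finset.prod_congr rfl fun k _ => ?_
    rw [Polynomial.map_comp, Polynomial.map_map, Polynomial.map_sub, map_X, map_C]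
    congr 1
    · have : (evalRingHom μ).comp (C : K →+* K[X]) = RingHom.id K := by
        ext x
        simp
      rw [this, Polynomial.map_id]
    · simp
  have hU0 : U.map (evalRingHom 0) = ∏ k, q k := by
    rw [hUμ]
    simp
  have hUd : U.natDegree = N := by
    rw [← hUm.natDegree_map (evalRingHom (0 : K)), hU0]
  have hUdeg : U.degree = N := by rw [degree_eq_natDegree hUm.ne_zero, hUd]
  set R : K[X][X] := X ^ (N + J) /ₘ U with hR
  have hXdeg : (X ^ (N + J) : K[X][X]).degree = ((N + J : ℕ) : WithBot ℕ) := degree_X_pow _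
  have hRm : R.Monic := by
    rw [Monic, hR, leadingCoeff_divByMonic_of_monic hUm, leadingCoeff_X_pow]
    rw [hUdeg, hXdeg]
    exact_mod_cast Nat.le_add_right N J
  have hRd : R.natDegree = J := by
    rw [hR, natDegree_divByMonic _ hUm, natDegree_X_pow, hUd]
    omega
  set r : K[X][X] := X ^ (N + J) %ₘ U with hr
  have hrd : r.degree < N := by
    rw [← hUdeg]
    exact degree_modByMonic_lt _ hUm
  have hUR : U * R = X ^ (N + J) - r := by
    have := modByMonic_add_div (X ^ (N + J) : K[X][X]) U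
    rw [← hr, ← hR] at this
    rw [← this]
    ring
  have hR0 : R.map (evalRingHom 0) = ∏ a ∈ s, (X - C a) := by
    rw [hR, map_divByMonic _ hUm, Polynomial.map_pow, map_X, hU0]
    set U0 : K[X] := ∏ k, q k with hU0'
    set S : K[X] := ∏ a ∈ s, (X - C a) with hS
    have hU0m : U0.Monic := monic_prod_of_monic _ _ fun k _ => hqm k
    have hSm : S.Monic := monic_prod_of_monic _ _ fun k _ => monic_X_sub_C _
    have hSd : S.natDegree = J := by
      rw [hS, natDegree_finsetProd_X_sub_C_eq_card, hs]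
    have hUS : (U0 * S).Monic := hU0m.mul hSm
    have hUSd : (U0 * S).natDegree = N + J := by rw [hU0m.natDegree_mul hSm, hSd]
    have hrem : (X ^ (N + J) - U0 * S).degree < U0.degree := by
      rw [degree_eq_natDegree hU0m.ne_zero, ← hN, degree_lt_iff_coeff_zero]
      intro m hm
      rw [coeff_sub, coeff_X_pow]
      by_cases h1 : m = N + J
      · rw [if_pos h1, h1, ← hUSd]
        have := hUS.coeff_natDegree
        rw [this, sub_self]
      · rw [if_neg h1]
        by_cases h2 : m < N + J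
        · have := hgap (N + J - m) (by omega) (by omega)
          rw [show N + J - (N + J - m) = m by omega] at this
          rw [this, sub_zero]
        · rw [coeff_eq_zero_of_natDegree_lt (by omega), sub_zero]
    exact (div_modByMonic_unique S (X ^ (N + J) - U0 * S) hU0m ⟨by ring, hrem⟩).1
  have hne : ∀ t : K[X], t.eval 0 ≠ 0 → ∀ᶠ μ in ℱ, t.eval μ ≠ 0 := by
    intro t ht
    refine (eventually_eval_ne t ?_).filter_mono hcof
    rintro rfl
    exact ht eval_zero
  have hneE : ∀ t : E[X], t ≠ 0 → ∀ᶠ μ in ℱ, t.eval (φ μ) ≠ 0 := by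
    intro t ht
    have h1 : ∀ᶠ μ in (cofinite : Filter K), t.eval (φ μ) ≠ 0 := by
      rw [eventually_cofinite]
      refine ((t.roots.toFinset.finite_toSet).preimage hφi.injOn).subset fun δ hδ => ?_
      rw [Set.mem_preimage, Finset.mem_coe, Multiset.mem_toFinset, mem_roots ht]
      simpa using hδ
    exact h1.filter_mono hcof
  -- the roots
  let ρs : κ → Finset E := fun k => ((q k).map φ).roots.toFinset
  have hρs : ∀ k (z : E), aeval z (q k) = 0 → z ∈ ρs k := by
    intro k z hz
    rw [Multiset.mem_toFinset, mem_roots ((Polynomial.map_ne_zero_iff hφi).2 (hq k).ne_zero),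
      IsRoot.def, eval_map_algebraMap]
    exact hz
  have hρs' : ∀ k, ∀ z ∈ ρs k, aeval z (q k) = 0 := by
    intro k z hz
    rw [Multiset.mem_toFinset, mem_roots ((Polynomial.map_ne_zero_iff hφi).2 (hq k).ne_zero),
      IsRoot.def, eval_map_algebraMap] at hz
    exact hz
  have hshift : ∀ k (μ : K) (z : E), aeval z ((q k).comp (X - C (c k * μ))) = 0 →
      z - φ (c k) * φ μ ∈ ρs k := by
    intro k μ z hz
    apply hρs
    rw [aeval_comp, map_sub, aeval_X, aeval_C] at hz
    rwa [map_mul] at hz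
  have h1 : ∀ᶠ μ in ℱ, ∀ i, SR (F i) (R.map (evalRingHom μ)) J := by
    rw [eventually_all]
    intro i
    apply hpers i
    rw [hR0, ← hs]
    exact p17_sr_prod s (fun a => a) fun x _ y _ h => h
  have h2 : ∀ᶠ μ in ℱ, ∀ k, ∀ ρ ∈ ρs k,
      aeval (ρ + φ (c k) * φ μ) (R.map (evalRingHom μ)) ≠ 0 := by
    rw [eventually_all]
    intro k
    rw [Finset.eventually_all]
    intro ρ hρ
    have hevE : ∀ μ : K, ((R.map (mapRingHom φ)).eval (C ρ + C (φ (c k)) * X)).eval (φ μ) =
        aeval (ρ + φ (c k) * φ μ) (R.map (evalRingHom μ)) := by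
      intro μ
      have h3 := Polynomial.eval₂_at_apply (p := R.map (mapRingHom φ)) (evalRingHom (φ μ))
        (C ρ + C (φ (c k)) * X)
      rw [coe_evalRingHom] at h3
      rw [← h3, eval₂_map]
      have h4 : (evalRingHom (φ μ)).comp (mapRingHom φ) = φ.comp (evalRingHom μ) := by
        ext x
        · simp
        · simp
      rw [h4, aeval_def, eval₂_map]
      congr 1
      simp
    have h3 : (R.map (mapRingHom φ)).eval (C ρ + C (φ (c k)) * X) ≠ 0 := by
      intro h
      have h4 := hevE 0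
      rw [h, eval_zero, map_zero, mul_zero, add_zero, hR0, map_prod] at h4
      obtain ⟨b, hb, h5⟩ := Finset.prod_eq_zero_iff.1 h4.symm
      rw [map_sub, aeval_X, aeval_C, sub_eq_zero] at h5
      have h6 := hρs' k ρ hρ
      rw [h5, aeval_algebraMap_apply_eq_algebraMap_eval] at h6
      exact hbs k b hb (hφi (by rw [map_zero]; exact h6))
    refine (hneE _ h3).mono fun μ hμ => ?_
    rwa [hevE] at hμ
  have h3 : ∀ᶠ μ in ℱ, ∀ k k', k ≠ k' → ∀ ρ ∈ ρs k, ∀ ρ' ∈ ρs k',
      ρ + φ (c k) * φ μ ≠ ρ' + φ (c k') * φ μ := by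
    rw [eventually_all]
    intro k
    rw [eventually_all]
    intro k'
    by_cases hk : k = k'
    · exact Eventually.of_forall fun μ h => absurd hk h
    · have : ∀ᶠ μ in ℱ, ∀ ρ ∈ ρs k, ∀ ρ' ∈ ρs k', ρ + φ (c k) * φ μ ≠ ρ' + φ (c k') * φ μ := by
        rw [Finset.eventually_all]
        intro ρ _
        rw [Finset.eventually_all]
        intro ρ' _
        have h4 : (C (ρ - ρ') + C (φ (c k) - φ (c k')) * X : E[X]) ≠ 0 := by
          intro h
          have h5 := congrArg (fun q => coeff q 1) h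
          simp only [coeff_add, coeff_C_mul, coeff_X_one, coeff_C_succ, coeff_zero,
            zero_add, mul_one] at h5
          exact hk (hc (hφi (sub_eq_zero.1 h5)))
        refine (hneE _ h4).mono fun μ hμ h => hμ ?_
        rw [eval_add, eval_C, eval_mul, eval_C, eval_X]
        linear_combination h
      exact this.mono fun μ hμ _ => hμ
  have h4 : ∀ᶠ μ in ℱ, ((U * R).map (evalRingHom μ)).coeff 0 ≠ 0 := by
    have h5 : ((U * R).coeff 0).eval 0 ≠ 0 := by
      rw [← coe_evalRingHom, ← coeff_map, Polynomial.map_mul, hU0, hR0, mul_coeff_zero,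
        coeff_zero_eq_eval_zero, coeff_zero_eq_eval_zero, eval_prod, eval_prod]
      refine mul_ne_zero (Finset.prod_ne_zero_iff.2 fun k _ => ?_)
        (Finset.prod_ne_zero_iff.2 fun a ha => ?_)
      · rw [← coeff_zero_eq_eval_zero]
        exact hq0 k
      · rw [eval_sub, eval_X, eval_C, zero_sub, neg_ne_zero]
        rintro rfl
        exact hs0 ha
    refine (hne _ h5).mono fun μ hμ => ?_
    rw [coeff_map, coe_evalRingHom]
    exact hμ
  obtain ⟨μ, hμ1, hμ2, hμ3, hμ4⟩ := (h1.and (h2.and (h3.and h4))).exists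
  have hm : (U * R).Monic := hUm.mul hRm
  have hspl : ∀ k, (((q k).comp (X - C (c k * μ))).map φ).Splits := by
    intro k
    rw [Polynomial.map_comp, Polynomial.map_sub, map_X, map_C]
    exact (hqs k).comp_X_sub_C _
  have hUspl : ((U.map (evalRingHom μ)).map φ).Splits := by
    rw [hUμ, Polynomial.map_prod]
    exact Splits.prod fun k _ => hspl k
  have hUsep : (U.map (evalRingHom μ)).Separable := by
    rw [hUμ]
    refine separable_prod' ?_ fun k _ => p25_sep_comp _ (hq k).separable _
    intro k _ k' _ hkk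
    have hne0 : (q k).comp (X - C (c k * μ)) ≠ 0 := by
      have h5 := ((hqm k).comp (monic_X_sub_C (c k * μ))
        (by rw [natDegree_X_sub_C]; exact one_ne_zero)).ne_zero
      exact h5
    refine p25_coprime (E := E) _ _ hne0 (hspl k) fun z hz hz' => ?_
    have h5 := hshift k μ z hz
    have h6 := hshift k' μ z hz'
    exact hμ3 k k' hkk _ h5 _ h6 (by ring)
  refine ⟨(U * R).map (evalRingHom μ), hm.map _, ?_, hμ4, ?_, ?_⟩
  · rw [hm.natDegree_map, hUm.natDegree_mul hRm, hUd, hRd]
  · intro i hi1 hi2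
    rw [hUR, coeff_map, coeff_sub, coeff_X_pow, if_neg (by omega),
      coeff_eq_zero_of_degree_lt (hrd.trans_le (by exact_mod_cast (by omega))), sub_zero, map_zero]
  · intro i
    rw [Polynomial.map_mul]
    obtain ⟨e⟩ := hE i
    have h5 : SR (F i) (U.map (evalRingHom μ)) N := by
      have h6 : ((U.map (evalRingHom μ)).map (algebraMap K (F i))).Splits := by
        have h7 : algebraMap K (F i) = (e : E →+* F i).comp φ := by
          ext x
          exact (e.commutes x).symm
        rw [h7, ← Polynomial.map_map]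
        exact hUspl.map _
      have h8 := sr_of_splits (F := F i) _ hUsep h6
      rwa [hUm.natDegree_map, hUd] at h8
    refine p17_sr_mul h5 (hμ1 i) ?_
    refine p25_coprime (E := E) _ _ (hUm.map _).ne_zero hUspl fun z hz => ?_
    rw [hUμ, map_prod] at hz
    obtain ⟨k, _, hk⟩ := Finset.prod_eq_zero_iff.1 hz
    have h6 := hμ2 k _ (hshift k μ z hk)
    rwa [sub_add_cancel] at h6

theorem exists_gap_galois [Infinite K] (ℱ : Filter K) [ℱ.NeBot] (hcof : ℱ ≤ cofinite)
    {ι : Type*} [Finite ι] (F : ι → Type*) [∀ i, Field (F i)] [∀ i, Algebra K (F i)]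
    (hpers : ∀ i, Pers ℱ (F i)) {E : Type*} [Field E] [Algebra K E] [FiniteDimensional K E]
    [Normal K E] (hEs : IsSumSq (-1 : E)) (hE : ∀ i, Nonempty (E →ₐ[K] F i)) (J p : ℕ)
    (hp : p.Prime) :
    ∃ (k : ℕ) (T : K[X]), J < k ∧ ¬ p ∣ k ∧ T.Monic ∧ T.natDegree = k ∧ T.coeff 0 ≠ 0 ∧
      (∀ i, 1 ≤ i → i ≤ J → T.coeff (k - i) = 0) ∧ ∀ i, SR (F i) T k := by
  classical
  obtain ⟨ℓ, hc⟩ := CharP.exists K
  rcases CharP.char_is_prime_or_zero K ℓ with hl | hl
  · obtain ⟨k, T, h1, h2, h3, h4, h5, h6, h7⟩ := exists_gap_charP (K := K) ℓ hl J p hp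
    exact ⟨k, T, h1, h2, h3, h4, h5, h6, fun i => SR.transfer (Algebra.ofId K (F i)) h7⟩
  · subst hl
    have : CharZero K := CharP.charP_to_charZero K
    have : CharZero E := charZero_of_injective_algebraMap (algebraMap K E).injective
    have : IsGalois K E := { }
    obtain ⟨A, hA, hA0, hAm⟩ := exists_relation hEs J
    obtain ⟨Q, s, hQm, hQs, hs, hQ0, hs0, hQb, hd, hQ1, hgap⟩ :=
      exists_poly_stab (K := K) J p hp A hA hA0 hAm
    obtain ⟨M, hM, hMQ⟩ := p25_factors Q hQm
    have hprod : Q = ∏ k : M, (k : K[X]) := by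
      conv_lhs => rw [← hMQ, ← Multiset.map_univ_coe M]
      rfl
    obtain ⟨c, hc⟩ : ∃ c : M → K, Function.Injective c :=
      ⟨fun k => Infinite.natEmbedding K (Fintype.equivFin M k), fun x y h => by
        have := (Infinite.natEmbedding K).injective h
        exact (Fintype.equivFin M).injective (Fin.ext this)⟩
    have hdvd : ∀ k : M, (k : K[X]) ∣ Q := fun k => by
      rw [hprod]
      exact Finset.dvd_prod_of_mem _ (Finset.mem_univ k)
    have hφQ : Q.map (algebraMap K E) ≠ 0 :=
      (Polynomial.map_ne_zero_iff (algebraMap K E).injective).2 hQm.ne_zero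
    have hfin : ∃ T : K[X], T.Monic ∧ T.natDegree = (∏ k : M, (k : K[X])).natDegree + J ∧
        T.coeff 0 ≠ 0 ∧
        (∀ i, 1 ≤ i → i ≤ J → T.coeff ((∏ k : M, (k : K[X])).natDegree + J - i) = 0) ∧
        ∀ i, SR (F i) T ((∏ k : M, (k : K[X])).natDegree + J) := by
      refine p25_aux ℱ hcof F hpers hE J (fun k : M => (k : K[X])) c hc
        (fun k => (hM _ Multiset.coe_mem).1) (fun k => (hM _ Multiset.coe_mem).2)
        (fun k => hQs.of_dvd hφQ (Polynomial.map_dvd _ (hdvd k))) s hs ?_ hs0 ?_ ?_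
      · intro k h
        obtain ⟨a, ha⟩ := hdvd k
        rw [ha, mul_coeff_zero, h, zero_mul] at hQ0
        exact hQ0 rfl
      · intro k b hb h
        obtain ⟨a, ha⟩ := hdvd k
        refine hQb b hb ?_
        rw [ha, eval_mul, h, zero_mul]
      · rw [← hprod]
        exact hgap
    rw [← hprod] at hfin
    obtain ⟨T, h1, h2, h3, h4, h5⟩ := hfin
    exact ⟨Q.natDegree + J, T, by omega, hd, h1, h2, h3, h4, h5⟩

end Pool.Agent.Helper51.HN
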