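import Pool.Agent.Helper51.HN.P22
import Pool.Agent.Helper51.HN.P25

set_option autoImplicit false

/-!
HN-P26: fields between `K₀` and its totally Henselian closure `T`, `T` nonreal.
-/

namespace Pool.Agent.Helper51.HN

open Polynomial Filter IntermediateField Module Pool.Agent.Helper51.HI

section

variable {K₀ k : Type*} [Field K₀] [Field k] [Algebra K₀ k] {ι : Type*} (L : ι → Type*)
    [∀ i, Field (L i)] [∀ i, Algebra K₀ (L i)]

theorem infinite_tw2 {E : Type*} [Field E] [Algebra k E] [FiniteDimensional k E] [Normal k E]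
    (hEs : IsSumSq (-1 : E)) (hE : ∀ s, Nonempty (E →ₐ[k] Tw K₀ k L s))
    [FiniteDimensional K₀ k] {K : Type*} [Field K]
    [Algebra k K] [Finite ι] [∀ i, Algebra.IsAlgebraic K₀ (L i)] (hL : ∀ i, RH (L i))
    [Nonempty (Σ i, k →ₐ[K₀] L i)] (p : ℕ) (hp : p.Prime)
    (hroot : ∀ χ : k[X], χ.Separable →
      (∀ i (g : k →ₐ[K₀] L i), (χ.map (g : k →+* L i)).Splits) →
      ¬ p ∣ χ.natDegree → ∃ z : K, aeval z χ = 0)
    (f : k[X][X]) (n : ℕ) (hirr : Irreducible f) (hm : f.Monic) (hf : f.natDegree = n + 1)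
    (h0 : (f.coeff 0).coeff 0 = 0) (h1 : (f.coeff 1).coeff 0 ≠ 0) :
    {x : K | ∃ y : K, ((f.map (mapRingHom (algebraMap k K))).map (evalRingHom x)).eval y =
      0}.Infinite := by
  have hfin : ∀ i, Finite (k →ₐ[K₀] L i) := fun i => inferInstance
  have hfin' : Finite (Σ i, k →ₐ[K₀] L i) := inferInstance
  cases nonempty_fintype (Σ i, k →ₐ[K₀] L i)
  have halg : ∀ s : Σ i, k →ₐ[K₀] L i, Algebra.IsAlgebraic k (Tw K₀ k L s) := fun s => by
    have : Algebra.IsAlgebraic K₀ (Tw K₀ k L s) := inferInstanceAs (Algebra.IsAlgebraic K₀ (L s.1))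
    exact Algebra.IsAlgebraic.tower_top (K := K₀) k
  have hRH : ∀ s : Σ i, k →ₐ[K₀] L i, RH (Tw K₀ k L s) := fun s => hL s.1
  obtain ⟨ℱ, hne, hcof, hpers⟩ := exists_filter (fun s => Tw K₀ k L s)
    (fun s => (hRH s).th (K := k))
  have hinf : Infinite k := by
    have h2 : (cofinite : Filter k).NeBot := hne.mono hcof
    by_contra h
    rw [not_infinite_iff_finite] at h
    exact h2.ne cofinite_eq_bot
  refine infinite_irred_split2 (K := K) ℱ hcof (fun s => Tw K₀ k L s) hpers p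
    (fun χ hχ hs hd => hroot χ hχ (fun i g => hs ⟨i, g⟩) hd)
    (fun J => exists_gap_galois ℱ hcof (fun s => Tw K₀ k L s) hpers hEs hE J p hp)
    f n hirr hm hf h0 h1

end

variable {K₀ : Type*} [Field K₀] {Ω : Type*} [Field Ω] [Algebra K₀ Ω]

/-- the totally Henselian elements -/
noncomputable def tot {ι : Type*} (F : ι → IntermediateField K₀ Ω) : IntermediateField K₀ Ω :=
  ⨅ (i : ι) (τ : Ω ≃ₐ[K₀] Ω), (F i).map τ.toAlgHom

theorem mem_tot {ι : Type*} (F : ι → IntermediateField K₀ Ω) (x : Ω) :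
    x ∈ tot F ↔ ∀ (i : ι) (τ : Ω ≃ₐ[K₀] Ω), x ∈ (F i).map τ.toAlgHom := by
  rw [tot, ← SetLike.mem_coe, coe_iInf, Set.mem_iInter]
  refine forall_congr' fun i => ?_
  rw [coe_iInf, Set.mem_iInter]
  rfl

theorem tot_le {ι : Type*} (F : ι → IntermediateField K₀ Ω) (i : ι) (τ : Ω ≃ₐ[K₀] Ω) :
    tot F ≤ (F i).map τ.toAlgHom := fun _ hx => (mem_tot F _).1 hx i τ

theorem tot_le' {ι : Type*} (F : ι → IntermediateField K₀ Ω) (i : ι) : tot F ≤ F i := by
  intro x hx
  obtain ⟨y, hy, hyx⟩ := tot_le F i AlgEquiv.refl hx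
  have h3 : y = x := hyx
  rw [← h3]
  exact hy

instance normal_tot [Normal K₀ Ω] {ι : Type*} (F : ι → IntermediateField K₀ Ω) :
    Normal K₀ (tot F) := by
  rw [normal_iff_forall_map_le']
  rintro σ x ⟨y, hy, rfl⟩
  refine (mem_tot F _).2 fun i τ => ?_
  obtain ⟨z, hz, hzy⟩ := tot_le F i (σ⁻¹ * τ) hy
  refine ⟨z, hz, ?_⟩
  have h1 : σ⁻¹ (τ z) = y := hzy
  rw [← h1]
  show τ z = σ (σ⁻¹ (τ z))
  exact (σ.apply_symm_apply (τ z)).symm

theorem exists_extend {k E : Type*} [Field k] [Field E] [Algebra K₀ k] [Algebra K₀ E]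
    [Algebra k E] [IsScalarTower K₀ k E] [IsAlgClosed Ω] [Algebra.IsAlgebraic K₀ E]
    (g : k →ₐ[K₀] Ω) : ∃ φ : E →ₐ[K₀] Ω, ∀ x : k, φ (algebraMap k E x) = g x := by
  let _ : Algebra k Ω := (g : k →+* Ω).toAlgebra
  have h1 : IsScalarTower K₀ k Ω := IsScalarTower.of_algebraMap_eq fun x => (g.commutes x).symm
  have h2 : Algebra.IsAlgebraic k E := Algebra.IsAlgebraic.tower_top (K := K₀) k
  exact ⟨(IsAlgClosed.lift : E →ₐ[k] Ω).restrictScalars K₀, fun x =>
    (IsAlgClosed.lift : E →ₐ[k] Ω).commutes x⟩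

theorem exists_emb [IsAlgClosed Ω] [Algebra.IsAlgebraic K₀ Ω] {K₁ E₁ F₁ : IntermediateField K₀ Ω}
    (h : K₁ ≤ E₁) (hE : E₁ ≤ F₁) [Normal K₀ E₁] (g : K₁ →ₐ[K₀] F₁) :
    ∃ φ : E₁ →ₐ[K₀] F₁, ∀ x : K₁, φ (inclusion h x) = g x := by
  let _ : Algebra K₁ E₁ := (inclusion h : K₁ →+* E₁).toAlgebra
  have h1 : IsScalarTower K₀ K₁ E₁ := IsScalarTower.of_algebraMap_eq fun x => rfl
  obtain ⟨φ, hφ⟩ := exists_extend (E := E₁) (F₁.val.comp g)
  have h2 : ∀ x, φ x ∈ F₁ := fun x => hE ((AlgHom.fieldRange_of_normal φ).le ⟨x, rfl⟩)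
  exact ⟨φ.codRestrict F₁.toSubalgebra h2, fun x => Subtype.ext (hφ x)⟩

theorem infinite_tot2 [IsAlgClosed Ω] [Normal K₀ Ω] {ι : Type*} [Finite ι] [Nonempty ι]
    (F : ι → IntermediateField K₀ Ω) (hF : ∀ i, RH (F i)) (hT : IsSumSq (-1 : tot F))
    (K : IntermediateField K₀ Ω) (hK : K ≤ tot F) (p : ℕ) (hp : p.Prime)
    (hgal : ∀ M : IntermediateField K Ω, FiniteDimensional K M → IsGalois K M →
      M.restrictScalars K₀ ≤ tot F → ∃ j, finrank K M = p ^ j)
    (f : K[X][X]) (a b : K) (h0 : f.evalEval a b = 0) (h1 : (derivative f).evalEval a b ≠ 0) :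
    {x : K | ∃ y : K, f.evalEval x y = 0}.Infinite := by
  classical
  cases nonempty_fintype ι
  have hinf₀ : Infinite K₀ := by
    obtain ⟨ℱ, hne, hcof, -⟩ := exists_filter (fun i => F i) (fun i => (hF i).th (K := K₀))
    have h2 : (cofinite : Filter K₀).NeBot := hne.mono hcof
    by_contra h
    rw [not_infinite_iff_finite] at h
    exact h2.ne cofinite_eq_bot
  have hinf : Infinite K := Infinite.of_injective _ (algebraMap K₀ K).injective
  refine infinite_points (data_of_monic fun f n hirr hm hf hn h0 h1 => ?_) f a b h0 h1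
  -- the field of definition
  let S : Finset Ω := f.support.biUnion fun j => (f.coeff j).support.image fun i =>
    (((f.coeff j).coeff i : K) : Ω)
  obtain ⟨S', hS'K, hS'⟩ := exists_sumSq (tot F) hT
  let K₁ : IntermediateField K₀ Ω := adjoin K₀ (S : Set Ω)
  have hS : (S : Set Ω) ⊆ K := by
    intro x hx
    simp only [S, Finset.coe_biUnion, Finset.coe_image, Set.mem_iUnion, Set.mem_image] at hx
    obtain ⟨j, -, i, -, rfl⟩ := hx
    exact ((f.coeff j).coeff i).2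
  have h₁ : K₁ ≤ K := adjoin_le_iff.2 hS
  have hfd : FiniteDimensional K₀ K₁ :=
    finiteDimensional_adjoin fun x _ => Algebra.IsIntegral.isIntegral x
  -- the normal extension
  let E₀ : IntermediateField K₀ Ω := adjoin K₀ ((S ∪ S' : Finset Ω) : Set Ω)
  have hE₀ : E₀ ≤ tot F := by
    refine adjoin_le_iff.2 ?_
    rw [Finset.coe_union]
    exact Set.union_subset (fun x hx => hK (hS hx)) hS'K
  have hfE₀ : FiniteDimensional K₀ E₀ :=
    finiteDimensional_adjoin fun x _ => Algebra.IsIntegral.isIntegral x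
  let E₁ : IntermediateField K₀ Ω := normalClosure K₀ E₀ Ω
  have hE₁ : E₁ ≤ tot F := by
    have h2 := normalClosure_mono (F := K₀) (L := Ω) _ _ hE₀
    rwa [normalClosure_of_normal (F := K₀) (L := Ω) (tot F)] at h2
  have h01 : E₀ ≤ E₁ := le_normalClosure E₀
  have hKE : K₁ ≤ E₁ := by
    refine le_trans (adjoin_le_iff.2 ?_) h01
    exact subset_trans (Finset.coe_subset.2 Finset.subset_union_left) (subset_adjoin K₀ _)
  have hSE : (S' : Set Ω) ⊆ E₁ := by
    refine subset_trans ?_ h01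
    exact subset_trans (Finset.coe_subset.2 Finset.subset_union_right) (subset_adjoin K₀ _)
  have hEs : IsSumSq (-1 : E₁) := by
    obtain ⟨a₁, h2, h3⟩ := hS' E₁ hSE
    have h4 : a₁ = -1 := by
      apply Subtype.ext
      rw [h2]
      rfl
    rwa [h4] at h3
  have hnE : Normal K₀ E₁ := normalClosure.normal K₀ E₀ Ω
  have hfE : FiniteDimensional K₀ E₁ := normalClosure.is_finiteDimensional K₀ E₀ Ω
  let _ : Algebra K₁ E₁ := (inclusion hKE : K₁ →+* E₁).toAlgebra
  have htow : IsScalarTower K₀ K₁ E₁ := IsScalarTower.of_algebraMap_eq fun x => rfl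
  have hfE' : FiniteDimensional K₁ E₁ := FiniteDimensional.right K₀ K₁ E₁
  have hnE' : Normal K₁ E₁ := Normal.tower_top_of_normal K₀ K₁ E₁
  have hco : ∀ j i, (((f.coeff j).coeff i : K) : Ω) ∈ K₁ := by
    intro j i
    by_cases hz : (f.coeff j).coeff i = 0
    · rw [hz]
      exact K₁.zero_mem
    · refine subset_adjoin K₀ _ ?_
      simp only [S, Finset.coe_biUnion, Finset.coe_image, Set.mem_iUnion, Set.mem_image]
      refine ⟨j, ?_, i, ?_, rfl⟩
      · rw [Finset.mem_coe, Polynomial.mem_support_iff]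
        intro h
        exact hz (by rw [h, coeff_zero])
      · rw [Finset.mem_coe, Polynomial.mem_support_iff]
        exact hz
  let _ : Algebra K₁ K := (inclusion h₁ : K₁ →+* K).toAlgebra
  have hψi : Function.Injective (algebraMap K₁ K) := (algebraMap K₁ K).injective
  have hΨi : Function.Injective (mapRingHom (algebraMap K₁ K)) := map_injective _ hψi
  obtain ⟨f₁, hf₁⟩ : ∃ f₁ : K₁[X][X], f₁.map (mapRingHom (algebraMap K₁ K)) = f := by
    have h2 : f ∈ lifts (mapRingHom (algebraMap K₁ K)) := by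
      rw [lifts_iff_coeff_lifts]
      intro j
      have h3 : f.coeff j ∈ lifts (algebraMap K₁ K) := by
        rw [lifts_iff_coeff_lifts]
        intro i
        exact ⟨⟨_, hco j i⟩, rfl⟩
      exact h3
    exact h2
  rw [← hf₁] at hm hf hirr h0 h1 ⊢
  have hm₁ : f₁.Monic := monic_of_injective hΨi hm
  rw [natDegree_map_eq_of_injective hΨi] at hf
  have hirr₁ : Irreducible f₁ := hm₁.irreducible_of_irreducible_map _ _ hirr
  rw [coeff_map, coe_mapRingHom, coeff_map] at h0 h1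
  have h0' : (f₁.coeff 0).coeff 0 = 0 := hψi (by rw [h0, map_zero])
  have h1' : (f₁.coeff 1).coeff 0 ≠ 0 := fun h => h1 (by rw [h, map_zero])
  have hne : Nonempty (Σ i, K₁ →ₐ[K₀] F i) := by
    obtain ⟨i⟩ : Nonempty ι := inferInstance
    exact ⟨⟨i, inclusion ((h₁.trans hK).trans (tot_le' F i))⟩⟩
  have hemb : ∀ s : Σ i, K₁ →ₐ[K₀] F i, Nonempty (E₁ →ₐ[K₁] Tw K₀ K₁ (fun i => F i) s) := by
    rintro ⟨i, g⟩
    obtain ⟨φ, hφ⟩ := exists_emb hKE (hE₁.trans (tot_le' F i)) g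
    exact ⟨{ (φ : E₁ →+* F i) with commutes' := hφ }⟩
  refine infinite_tw2 (K₀ := K₀) (fun i => F i) hEs hemb hF p hp (fun χ hχ hs hd => ?_) f₁ n
    hirr₁ hm₁ hf h0' h1'
  obtain ⟨z, hz⟩ := exists_root_tot F K (fun i τ => hK.trans (tot_le F i τ)) p hp
    (fun M h2 h3 h4 => hgal M h2 h3 fun x hx => (mem_tot F x).2 fun i τ => h4 i τ hx)
    K₁ h₁ χ hχ hs hd
  refine ⟨z, ?_⟩
  rw [eval_map] at hz
  exact hz

end Pool.Agent.Helper51.HN
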